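import Mathlib.Data.ZMod.Basic
import Mathlib.Algebra.Polynomial.Basic
import Mathlib.Algebra.BigOperators.Fin
import Mathlib.Logic.Function.Iterate

/-!
Boolean branching programs, deterministic and nondeterministic, and the hard function.
-/

namespace Pool.Agent.Work.MP_807b32_lc.TS

/-- A deterministic branching program on Boolean variables `V` with node set `S`: node `s` queries
the variable `var s` and moves to `next s b` if its value is `b`. A sink is a node with two
loops. -/
structure DBP (V S : Type) where
  start : S
  var : S → V
  next : S → Bool → S
  accept : Set S

/-- One step of the program on the input `w`. -/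
def DBP.step {V S : Type} (B : DBP V S) (w : V → Bool) (s : S) : S := B.next s (w (B.var s))

/-- The program computes `f` in `T` steps: `f w` holds if and only if the node reached from the
start node after `T` steps on the input `w` is accepting. -/
def DBP.ComputesIn {V S : Type} (B : DBP V S) (f : (V → Bool) → Prop) (T : ℕ) : Prop :=
  ∀ w, f w ↔ (B.step w)^[T] B.start ∈ B.accept

/-- A nondeterministic branching program on Boolean variables `V` with node set `S`. An edge
labelled `none` is a free move; an edge labelled `some (q, c)` tests that variable `q` has the
value `c`. -/
structure NBP (V S : Type) where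
  start : S
  accept : Set S
  edge : S → Option (V × Bool) → S → Prop

/-- `B.Walk w s m t`: the program has a walk from `s` to `t` that makes exactly `m` tests, all of
which are passed by the input `w`. -/
inductive NBP.Walk {V S : Type} (B : NBP V S) (w : V → Bool) : S → ℕ → S → Prop
  | nil (s : S) : NBP.Walk B w s 0 s
  | free {s s' t : S} {m : ℕ} : B.edge s none s' → NBP.Walk B w s' m t → NBP.Walk B w s m t
  | test {s s' t : S} {m : ℕ} (q : V) :
      B.edge s (some (q, w q)) s' → NBP.Walk B w s' m t → NBP.Walk B w s (m + 1) t

/-- The program computes `f` with at most `T` tests: an input on which `f` holds has a walk from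
the start node to an accepting node with at most `T` tests, and an input on which `f` fails has
no walk of any length from the start node to an accepting node. -/
def NBP.ComputesIn {V S : Type} (B : NBP V S) (f : (V → Bool) → Prop) (T : ℕ) : Prop :=
  ∀ w, (f w → ∃ m ≤ T, ∃ t ∈ B.accept, B.Walk w B.start m t) ∧
    (∀ m, ∀ t ∈ B.accept, B.Walk w B.start m t → f w)

/-- The polynomial over the field with two elements whose coefficients are the bits of `a`. -/
noncomputable def poly {n : ℕ} (a : Fin n → Bool) : Polynomial (ZMod 2) :=
  ∑ i : Fin n, if a i = true then Polynomial.X ^ (i : ℕ) else 0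

/-- The hard function of `3 n` bits, three blocks `x`, `y`, `c` of `n` bits: there is a bit vector
`g` with `x(t) g(t) = 1` modulo `t ^ n + c(t)` whose inner product with `y` is odd. -/
def Hard (n : ℕ) (w : Fin 3 × Fin n → Bool) : Prop :=
  ∃ g : Fin n → Bool,
    (Polynomial.X ^ n + poly (fun i => w (2, i))) ∣ poly (fun i => w (0, i)) * poly g - 1 ∧
      Odd (Finset.univ.filter (fun i => w (1, i) = true ∧ g i = true)).card

end Pool.Agent.Work.MP_807b32_lc.TS
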