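import Mathlib.Data.Real.Basic
import Pool.Agent.Work.MP_807b32_lc.TS.Defs

/-!
Randomized branching programs.
-/

namespace Pool.Agent.Work.MP_807b32_lc.TS

/-- The node reached from the start node after `T` steps on the input `w` is accepting. -/
def DBP.Accepts {V S : Type} (B : DBP V S) (T : ℕ) (w : V → Bool) : Prop :=
  (B.step w)^[T] B.start ∈ B.accept

open Classical in
/-- A randomized program is a probability vector `wt` on a finite family `B` of deterministic
programs. It computes `f` in `T` steps with success probability `γ` if on every input the programs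
that answer correctly have total weight at least `γ`. -/
def RandComputes {V S ι : Type} [Fintype ι] (wt : ι → ℝ) (B : ι → DBP V S)
    (f : (V → Bool) → Prop) (T : ℕ) (γ : ℝ) : Prop :=
  (∀ i, 0 ≤ wt i) ∧ ∑ i, wt i = 1 ∧
    ∀ w, γ ≤ ∑ i, if ((B i).Accepts T w ↔ f w) then wt i else 0

end Pool.Agent.Work.MP_807b32_lc.TS
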