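import Mathlib
import Pool.Agent.Work.MP_807b32_lc.TS.Defs

-- merged part: Pool.Agent.Work.MP_807b32_lc.TS.Basic
section
/-!
Points `(y, x)`, agreement on and off a set of coordinates, fibres.
-/

namespace Pool.Agent.Work.MP_807b32_lc.TS

open Finset
open scoped Classical

/-- Points: a parameter and a bit vector. -/
abbrev Om (Γ α : Type) := Γ × (α → Bool)

variable {α Γ : Type}

/-- Same parameter, same bits outside `B`. -/
def Off (B : Finset α) (z x : Om Γ α) : Prop := z.1 = x.1 ∧ ∀ i, i ∉ B → z.2 i = x.2 i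

/-- Same parameter, same bits inside `B`. -/
def On (B : Finset α) (z x : Om Γ α) : Prop := z.1 = x.1 ∧ ∀ i, i ∈ B → z.2 i = x.2 i

theorem Off.refl (B : Finset α) (z : Om Γ α) : Off B z z := ⟨rfl, fun _ _ => rfl⟩

theorem Off.symm {B : Finset α} {z x : Om Γ α} (h : Off B z x) : Off B x z :=
  ⟨h.1.symm, fun i hi => (h.2 i hi).symm⟩

theorem Off.trans {B : Finset α} {z x y : Om Γ α} (h : Off B z x) (h' : Off B x y) : Off B z y :=
  ⟨h.1.trans h'.1, fun i hi => (h.2 i hi).trans (h'.2 i hi)⟩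

theorem Off.mono {B C : Finset α} {z x : Om Γ α} (h : Off B z x) (hBC : B ⊆ C) : Off C z x :=
  ⟨h.1, fun i hi => h.2 i (fun hB => hi (hBC hB))⟩

theorem Off.on {B C : Finset α} {z x : Om Γ α} (h : Off B z x) (hd : Disjoint B C) : On C z x :=
  ⟨h.1, fun i hi => h.2 i (fun hB => Finset.disjoint_left.1 hd hB hi)⟩

variable [Fintype α] [DecidableEq α]

/-- `z` with the bits in `V` replaced by those of `x`. -/
def mix (V : Finset α) (z x : Om Γ α) : Om Γ α :=
  (z.1, fun i => if i ∈ V then x.2 i else z.2 i)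

/-- The coordinates where two points differ. -/
def dif (z x : Om Γ α) : Finset α := univ.filter (fun i => z.2 i ≠ x.2 i)

/-- The points of `G` that agree with `z` outside `B`. -/
noncomputable def fib (G : Finset (Om Γ α)) (B : Finset α) (z : Om Γ α) : Finset (Om Γ α) :=
  G.filter (fun x => Off B z x)

/-- The average of `F` over `s`. -/
noncomputable def av {β : Type} (s : Finset β) (F : β → ℝ) : ℝ := (∑ x ∈ s, F x) / s.card

omit [Fintype α] [DecidableEq α] in
theorem mem_fib {G : Finset (Om Γ α)} {B : Finset α} {z x : Om Γ α} :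
    x ∈ fib G B z ↔ x ∈ G ∧ Off B z x := by
  simp [fib]

omit [DecidableEq α] in
theorem mem_dif {z x : Om Γ α} {i : α} : i ∈ dif z x ↔ z.2 i ≠ x.2 i := by
  simp [dif]

omit [Fintype α] in
theorem off_mix (V : Finset α) (z x : Om Γ α) : Off V z (mix V z x) :=
  ⟨rfl, fun i hi => by simp [mix, hi]⟩

omit [Fintype α] [DecidableEq α] in
theorem fib_congr {G : Finset (Om Γ α)} {B : Finset α} {z x : Om Γ α} (h : Off B z x) :
    fib G B z = fib G B x := by
  ext y
  simp only [mem_fib]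
  exact ⟨fun hy => ⟨hy.1, h.symm.trans hy.2⟩, fun hy => ⟨hy.1, h.trans hy.2⟩⟩

variable [Fintype Γ]

/-- Product formula over a full subcube. -/
theorem sum_fib_prod (W : Finset α) (x : Om Γ α) (m : α → Bool → ℝ) :
    ∑ z ∈ fib univ W x, ∏ i ∈ W, m i (z.2 i) = ∏ i ∈ W, (m i true + m i false) := by
  have h1 : ∏ i ∈ W, (m i true + m i false) =
      ∏ i, ∑ b ∈ (if i ∈ W then (univ : Finset Bool) else {x.2 i}), (if i ∈ W then m i b else 1) := by
    rw [← Finset.prod_ite_mem_eq]
    refine Finset.prod_congr rfl (fun i _ => ?_)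
    by_cases hi : i ∈ W <;> simp [hi]
  rw [h1, Finset.prod_univ_sum]
  refine Finset.sum_bij' (fun z _ => z.2) (fun v _ => (x.1, v)) ?_ ?_ ?_ ?_ ?_
  · intro z hz
    rw [Fintype.mem_piFinset]
    intro i
    by_cases hi : i ∈ W
    · simp [hi]
    · simp [hi, (mem_fib.1 hz).2.2 i hi]
  · intro v hv
    rw [Fintype.mem_piFinset] at hv
    refine mem_fib.2 ⟨mem_univ _, rfl, fun i hi => ?_⟩
    have := hv i
    simp only [hi, if_false, mem_singleton] at this
    exact this.symm
  · intro z hz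
    exact Prod.ext (mem_fib.1 hz).2.1 rfl
  · intro v _
    rfl
  · intro z _
    rw [Finset.prod_ite_mem_eq]

theorem card_fib_univ (W : Finset α) (x : Om Γ α) : (fib univ W x).card = 2 ^ W.card := by
  have h := sum_fib_prod W x (fun _ _ => 1)
  simp only [Finset.prod_const_one, Finset.sum_const, nsmul_eq_mul, mul_one,
    Finset.prod_const] at h
  have h2 : ((fib univ W x).card : ℝ) = ((2 ^ W.card : ℕ) : ℝ) := by
    rw [h]; push_cast; norm_num
  exact_mod_cast h2

theorem card_fib_le (G : Finset (Om Γ α)) (W : Finset α) (x : Om Γ α) :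
    (fib G W x).card ≤ 2 ^ W.card := by
  rw [← card_fib_univ W x]
  exact Finset.card_le_card (fun z hz => mem_fib.2 ⟨mem_univ _, (mem_fib.1 hz).2⟩)

omit [Fintype α] [DecidableEq α] [Fintype Γ] in
/-- Fibre counting: double count the pairs in `S × T` that agree outside `B`. -/
theorem card_le_of_fib (S T : Finset (Om Γ α)) (B : Finset α) (a b : ℝ) (ha : 0 ≤ a)
    (h : ∀ z ∈ S, ((fib S B z).card : ℝ) ≤ a ∧ b ≤ ((fib T B z).card : ℝ)) :
    (S.card : ℝ) * b ≤ a * T.card := by
  have h1 : (S.card : ℝ) * b ≤ ∑ z ∈ S, ((fib T B z).card : ℝ) := by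
    rw [← nsmul_eq_mul, ← Finset.sum_const]
    exact Finset.sum_le_sum (fun z hz => (h z hz).2)
  have h2 : ∑ z ∈ S, ((fib T B z).card : ℝ) = ∑ x ∈ T, ((fib S B x).card : ℝ) := by
    simp only [fib, Finset.card_filter]
    push_cast
    rw [Finset.sum_comm]
    refine Finset.sum_congr rfl (fun x _ => Finset.sum_congr rfl (fun z _ => ?_))
    exact if_congr ⟨Off.symm, Off.symm⟩ rfl rfl
  have h3 : ∑ x ∈ T, ((fib S B x).card : ℝ) ≤ a * T.card := by
    rw [mul_comm, ← nsmul_eq_mul, ← Finset.sum_const]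
    refine Finset.sum_le_sum (fun x _ => ?_)
    rcases (fib S B x).eq_empty_or_nonempty with he | ⟨z, hz⟩
    · simp [he, ha]
    · rw [fib_congr (mem_fib.1 hz).2]
      exact (h z (mem_fib.1 hz).1).1
  linarith

end Pool.Agent.Work.MP_807b32_lc.TS
end

-- merged part: Pool.Agent.Work.MP_807b32_lc.TS.Disp
section
/-!
From small bias to the disperser property for rectangles with one short and one long foot.

Proof plan of `disp_of_bias`. Let `OA`, `OV` be the sets of offsets `d : α → Bool` supported in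
`A`, `V` (sizes `2 ^ |A|`, `2 ^ |V|`). For `z` let `Θ z` be the sum, over the tuples
`t : Fin (2 r) → OA` in which some value occurs exactly once, of
`(∑ e ∈ OV, ∏ i, χ (shift z (t i + e))) ^ 2`.
(1) Expanding the square, `∑ z, Θ z` is a sum over `t, e, e'` of `∑ z, ∏ χ` over the `4 r` offsets
`t i + e`, `t i + e'`. For `e = e'` bound it by the number of points; for `e ≠ e'` the offset
`t i₀ + e` occurs once (the supports are disjoint), so `Bias` gives `8 r |Γ|`.
Hence `∑ z, Θ z ≤ 2 ^ (2 r |A|) (2 ^ |V| |Ω| + 4 ^ |V| 8 r |Γ|)`, and `|Ω| = |Γ| 2 ^ n`.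
(2) For a bad `z` let `RA'`, `RV'` be the offsets of `RA`, `RV` relative to `z`, `ρ = |RA'|`. For
`e ∈ RV'` all `χ (shift z (d + e))`, `d ∈ RA'`, equal `-1`, so
`|RV| ρ ^ (2 r) ≤ ∑ e ∈ OV, (∑ d ∈ RA', χ) ^ (2 r) = ∑ t ∈ piFinset RA', ∑ e ∈ OV, ∏ i, χ`
(`Finset.sum_pow'` or `Finset.prod_univ_sum`). Tuples in which no value occurs exactly once: at most
`ρ ^ r r ^ (2 r)` (`card_no_unique`), each contributes at most `2 ^ |V|`. The others contribute `Y`
with `Y ^ 2 ≤ ρ ^ (2 r) Θ z` (`sq_sum_le_card_mul_sum_sq`). As `ρ ^ r β ≥ 2 r ^ (2 r)` this gives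
`Θ z ≥ β ^ 2 u ^ (2 r) 4 ^ |V| / 4`.
-/

namespace Pool.Agent.Work.MP_807b32_lc.TS

open Finset
open scoped Classical

variable {α Γ : Type} [Fintype α] [DecidableEq α] [Fintype Γ]

/-- Add an offset to the bit vector. -/
def shift (z : Om Γ α) (d : α → Bool) : Om Γ α := (z.1, fun i => xor (z.2 i) (d i))

/-- Small bias: products of shifts of `χ` almost cancel if some shift occurs exactly once. -/
def Bias (χ : Om Γ α → ℝ) : Prop :=
  ∀ (ι : Type) [Fintype ι] (δ : ι → α → Bool) (i₀ : ι), (∀ j, j ≠ i₀ → δ j ≠ δ i₀) →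
    ∑ z : Om Γ α, ∏ i, χ (shift z (δ i)) ≤ 2 * Fintype.card ι * Fintype.card Γ

/-- Few points lie in a fibre that carries an accepted rectangle with legs `u` and
`β 2 ^ |V|`. -/
def Disp (f : Om Γ α → Prop) : Prop :=
  ∀ (A V : Finset α), Disjoint A V → ∀ (r : ℕ) (u β : ℝ), 1 ≤ r → 0 < u → 0 < β →
    2 * (r : ℝ) ^ (2 * r) ≤ u ^ r * β → ∀ bad : Finset (Om Γ α),
    (∀ z ∈ bad, ∃ RA RV : Finset (Om Γ α), (∀ a ∈ RA, Off A z a) ∧ (∀ v ∈ RV, Off V z v) ∧
      u ≤ (RA.card : ℝ) ∧ β * 2 ^ V.card ≤ (RV.card : ℝ) ∧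
      ∀ a ∈ RA, ∀ v ∈ RV, f (mix V a v)) →
    (bad.card : ℝ) * (β ^ 2 * u ^ (2 * r)) ≤
      4 * 2 ^ (2 * r * A.card) * ((1 / 2) ^ V.card + 8 * r * (1 / 2) ^ Fintype.card α) *
        Fintype.card (Om Γ α)

/-- A tuple of length `2 r` in which no value occurs exactly once takes at most `r` values, so it
is `g ∘ φ` with `φ : Fin (2 r) → Fin r` and `g : Fin r → R`. -/
theorem card_no_unique {β : Type} [DecidableEq β] (R : Finset β) (r : ℕ) :
    ((Fintype.piFinset (fun _ : Fin (2 * r) => R)).filter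
      (fun t => ¬ ∃ i₀, ∀ j, j ≠ i₀ → t j ≠ t i₀)).card ≤ R.card ^ r * r ^ (2 * r) := by
  rcases Nat.eq_zero_or_pos r with rfl | hr
  · refine (Finset.card_filter_le _ _).trans ?_
    rw [Fintype.card_piFinset_const]
    simp
  have : Nonempty (Fin (2 * r)) := ⟨⟨0, by omega⟩⟩
  have hc : ((Fintype.piFinset (fun _ : Fin r => R)) ×ˢ (univ : Finset (Fin (2 * r) → Fin r))).card
      = R.card ^ r * r ^ (2 * r) := by
    rw [Finset.card_product, Fintype.card_piFinset_const, Finset.card_univ, Fintype.card_fun,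
      Fintype.card_fin, Fintype.card_fin]
  rw [← hc]
  refine Finset.card_le_card_of_surjOn (fun p => p.1 ∘ p.2) fun t ht => ?_
  obtain ⟨h1, h2⟩ := Finset.mem_filter.1 (Finset.mem_coe.1 ht)
  have h3 : (univ.image t).card ≤ r := by
    have h4 : 2 * (univ.image t).card ≤ (univ : Finset (Fin (2 * r))).card := by
      refine Finset.mul_card_image_le_card _ 2 fun b hb => ?_
      obtain ⟨i, -, rfl⟩ := Finset.mem_image.1 hb
      have h5 : ∃ j, j ≠ i ∧ t j = t i := by
        by_contra h6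
        exact h2 ⟨i, fun j hj e => h6 ⟨j, hj, e⟩⟩
      obtain ⟨j, hj, e⟩ := h5
      exact Finset.one_lt_card.2 ⟨j, by simp [e], i, by simp, hj⟩
    rw [Finset.card_univ, Fintype.card_fin] at h4
    omega
  obtain ⟨ι⟩ : Nonempty (↥(univ.image t) ↪ Fin r) :=
    Function.Embedding.nonempty_of_card_le (by rwa [Fintype.card_coe, Fintype.card_fin])
  let φ : Fin (2 * r) → Fin r := fun i => ι ⟨t i, Finset.mem_image_of_mem t (mem_univ i)⟩
  refine ⟨(fun j => t (Function.invFun φ j), φ), ?_, funext fun i => ?_⟩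
  · exact Finset.mem_coe.2 (Finset.mem_product.2
      ⟨Fintype.mem_piFinset.2 fun j => Fintype.mem_piFinset.1 h1 _, mem_univ _⟩)
  · have h7 : φ (Function.invFun φ (φ i)) = φ i := Function.invFun_eq ⟨i, rfl⟩
    exact congrArg Subtype.val (ι.injective h7)

/-- The offsets supported in `B`. -/
def DispO (B : Finset α) : Finset (α → Bool) :=
  Fintype.piFinset fun i => if i ∈ B then univ else {false}

/-- The sum of two offsets. -/
def DispA (d e : α → Bool) : α → Bool := fun i => xor (d i) (e i)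

theorem Disp_mem {B : Finset α} {d : α → Bool} : d ∈ DispO B ↔ ∀ i, i ∉ B → d i = false := by
  rw [DispO, Fintype.mem_piFinset]
  refine forall_congr' fun i => ?_
  by_cases hi : i ∈ B <;> simp [hi]

theorem Disp_card (B : Finset α) : (DispO B).card = 2 ^ B.card := by
  rw [DispO, Fintype.card_piFinset, ← Finset.prod_const, ← Finset.prod_ite_mem_eq B]
  refine Finset.prod_congr rfl fun i _ => ?_
  by_cases hi : i ∈ B <;> simp [hi]

theorem Disp_pm {ι : Type} [Fintype ι] {g : ι → ℝ} (h : ∀ i, g i = 1 ∨ g i = -1) :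
    (∏ i, g i) * ∏ i, g i = 1 := by
  rw [← Finset.prod_mul_distrib]
  refine Finset.prod_eq_one fun i _ => ?_
  rcases h i with e | e <;> rw [e] <;> norm_num

theorem Disp_pm' {ι : Type} [Fintype ι] {g : ι → ℝ} (h : ∀ i, g i = 1 ∨ g i = -1) :
    ∏ i, g i ≤ 1 := by
  nlinarith [Disp_pm h, sq_nonneg (∏ i, g i - 1)]

theorem Disp_one {χ : Om Γ α → ℝ} (h1 : ∀ z, χ z = 1 ∨ χ z = -1) (hb : Bias χ) {A V : Finset α}
    (hAV : Disjoint A V) {r : ℕ} {t : Fin (2 * r) → α → Bool} (ht : ∀ i, t i ∈ DispO A)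
    (hu : ∃ i₀, ∀ j, j ≠ i₀ → t j ≠ t i₀) :
    ∑ z : Om Γ α, (∑ e ∈ DispO V, ∏ i, χ (shift z (DispA (t i) e))) ^ 2 ≤
      2 ^ V.card * Fintype.card (Om Γ α) + (2 ^ V.card) ^ 2 * (8 * r * Fintype.card Γ) := by
  obtain ⟨i₀, hu⟩ := hu
  have key : ∀ e ∈ DispO V, ∀ e' ∈ DispO V,
      ∑ z : Om Γ α, (∏ i, χ (shift z (DispA (t i) e))) * ∏ i, χ (shift z (DispA (t i) e')) ≤
        (if e = e' then (Fintype.card (Om Γ α) : ℝ) else 0) + 8 * r * Fintype.card Γ := by
    intro e he e' he'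
    split_ifs with h
    · subst h
      rw [Finset.sum_congr rfl fun z _ => Disp_pm fun i => h1 _, Finset.sum_const,
        Finset.card_univ, nsmul_eq_mul, mul_one]
      have : (0 : ℝ) ≤ 8 * r * Fintype.card Γ := by positivity
      linarith
    · have h2 := hb (Fin (2 * r) ⊕ Fin (2 * r))
        (Sum.elim (fun i => DispA (t i) e) fun i => DispA (t i) e') (Sum.inl i₀) (by
          rintro (j | j) hj k
          · refine hu j (fun k' => hj (congrArg Sum.inl k')) (funext fun i => ?_)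
            have k1 : xor (t j i) (e i) = xor (t i₀ i) (e i) := congrFun k i
            revert k1
            cases t j i <;> cases t i₀ i <;> cases e i <;> simp
          · refine h (funext fun i => ?_)
            have k1 : xor (t j i) (e' i) = xor (t i₀ i) (e i) := congrFun k i
            by_cases hi : i ∈ V
            · have hA : i ∉ A := Finset.disjoint_right.1 hAV hi
              rw [Disp_mem.1 (ht j) i hA, Disp_mem.1 (ht i₀) i hA] at k1
              simpa using k1.symm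
            · rw [Disp_mem.1 he i hi, Disp_mem.1 he' i hi])
      simp only [Fintype.prod_sum_type, Sum.elim_inl, Sum.elim_inr, Fintype.card_sum,
        Fintype.card_fin] at h2
      push_cast at h2
      linarith
  calc ∑ z : Om Γ α, (∑ e ∈ DispO V, ∏ i, χ (shift z (DispA (t i) e))) ^ 2
      = ∑ e ∈ DispO V, ∑ e' ∈ DispO V, ∑ z : Om Γ α,
          (∏ i, χ (shift z (DispA (t i) e))) * ∏ i, χ (shift z (DispA (t i) e')) := by
        simp only [sq, Finset.sum_mul_sum]
        rw [Finset.sum_comm]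
        exact Finset.sum_congr rfl fun e _ => Finset.sum_comm
    _ ≤ ∑ e ∈ DispO V, ∑ e' ∈ DispO V,
          ((if e = e' then (Fintype.card (Om Γ α) : ℝ) else 0) + 8 * r * Fintype.card Γ) :=
        Finset.sum_le_sum fun e he => Finset.sum_le_sum fun e' he' => key e he e' he'
    _ = ∑ e ∈ DispO V, ((Fintype.card (Om Γ α) : ℝ) + 2 ^ V.card * (8 * r * Fintype.card Γ)) := by
        refine Finset.sum_congr rfl fun e he => ?_
        rw [Finset.sum_add_distrib, Finset.sum_ite_eq, if_pos he, Finset.sum_const, Disp_card,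
          nsmul_eq_mul]
        push_cast
        ring
    _ = _ := by
        rw [Finset.sum_const, Disp_card, nsmul_eq_mul]
        push_cast
        ring

omit [Fintype Γ] in
theorem Disp_two {f : Om Γ α → Prop} {χ : Om Γ α → ℝ} (h1 : ∀ z, χ z = 1 ∨ χ z = -1)
    (hf : ∀ z, f z → χ z = -1) {A V : Finset α} (hAV : Disjoint A V) {r : ℕ} {u β : ℝ}
    (hu : 0 < u) (hβ : 0 < β) (hr : 2 * (r : ℝ) ^ (2 * r) ≤ u ^ r * β) {z : Om Γ α}
    {RA RV : Finset (Om Γ α)} (hA : ∀ a ∈ RA, Off A z a) (hV : ∀ v ∈ RV, Off V z v)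
    (hA' : u ≤ (RA.card : ℝ)) (hV' : β * 2 ^ V.card ≤ (RV.card : ℝ))
    (hm : ∀ a ∈ RA, ∀ v ∈ RV, f (mix V a v)) :
    β ^ 2 * u ^ (2 * r) * (2 ^ V.card) ^ 2 ≤
      4 * ∑ t ∈ (Fintype.piFinset fun _ : Fin (2 * r) => DispO A).filter
        (fun t => ∃ i₀, ∀ j, j ≠ i₀ → t j ≠ t i₀),
        (∑ e ∈ DispO V, ∏ i, χ (shift z (DispA (t i) e))) ^ 2 := by
  have hinj : ∀ (B : Finset α) (R : Finset (Om Γ α)), (∀ a ∈ R, Off B z a) →
      (R.image fun a => DispA z.2 a.2).card = R.card ∧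
        (R.image fun a => DispA z.2 a.2) ⊆ DispO B := by
    intro B R h
    refine ⟨Finset.card_image_of_injOn fun a ha b hb e => ?_, fun d hd => ?_⟩
    · refine Prod.ext ((h a ha).1.symm.trans (h b hb).1) (funext fun i => ?_)
      have k1 : xor (z.2 i) (a.2 i) = xor (z.2 i) (b.2 i) := congrFun e i
      revert k1
      cases z.2 i <;> cases a.2 i <;> cases b.2 i <;> simp
    · obtain ⟨a, ha, rfl⟩ := Finset.mem_image.1 hd
      refine Disp_mem.2 fun i hi => ?_
      simp [DispA, (h a ha).2 i hi]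
  obtain ⟨cA, sA⟩ := hinj A RA hA
  obtain ⟨cV, sV⟩ := hinj V RV hV
  have hval : ∀ d ∈ RA.image fun a => DispA z.2 a.2, ∀ e ∈ RV.image fun a => DispA z.2 a.2,
      χ (shift z (DispA d e)) = -1 := by
    intro d hd e he
    obtain ⟨a, ha, rfl⟩ := Finset.mem_image.1 hd
    obtain ⟨v, hv, rfl⟩ := Finset.mem_image.1 he
    have : shift z (DispA (DispA z.2 a.2) (DispA z.2 v.2)) = mix V a v := by
      refine Prod.ext (hA a ha).1 (funext fun i => ?_)
      change xor (z.2 i) (xor (xor (z.2 i) (a.2 i)) (xor (z.2 i) (v.2 i))) =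
        if i ∈ V then v.2 i else a.2 i
      by_cases hi : i ∈ V
      · rw [if_pos hi, ← (hA a ha).2 i (Finset.disjoint_right.1 hAV hi)]
        cases z.2 i <;> cases v.2 i <;> rfl
      · rw [if_neg hi, ← (hV v hv).2 i hi]
        cases z.2 i <;> cases a.2 i <;> rfl
    rw [this]
    exact hf _ (hm a ha v hv)
  rw [← cA] at hA'
  rw [← cV] at hV'
  generalize (RA.image fun a => DispA z.2 a.2) = R at hA' sA hval
  generalize (RV.image fun a => DispA z.2 a.2) = R' at hV' sV hval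
  clear cA cV
  obtain ⟨Q, hQ⟩ : ∃ Q : (Fin (2 * r) → α → Bool) → ℝ,
      ∀ t, Q t = ∑ e ∈ DispO V, ∏ i, χ (shift z (DispA (t i) e)) := ⟨_, fun _ => rfl⟩
  simp only [← hQ]
  obtain ⟨N, hN⟩ : ∃ N : ℝ, N = 2 ^ V.card := ⟨_, rfl⟩
  have hN0 : 0 < N := by rw [hN]; exact pow_pos two_pos _
  have hQ1 : ∀ t, Q t ≤ N := fun t => by
    rw [hQ, hN]
    refine (Finset.sum_le_card_nsmul _ _ 1 fun e _ => Disp_pm' fun i => h1 _).trans ?_
    rw [Disp_card, nsmul_eq_mul]
    push_cast
    rw [mul_one]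
  rw [← hN] at hV' ⊢
  obtain ⟨ρ, hρ⟩ : ∃ ρ : ℝ, ρ = (R.card : ℝ) ^ r := ⟨_, rfl⟩
  have hρ2 : (R.card : ℝ) ^ (2 * r) = ρ ^ 2 := by rw [hρ, ← pow_mul, mul_comm]
  have hρu : u ^ r ≤ ρ := hρ ▸ pow_le_pow_left₀ hu.le hA' r
  have hur : 0 < u ^ r := pow_pos hu r
  have hρ0 : 0 < ρ := hur.trans_le hρu
  have e1 : β * N * ρ ^ 2 ≤ ∑ t ∈ Fintype.piFinset fun _ : Fin (2 * r) => R, Q t := by
    calc β * N * ρ ^ 2 ≤ R'.card * ρ ^ 2 := mul_le_mul_of_nonneg_right hV' (sq_nonneg _)
      _ = ∑ e ∈ R', (∑ d ∈ R, χ (shift z (DispA d e))) ^ (2 * r) := by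
          rw [← nsmul_eq_mul, ← Finset.sum_const]
          refine Finset.sum_congr rfl fun e he => ?_
          rw [Finset.sum_congr rfl fun d hd => hval d hd e he, Finset.sum_const, nsmul_eq_mul,
            mul_pow, hρ2, pow_mul, neg_one_sq, one_pow, mul_one]
      _ ≤ ∑ e ∈ DispO V, (∑ d ∈ R, χ (shift z (DispA d e))) ^ (2 * r) :=
          Finset.sum_le_sum_of_subset_of_nonneg sV fun e _ _ => by
            rw [pow_mul]
            exact pow_nonneg (sq_nonneg _) _
      _ = _ := by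
          simp only [Finset.sum_pow', hQ]
          exact Finset.sum_comm
  rw [← Finset.sum_filter_add_sum_filter_not _ fun t => ∃ i₀, ∀ j, j ≠ i₀ → t j ≠ t i₀] at e1
  have e2 : ∑ t ∈ (Fintype.piFinset fun _ : Fin (2 * r) => R).filter
      (fun t => ¬ ∃ i₀, ∀ j, j ≠ i₀ → t j ≠ t i₀), Q t ≤ ρ * (r : ℝ) ^ (2 * r) * N := by
    refine (Finset.sum_le_card_nsmul _ _ N fun t _ => hQ1 t).trans ?_
    rw [nsmul_eq_mul]
    refine mul_le_mul_of_nonneg_right ?_ hN0.le
    rw [hρ]
    exact_mod_cast card_no_unique R r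
  have e3 := sq_sum_le_card_mul_sum_sq (s := (Fintype.piFinset fun _ : Fin (2 * r) => R).filter
    fun t => ∃ i₀, ∀ j, j ≠ i₀ → t j ≠ t i₀) (f := Q)
  have e4 : (((Fintype.piFinset fun _ : Fin (2 * r) => R).filter
      fun t => ∃ i₀, ∀ j, j ≠ i₀ → t j ≠ t i₀).card : ℝ) ≤ ρ ^ 2 := by
    rw [← hρ2]
    have := Finset.card_filter_le (Fintype.piFinset fun _ : Fin (2 * r) => R)
      fun t => ∃ i₀, ∀ j, j ≠ i₀ → t j ≠ t i₀
    rw [Fintype.card_piFinset_const] at this
    exact_mod_cast this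
  have e5 : ∑ t ∈ (Fintype.piFinset fun _ : Fin (2 * r) => R).filter
      (fun t => ∃ i₀, ∀ j, j ≠ i₀ → t j ≠ t i₀), Q t ^ 2 ≤
      ∑ t ∈ (Fintype.piFinset fun _ : Fin (2 * r) => DispO A).filter
        (fun t => ∃ i₀, ∀ j, j ≠ i₀ → t j ≠ t i₀), Q t ^ 2 :=
    Finset.sum_le_sum_of_subset_of_nonneg
      (Finset.filter_subset_filter _ (Fintype.piFinset_subset _ _ fun _ => sA))
      fun _ _ _ => sq_nonneg _
  have e6 : 0 ≤ ∑ t ∈ (Fintype.piFinset fun _ : Fin (2 * r) => R).filter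
      (fun t => ∃ i₀, ∀ j, j ≠ i₀ → t j ≠ t i₀), Q t ^ 2 :=
    Finset.sum_nonneg fun _ _ => sq_nonneg _
  generalize ∑ t ∈ (Fintype.piFinset fun _ : Fin (2 * r) => DispO A).filter
    (fun t => ∃ i₀, ∀ j, j ≠ i₀ → t j ≠ t i₀), Q t ^ 2 = Θ at e5 ⊢
  have e7 := e3.trans ((mul_le_mul_of_nonneg_right e4 e6).trans
    (mul_le_mul_of_nonneg_left e5 (sq_nonneg _)))
  generalize ∑ t ∈ (Fintype.piFinset fun _ : Fin (2 * r) => R).filter
    (fun t => ∃ i₀, ∀ j, j ≠ i₀ → t j ≠ t i₀), Q t = Y at e1 e7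
  have e8 : 2 * (ρ * (r : ℝ) ^ (2 * r) * N) ≤ β * N * ρ ^ 2 := by
    have k1 : 2 * (r : ℝ) ^ (2 * r) ≤ ρ * β := hr.trans (mul_le_mul_of_nonneg_right hρu hβ.le)
    have k2 := mul_le_mul_of_nonneg_left k1 (mul_pos hρ0 hN0).le
    calc 2 * (ρ * (r : ℝ) ^ (2 * r) * N) = ρ * N * (2 * (r : ℝ) ^ (2 * r)) := by ring
      _ ≤ ρ * N * (ρ * β) := k2
      _ = β * N * ρ ^ 2 := by ring
  have e9 : β * N * ρ ^ 2 ≤ 2 * Y := by linarith
  have e10 : (β * N * ρ ^ 2) ^ 2 ≤ (2 * Y) ^ 2 :=
    pow_le_pow_left₀ (mul_pos (mul_pos hβ hN0) (pow_pos hρ0 2)).le e9 2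
  have e11 : ρ ^ 2 * (β ^ 2 * ρ ^ 2 * N ^ 2) ≤ ρ ^ 2 * (4 * Θ) := by
    calc ρ ^ 2 * (β ^ 2 * ρ ^ 2 * N ^ 2) = (β * N * ρ ^ 2) ^ 2 := by ring
      _ ≤ (2 * Y) ^ 2 := e10
      _ = 4 * Y ^ 2 := by ring
      _ ≤ 4 * (ρ ^ 2 * Θ) := by linarith
      _ = ρ ^ 2 * (4 * Θ) := by ring
  refine le_trans ?_ (le_of_mul_le_mul_left e11 (pow_pos hρ0 2))
  rw [mul_comm 2 r, pow_mul]
  exact mul_le_mul_of_nonneg_right
    (mul_le_mul_of_nonneg_left (pow_le_pow_left₀ hur.le hρu 2) (sq_nonneg _)) (sq_nonneg _)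

theorem disp_of_bias (f : Om Γ α → Prop) (χ : Om Γ α → ℝ) (h1 : ∀ z, χ z = 1 ∨ χ z = -1)
    (hf : ∀ z, f z → χ z = -1) (hb : Bias χ) : Disp f := by
  intro A V hAV r u β _ hu hβ hr bad hbad
  obtain ⟨T, hT⟩ : ∃ T, T = (Fintype.piFinset fun _ : Fin (2 * r) => DispO A).filter
    (fun t => ∃ i₀, ∀ j, j ≠ i₀ → t j ≠ t i₀) := ⟨_, rfl⟩
  have hcT : (T.card : ℝ) ≤ 2 ^ (2 * r * A.card) := by
    have := Finset.card_filter_le (Fintype.piFinset fun _ : Fin (2 * r) => DispO A)
      fun t => ∃ i₀, ∀ j, j ≠ i₀ → t j ≠ t i₀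
    rw [Fintype.card_piFinset_const, Disp_card, ← pow_mul, mul_comm A.card, ← hT] at this
    exact_mod_cast this
  have e1 : (bad.card : ℝ) * (β ^ 2 * u ^ (2 * r) * (2 ^ V.card) ^ 2) ≤
      4 * ∑ z : Om Γ α, ∑ t ∈ T, (∑ e ∈ DispO V, ∏ i, χ (shift z (DispA (t i) e))) ^ 2 := by
    rw [← nsmul_eq_mul, Finset.mul_sum]
    refine (Finset.card_nsmul_le_sum _ _ _ fun z hz => ?_).trans
      (Finset.sum_le_sum_of_subset_of_nonneg (subset_univ bad) fun z _ _ =>
        mul_nonneg (by norm_num) (Finset.sum_nonneg fun _ _ => sq_nonneg _))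
    obtain ⟨RA, RV, k1, k2, k3, k4, k5⟩ := hbad z hz
    rw [hT]
    exact Disp_two h1 hf hAV hu hβ hr k1 k2 k3 k4 k5
  obtain ⟨M, hM⟩ : ∃ M : ℝ, M = 2 ^ V.card * Fintype.card (Om Γ α) +
    (2 ^ V.card) ^ 2 * (8 * r * Fintype.card Γ) := ⟨_, rfl⟩
  have hM0 : 0 ≤ M := by
    rw [hM]
    exact add_nonneg (mul_nonneg (pow_nonneg zero_le_two _) (Nat.cast_nonneg _))
      (mul_nonneg (sq_nonneg _) (mul_nonneg (mul_nonneg (by norm_num) (Nat.cast_nonneg _))
        (Nat.cast_nonneg _)))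
  have e2 : ∑ z : Om Γ α, ∑ t ∈ T, (∑ e ∈ DispO V, ∏ i, χ (shift z (DispA (t i) e))) ^ 2 ≤
      2 ^ (2 * r * A.card) * M := by
    rw [Finset.sum_comm]
    refine (Finset.sum_le_card_nsmul _ _ M fun t ht => ?_).trans ?_
    · rw [hT] at ht
      obtain ⟨k1, k2⟩ := Finset.mem_filter.1 ht
      rw [hM]
      exact Disp_one h1 hb hAV (Fintype.mem_piFinset.1 k1) k2
    · rw [nsmul_eq_mul]
      exact mul_le_mul_of_nonneg_right hcT hM0
  have hΩ : (Fintype.card (Om Γ α) : ℝ) = Fintype.card Γ * 2 ^ Fintype.card α := by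
    rw [Fintype.card_prod, Fintype.card_fun, Fintype.card_bool]
    push_cast
    rfl
  have e3 : M = (2 ^ V.card) ^ 2 * (((1 / 2) ^ V.card + 8 * r * (1 / 2) ^ Fintype.card α) *
      Fintype.card (Om Γ α)) := by
    rw [hM, hΩ, one_div_pow, one_div_pow]
    field_simp
  have hpos : (0 : ℝ) < (2 ^ V.card) ^ 2 := pow_pos (pow_pos two_pos _) _
  refine le_of_mul_le_mul_left ?_ hpos
  calc (2 ^ V.card) ^ 2 * ((bad.card : ℝ) * (β ^ 2 * u ^ (2 * r)))
      = (bad.card : ℝ) * (β ^ 2 * u ^ (2 * r) * (2 ^ V.card) ^ 2) := by ring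
    _ ≤ 4 * (2 ^ (2 * r * A.card) * M) := e1.trans (by linarith)
    _ = _ := by rw [e3]; ring

end Pool.Agent.Work.MP_807b32_lc.TS
end

-- merged part: Pool.Agent.Work.MP_807b32_lc.TS.Inv
section
/-!
The inner product of `y` with the inverse of `x` in a field of characteristic two has small bias
and density at least one quarter, and it is a restriction of the hard function.
-/

namespace Pool.Agent.Work.MP_807b32_lc.TS

open Finset
open scoped Classical

section

variable {n : ℕ} {F : Type} [Field F] [Algebra (ZMod 2) F]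

/-- The field element with coordinates `x`. -/
noncomputable def emb (e : Module.Basis (Fin n) (ZMod 2) F) (x : Fin n → Bool) : F :=
  ∑ i, if x i = true then e i else 0

/-- The inner product of `y` with the coordinates of `s`. -/
noncomputable def ip (e : Module.Basis (Fin n) (ZMod 2) F) (y : Fin n → Bool) (s : F) : ZMod 2 :=
  ∑ i, if y i = true then e.repr s i else 0

/-- The function `⟨y, x⁻¹⟩ = 1`. -/
def invF (e : Module.Basis (Fin n) (ZMod 2) F) (z : Om (Fin n → Bool) (Fin n)) : Prop :=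
  ip e z.1 (emb e z.2)⁻¹ = 1

/-- The bit `b` in the field with two elements. -/
def invBit (b : Bool) : ZMod 2 := if b = true then 1 else 0

/-- The sign attached to an element of the field with two elements. -/
noncomputable def invSgn (a : ZMod 2) : ℝ := if a = 1 then -1 else 1

theorem invBit_xor (a b : Bool) : invBit (xor a b) = invBit a + invBit b := by
  revert a b; decide

theorem invBit_inj {a b : Bool} (h : invBit a = invBit b) : a = b := by
  revert a b; decide

theorem invBit_dec (a : ZMod 2) : invBit (decide (a = 1)) = a := by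
  revert a; decide

theorem inv_cases (a : ZMod 2) : a = 0 ∨ a = 1 := by
  revert a; decide

theorem invSgn_zero : invSgn 0 = 1 := by simp [invSgn]

theorem invSgn_one : invSgn 1 = -1 := by simp [invSgn]

theorem invSgn_add (a b : ZMod 2) : invSgn (a + b) = invSgn a * invSgn b := by
  have h11 : (1 : ZMod 2) + 1 = 0 := by decide
  rcases inv_cases a with rfl | rfl <;> rcases inv_cases b with rfl | rfl <;>
    simp [h11, invSgn_zero, invSgn_one]

theorem invSgn_sum {ι : Type} (s : Finset ι) (f : ι → ZMod 2) :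
    invSgn (∑ i ∈ s, f i) = ∏ i ∈ s, invSgn (f i) := by
  induction s using Finset.induction_on with
  | empty => simp [invSgn_zero]
  | insert a s ha ih => rw [Finset.sum_insert ha, Finset.prod_insert ha, invSgn_add, ih]

theorem inv_emb_eq (e : Module.Basis (Fin n) (ZMod 2) F) (x : Fin n → Bool) :
    emb e x = ∑ i, invBit (x i) • e i := by
  refine Finset.sum_congr rfl (fun i _ => ?_)
  by_cases h : x i = true <;> simp [invBit, h]

theorem inv_repr_emb (e : Module.Basis (Fin n) (ZMod 2) F) (x : Fin n → Bool) (i : Fin n) :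
    e.repr (emb e x) i = invBit (x i) := by
  rw [inv_emb_eq, e.repr_sum_self]

theorem inv_emb_inj (e : Module.Basis (Fin n) (ZMod 2) F) : Function.Injective (emb e) := by
  intro x y h
  funext i
  apply invBit_inj
  rw [← inv_repr_emb e x i, h, inv_repr_emb]

theorem inv_emb_surj (e : Module.Basis (Fin n) (ZMod 2) F) : Function.Surjective (emb e) := by
  intro s
  refine ⟨fun i => decide (e.repr s i = 1), ?_⟩
  rw [inv_emb_eq]
  simp only [invBit_dec]
  exact e.sum_repr s

theorem inv_emb_xor (e : Module.Basis (Fin n) (ZMod 2) F) (x d : Fin n → Bool) :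
    emb e (fun i => xor (x i) (d i)) = emb e x + emb e d := by
  simp only [inv_emb_eq, invBit_xor, add_smul, Finset.sum_add_distrib]

theorem inv_ip_sum (e : Module.Basis (Fin n) (ZMod 2) F) (y : Fin n → Bool) {ι : Type}
    [Fintype ι] (f : ι → F) : ip e y (∑ j, f j) = ∑ j, ip e y (f j) := by
  unfold ip
  rw [Finset.sum_comm]
  refine Finset.sum_congr rfl (fun i _ => ?_)
  by_cases h : y i = true
  · simp [h, map_sum, Finsupp.finsetSum_apply]
  · simp [h]

theorem inv_ip_zero (e : Module.Basis (Fin n) (ZMod 2) F) (y : Fin n → Bool) : ip e y 0 = 0 := by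
  simp [ip]

theorem inv_sum_sgn (e : Module.Basis (Fin n) (ZMod 2) F) (s : F) :
    ∑ y : Fin n → Bool, invSgn (ip e y s) = if s = 0 then 2 ^ n else 0 := by
  have h1 : ∑ y : Fin n → Bool, invSgn (ip e y s) =
      ∏ i : Fin n, ∑ b : Bool, invSgn (if b = true then e.repr s i else 0) := by
    rw [Finset.prod_univ_sum]
    simp only [Fintype.piFinset_univ, ip, invSgn_sum]
  rw [h1]
  by_cases hs : s = 0
  · subst hs
    simp [invSgn_zero]
  · rw [if_neg hs]
    have : ∃ i, e.repr s i ≠ 0 := by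
      by_contra hc
      push Not at hc
      exact hs (e.ext_elem (fun i => by simp [hc i]))
    obtain ⟨i, hi⟩ := this
    refine Finset.prod_eq_zero (Finset.mem_univ i) ?_
    rcases inv_cases (e.repr s i) with h | h
    · exact absurd h hi
    · simp [h, invSgn_zero, invSgn_one]

theorem inv_chi (e : Module.Basis (Fin n) (ZMod 2) F) (z : Om (Fin n → Bool) (Fin n)) :
    (if invF e z then (-1 : ℝ) else 1) = invSgn (ip e z.1 (emb e z.2)⁻¹) := by
  unfold invSgn invF
  congr

theorem inv_sum_pairs (e : Module.Basis (Fin n) (ZMod 2) F) (g : (Fin n → Bool) → F) :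
    ∑ z : Om (Fin n → Bool) (Fin n), invSgn (ip e z.1 (g z.2)) =
      2 ^ n * ((univ.filter (fun x => g x = 0)).card : ℝ) := by
  rw [Fintype.sum_prod_type_right]
  simp only [inv_sum_sgn]
  rw [← Finset.sum_filter, Finset.sum_const, nsmul_eq_mul, mul_comm]

/-- If one of the points `a j` occurs once, the sum of the `(s + a j)⁻¹` has at most twice as many
zeros as there are terms: poles, and roots of the nonzero polynomial
`∑ i, ∏ j ≠ i, (X + a j)` (it does not vanish at `- a i₀`). -/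
theorem card_inv_sum_zero [Fintype F] {ι : Type} [Fintype ι] (a : ι → F) (i₀ : ι)
    (h : ∀ j, j ≠ i₀ → a j ≠ a i₀) :
    (univ.filter (fun s : F => ∑ j, (s + a j)⁻¹ = 0)).card ≤ 2 * Fintype.card ι := by
  set P : Polynomial F :=
    ∑ i, ∏ j ∈ univ.erase i, (Polynomial.X + Polynomial.C (a j)) with hP
  have hev : ∀ s : F, P.eval s = ∑ i, ∏ j ∈ univ.erase i, (s + a j) := by
    intro s
    simp [hP, Polynomial.eval_finsetSum, Polynomial.eval_prod]
  have hP0 : P ≠ 0 := by
    intro h0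
    have h1 := hev (-a i₀)
    rw [h0, Polynomial.eval_zero, Finset.sum_eq_single i₀] at h1
    · refine (Finset.prod_ne_zero_iff.2 (fun j hj => ?_)) h1.symm
      intro h2
      exact h j (Finset.ne_of_mem_erase hj) (by linear_combination h2)
    · intro i _ hi
      exact Finset.prod_eq_zero (Finset.mem_erase.2 ⟨hi.symm, Finset.mem_univ _⟩) (by ring)
    · intro hi
      exact absurd (Finset.mem_univ _) hi
  have hdeg : P.natDegree ≤ Fintype.card ι := by
    refine Polynomial.natDegree_sum_le_of_forall_le _ _ (fun i _ => ?_)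
    refine (Polynomial.natDegree_prod_le _ _).trans ?_
    simp only [Polynomial.natDegree_X_add_C, Finset.sum_const, smul_eq_mul, mul_one]
    exact Finset.card_le_univ _
  have hsub : univ.filter (fun s : F => ∑ j, (s + a j)⁻¹ = 0) ⊆
      univ.image (fun j => -a j) ∪ P.roots.toFinset := by
    intro s hs
    rw [Finset.mem_filter] at hs
    by_cases hp : ∃ j, s + a j = 0
    · obtain ⟨j, hj⟩ := hp
      exact Finset.mem_union_left _
        (Finset.mem_image.2 ⟨j, Finset.mem_univ _, by linear_combination -hj⟩)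
    · push Not at hp
      refine Finset.mem_union_right _ ?_
      rw [Multiset.mem_toFinset, Polynomial.mem_roots hP0, Polynomial.IsRoot, hev]
      have h3 : ∑ i, ∏ j ∈ univ.erase i, (s + a j) = (∏ j, (s + a j)) * ∑ j, (s + a j)⁻¹ := by
        rw [Finset.mul_sum]
        refine Finset.sum_congr rfl (fun i _ => ?_)
        rw [← Finset.mul_prod_erase univ (fun j => s + a j) (Finset.mem_univ i)]
        field_simp [hp i]
      rw [h3, hs.2, mul_zero]
  have h4 : (univ.image (fun j => -a j)).card ≤ Fintype.card ι :=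
    Finset.card_image_le
  have h5 : P.roots.toFinset.card ≤ Fintype.card ι :=
    (Multiset.toFinset_card_le _).trans ((Polynomial.card_roots' P).trans hdeg)
  have h6 := (Finset.card_le_card hsub).trans (Finset.card_union_le _ _)
  omega

/-- `emb` is a bijection that turns `xor` into addition; the sum over `y` of
`(-1) ^ ip e y s` is `2 ^ n` if `s = 0` and `0` otherwise. -/
theorem bias_invF (e : Module.Basis (Fin n) (ZMod 2) F) :
    Bias (fun z => if invF e z then (-1 : ℝ) else 1) := by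
  intro ι _ δ i₀ hδ
  have : Fintype F := Fintype.ofBijective (emb e) ⟨inv_emb_inj e, inv_emb_surj e⟩
  have h1 : ∀ z : Om (Fin n → Bool) (Fin n),
      ∏ i, (if invF e (shift z (δ i)) then (-1 : ℝ) else 1) =
        invSgn (ip e z.1 (∑ i, (emb e z.2 + emb e (δ i))⁻¹)) := by
    intro z
    rw [inv_ip_sum, invSgn_sum]
    refine Finset.prod_congr rfl (fun i _ => ?_)
    rw [inv_chi]
    simp only [shift, inv_emb_xor]
  simp only [h1]
  rw [inv_sum_pairs e (fun x => ∑ i, (emb e x + emb e (δ i))⁻¹)]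
  have h2 := card_inv_sum_zero (fun i => emb e (δ i)) i₀
    (fun j hj hc => hδ j hj (inv_emb_inj e hc))
  have h3 : (univ.filter (fun x : Fin n → Bool => ∑ i, (emb e x + emb e (δ i))⁻¹ = 0)).card ≤
      (univ.filter (fun s : F => ∑ j, (s + emb e (δ j))⁻¹ = 0)).card := by
    refine Finset.card_le_card_of_injOn (emb e) (fun x hx => ?_) (inv_emb_inj e).injOn
    simpa using hx
  have h4 : ((univ.filter
      (fun x : Fin n → Bool => ∑ i, (emb e x + emb e (δ i))⁻¹ = 0)).card : ℝ) ≤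
      2 * Fintype.card ι := by exact_mod_cast h3.trans h2
  have h5 : (Fintype.card (Fin n → Bool) : ℝ) = 2 ^ n := by simp
  rw [h5, mul_comm]
  exact mul_le_mul_of_nonneg_right h4 (by positivity)

theorem disp_invF (e : Module.Basis (Fin n) (ZMod 2) F) : Disp (invF e) :=
  disp_of_bias _ (fun z => if invF e z then (-1 : ℝ) else 1)
    (fun z => by by_cases h : invF e z <;> simp [h]) (fun z h => by simp [h]) (bias_invF e)

/-- For `x ≠ 0` half of the `y` are accepted. -/
theorem dens_invF (e : Module.Basis (Fin n) (ZMod 2) F) (hn : 1 ≤ n) :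
    Fintype.card (Om (Fin n → Bool) (Fin n)) ≤ 4 * (univ.filter (invF e)).card := by
  have h1 := inv_sum_pairs e (fun x => (emb e x)⁻¹)
  have h2 : (univ.filter (fun x : Fin n → Bool => (emb e x)⁻¹ = 0)).card ≤ 1 := by
    refine Finset.card_le_one.2 (fun x hx y hy => inv_emb_inj e ?_)
    rw [Finset.mem_filter, inv_eq_zero] at hx hy
    rw [hx.2, hy.2]
  have h3 : ((univ.filter (fun x : Fin n → Bool => (emb e x)⁻¹ = 0)).card : ℝ) ≤ 1 := by
    exact_mod_cast h2
  have h4 : ∑ z : Om (Fin n → Bool) (Fin n), invSgn (ip e z.1 (emb e z.2)⁻¹) =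
      (Fintype.card (Om (Fin n → Bool) (Fin n)) : ℝ) - 2 * (univ.filter (invF e)).card := by
    have h5 : ∀ z : Om (Fin n → Bool) (Fin n), invSgn (ip e z.1 (emb e z.2)⁻¹) =
        1 - 2 * (if invF e z then (1 : ℝ) else 0) := by
      intro z
      rw [← inv_chi]
      by_cases h : invF e z
      · rw [if_pos h, if_pos h]; norm_num
      · rw [if_neg h, if_neg h]; norm_num
    simp only [h5, Finset.sum_sub_distrib, ← Finset.mul_sum, Finset.sum_boole]
    simp
  have h6 : (Fintype.card (Om (Fin n → Bool) (Fin n)) : ℝ) = 2 ^ n * 2 ^ n := by simp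
  have h7 : (2 : ℝ) ≤ 2 ^ n := by
    calc (2 : ℝ) = 2 ^ 1 := by norm_num
      _ ≤ 2 ^ n := pow_le_pow_right₀ (by norm_num) hn
  have h8 : (Fintype.card (Om (Fin n → Bool) (Fin n)) : ℝ) ≤
      4 * (univ.filter (invF e)).card := by
    rw [h4, h6] at h1
    rw [h6]
    nlinarith [mul_le_mul_of_nonneg_left h3 (by positivity : (0 : ℝ) ≤ 2 ^ n)]
  exact_mod_cast h8

end

/-- The input of the hard function with blocks `x`, `y`, `c`. -/
def inp {n : ℕ} (c : Fin n → Bool) (z : Om (Fin n → Bool) (Fin n)) (v : Fin 3 × Fin n) : Bool :=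
  ![z.2, z.1, c] v.1 v.2

/-- Inputs with the same `y` agree at `v` as soon as they agree at `v` if `v` is an `x` bit. -/
theorem inp_congr {n : ℕ} (c : Fin n → Bool) {z x : Om (Fin n → Bool) (Fin n)} (h : z.1 = x.1)
    (v : Fin 3 × Fin n) (hv : v.1 = 0 → z.2 v.2 = x.2 v.2) : inp c z v = inp c x v := by
  obtain ⟨a, i⟩ := v
  fin_cases a
  · simpa [inp] using hv rfl
  · simp [inp, h]
  · simp [inp]

theorem inv_coeff_poly {n : ℕ} (a : Fin n → Bool) (k : ℕ) :
    (poly a).coeff k = if h : k < n then invBit (a ⟨k, h⟩) else 0 := by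
  unfold poly
  rw [Polynomial.finsetSum_coeff]
  by_cases h : k < n
  · rw [dif_pos h, Finset.sum_eq_single (⟨k, h⟩ : Fin n)]
    · by_cases h2 : a ⟨k, h⟩ = true <;> simp [h2, invBit]
    · intro i _ hi
      have : k ≠ (i : ℕ) := fun hc => hi (Fin.ext hc.symm)
      by_cases h2 : a i = true <;> simp [h2, Polynomial.coeff_X_pow, this]
    · intro hi
      exact absurd (Finset.mem_univ _) hi
  · rw [dif_neg h]
    refine Finset.sum_eq_zero (fun i _ => ?_)
    have : k ≠ (i : ℕ) := fun hc => h (hc ▸ i.2)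
    by_cases h2 : a i = true <;> simp [h2, Polynomial.coeff_X_pow, this]

theorem inv_monic_eq {n : ℕ} (m : Polynomial (ZMod 2)) (hm : m.Monic) (hd : m.natDegree = n) :
    Polynomial.X ^ n + poly (fun i : Fin n => decide (m.coeff i = 1)) = m := by
  ext k
  rw [Polynomial.coeff_add, inv_coeff_poly, Polynomial.coeff_X_pow]
  rcases lt_trichotomy k n with h | h | h
  · rw [dif_pos h, if_neg h.ne, zero_add, invBit_dec]
  · subst h
    rw [dif_neg (lt_irrefl _), if_pos rfl, add_zero, ← hd]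
    exact hm.coeff_natDegree.symm
  · rw [dif_neg (not_lt.2 h.le), if_neg h.ne', add_zero]
    exact (Polynomial.coeff_eq_zero_of_natDegree_lt (hd ▸ h)).symm

theorem inv_hard_iff {n : ℕ} {F : Type} [Field F] [Algebra (ZMod 2) F]
    (e : Module.Basis (Fin n) (ZMod 2) F) (θ : F) (he : ∀ i, e i = θ ^ (i : ℕ))
    (c : Fin n → Bool) (hc : Polynomial.X ^ n + poly c = minpoly (ZMod 2) θ)
    (z : Om (Fin n → Bool) (Fin n)) : Hard n (inp c z) ↔ invF e z := by
  have hev : ∀ a : Fin n → Bool, Polynomial.aeval θ (poly a) = emb e a := by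
    intro a
    unfold poly emb
    rw [map_sum]
    refine Finset.sum_congr rfl (fun i _ => ?_)
    by_cases h : a i = true <;> simp [h, he]
  have hip : ∀ g : Fin n → Bool, ip e z.1 (emb e g) =
      ((univ.filter (fun i => z.1 i = true ∧ g i = true)).card : ZMod 2) := by
    intro g
    unfold ip
    rw [Finset.card_filter]
    push_cast
    refine Finset.sum_congr rfl (fun i _ => ?_)
    rw [inv_repr_emb]
    by_cases h1 : z.1 i = true <;> by_cases h2 : g i = true <;> simp [h1, h2, invBit]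
  have h0 : (fun i => inp c z (0, i)) = z.2 := rfl
  have h1 : ∀ i, inp c z (1, i) = z.1 i := fun _ => rfl
  have h2 : (fun i => inp c z (2, i)) = c := rfl
  unfold Hard invF
  simp only [h0, h1, h2, hc, minpoly.dvd_iff, map_sub, map_mul, map_one, hev, sub_eq_zero,
    ← ZMod.natCast_eq_one_iff_odd]
  constructor
  · rintro ⟨g, hg, hodd⟩
    rw [← eq_inv_of_mul_eq_one_right hg, hip]
    convert hodd
  · intro h
    obtain ⟨g, hg⟩ := inv_emb_surj e (emb e z.2)⁻¹
    have hx : emb e z.2 ≠ 0 := by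
      intro hx
      rw [hx, inv_zero, inv_ip_zero] at h
      exact zero_ne_one h
    refine ⟨g, by rw [hg, mul_inv_cancel₀ hx], ?_⟩
    rw [← hg, hip] at h
    convert h

/-- Take `F = GaloisField 2 n`, the power basis of a primitive element
(`Field.powerBasisOfFiniteOfSeparable`, reindexed to `Fin n`) and for `c` the lower coefficients
of its minimal polynomial; then `Hard n (inp c z) ↔ invF e z`. -/
theorem exists_restriction (n : ℕ) (hn : 1 ≤ n) : ∃ c : Fin n → Bool,
    Disp (fun z => Hard n (inp c z)) ∧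
      Fintype.card (Om (Fin n → Bool) (Fin n)) ≤
        4 * (univ.filter (fun z : Om (Fin n → Bool) (Fin n) => Hard n (inp c z))).card := by
  have : Fact (Nat.Prime 2) := ⟨Nat.prime_two⟩
  let pb : PowerBasis (ZMod 2) (GaloisField 2 n) :=
    Field.powerBasisOfFiniteOfSeparable (ZMod 2) (GaloisField 2 n)
  have hdim : pb.dim = n := by
    rw [← pb.finrank, GaloisField.finrank 2 (by omega)]
  let e : Module.Basis (Fin n) (ZMod 2) (GaloisField 2 n) := pb.basis.reindex (finCongr hdim)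
  have he : ∀ i, e i = pb.gen ^ (i : ℕ) := by
    intro i
    simp [e]
  have hc := inv_monic_eq (minpoly (ZMod 2) pb.gen) (minpoly.monic pb.isIntegral_gen)
    (pb.natDegree_minpoly.trans hdim)
  refine ⟨fun i : Fin n => decide ((minpoly (ZMod 2) pb.gen).coeff i = 1), ?_⟩
  have hf : (fun z => Hard n (inp
      (fun i : Fin n => decide ((minpoly (ZMod 2) pb.gen).coeff i = 1)) z)) = invF e :=
    funext (fun z => propext (inv_hard_iff e pb.gen he _ hc z))
  refine ⟨hf ▸ disp_invF e, ?_⟩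
  refine (dens_invF e hn).trans (Nat.mul_le_mul_left _ (Finset.card_le_card (fun z hz => ?_)))
  rw [Finset.mem_filter] at hz ⊢
  exact ⟨hz.1, (inv_hard_iff e pb.gen he _ hc z).2 hz.2⟩

end Pool.Agent.Work.MP_807b32_lc.TS
end
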