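import Mathlib
import Pool.Agent.Work.MP_807b32_lc.TS.Inv

-- merged part: Pool.Agent.Work.MP_807b32_lc.TS.Rand
section
/-!
Random subsets with independent inclusion probability `p`.
-/

namespace Pool.Agent.Work.MP_807b32_lc.TS

open Finset

variable {ι κ : Type} [Fintype ι] [DecidableEq ι] [Fintype κ] [DecidableEq κ]

/-- The probability of the set `D`. -/
noncomputable def pw (p : ℝ) (D : Finset ι) : ℝ :=
  p ^ D.card * (1 - p) ^ (Fintype.card ι - D.card)

/-- The expectation of `F` at a random set. -/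
noncomputable def Ex (p : ℝ) (F : Finset ι → ℝ) : ℝ := ∑ D : Finset ι, pw p D * F D

omit [DecidableEq ι] in
theorem pw_nonneg {p : ℝ} (h0 : 0 ≤ p) (h1 : p ≤ 1) (D : Finset ι) : 0 ≤ pw p D :=
  mul_nonneg (pow_nonneg h0 _) (pow_nonneg (by linarith) _)

/-- The product formula; from `Finset.prod_add`. -/
theorem Ex_prod (p : ℝ) (φ ψ : ι → ℝ) :
    Ex p (fun D : Finset ι => (∏ i ∈ D, φ i) * ∏ i ∈ Dᶜ, ψ i) =
      ∏ i, (p * φ i + (1 - p) * ψ i) := by
  rw [Finset.prod_add, Finset.powerset_univ]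
  refine Finset.sum_congr rfl (fun D _ => ?_)
  rw [Finset.prod_mul_distrib, Finset.prod_mul_distrib, Finset.prod_const, Finset.prod_const,
    ← Finset.compl_eq_univ_sdiff, Finset.card_compl, pw]
  ring

theorem Ex_const (p c : ℝ) : Ex p (fun _ : Finset ι => c) = c := by
  have h := Ex_prod p (fun _ : ι => 1) (fun _ => 1)
  simp only [Finset.prod_const_one, mul_one, add_sub_cancel, Ex] at h
  simp only [Ex]
  rw [← Finset.sum_mul, h, one_mul]

omit [DecidableEq ι] in
theorem Ex_add (p : ℝ) (F G : Finset ι → ℝ) :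
    Ex p (fun D => F D + G D) = Ex p F + Ex p G := by
  simp [Ex, mul_add, Finset.sum_add_distrib]

omit [DecidableEq ι] in
theorem Ex_sub (p : ℝ) (F G : Finset ι → ℝ) :
    Ex p (fun D => F D - G D) = Ex p F - Ex p G := by
  simp [Ex, mul_sub, Finset.sum_sub_distrib]

omit [DecidableEq ι] in
theorem Ex_mul (p c : ℝ) (F : Finset ι → ℝ) : Ex p (fun D => c * F D) = c * Ex p F := by
  simp only [Ex, Finset.mul_sum]
  exact Finset.sum_congr rfl (fun D _ => by ring)

omit [DecidableEq ι] in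
theorem Ex_div (p c : ℝ) (F : Finset ι → ℝ) : Ex p (fun D => F D / c) = Ex p F / c := by
  simp only [Ex, Finset.sum_div]
  exact Finset.sum_congr rfl (fun D _ => by ring)

omit [DecidableEq ι] in
theorem Ex_sum {β : Type} (p : ℝ) (s : Finset β) (F : β → Finset ι → ℝ) :
    Ex p (fun D => ∑ b ∈ s, F b D) = ∑ b ∈ s, Ex p (F b) := by
  simp only [Ex, Finset.mul_sum]
  exact Finset.sum_comm

omit [DecidableEq ι] in
theorem Ex_mono {p : ℝ} (h0 : 0 ≤ p) (h1 : p ≤ 1) {F G : Finset ι → ℝ} (h : ∀ D, F D ≤ G D) :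
    Ex p F ≤ Ex p G :=
  Finset.sum_le_sum (fun D _ => mul_le_mul_of_nonneg_left (h D) (pw_nonneg h0 h1 D))

omit [DecidableEq ι] [DecidableEq κ] in
theorem Ex_comm (p q : ℝ) (F : Finset ι → Finset κ → ℝ) :
    Ex p (fun D => Ex q (fun E => F D E)) = Ex q (fun E => Ex p (fun D => F D E)) := by
  simp only [Ex, Finset.mul_sum]
  rw [Finset.sum_comm]
  exact Finset.sum_congr rfl (fun _ _ => Finset.sum_congr rfl (fun _ _ => by ring))

theorem Ex_le {p : ℝ} (h0 : 0 ≤ p) (h1 : p ≤ 1) {F : Finset ι → ℝ} {c : ℝ} (h : ∀ D, F D ≤ c) :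
    Ex p F ≤ c := by
  simpa [Ex_const] using Ex_mono h0 h1 (G := fun _ => c) h

theorem exists_Ex_le {p : ℝ} (h0 : 0 ≤ p) (h1 : p ≤ 1) (F : Finset ι → ℝ) :
    ∃ D, Ex p F ≤ F D := by
  obtain ⟨D, -, hD⟩ := Finset.exists_max_image (univ : Finset (Finset ι)) F ⟨∅, mem_univ _⟩
  exact ⟨D, Ex_le h0 h1 (fun E => hD E (mem_univ _))⟩

theorem Ex_subset (p : ℝ) (K : Finset ι) :
    Ex p (fun D : Finset ι => if K ⊆ D then 1 else 0) = p ^ K.card := by
  have h := Ex_prod p (fun _ : ι => 1) (fun i => if i ∈ K then 0 else 1)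
  have h2 : ∏ i, (p * 1 + (1 - p) * if i ∈ K then (0 : ℝ) else 1) = p ^ K.card := by
    rw [← Finset.prod_const, ← Finset.prod_ite_mem_eq K]
    exact Finset.prod_congr rfl (fun i _ => by by_cases hi : i ∈ K <;> simp [hi])
  rw [← h2, ← h]
  congr 1
  funext D
  by_cases hK : K ⊆ D
  · rw [if_pos hK, Finset.prod_const_one, one_mul]
    exact (Finset.prod_eq_one (fun i hi => if_neg (fun h => (mem_compl.1 hi) (hK h)))).symm
  · obtain ⟨i, hi, hiD⟩ := Finset.not_subset.1 hK
    rw [if_neg hK]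
    exact (mul_eq_zero_of_right _ (Finset.prod_eq_zero (mem_compl.2 hiD) (by simp [hi]))).symm

theorem Ex_disjoint (p : ℝ) (K : Finset ι) :
    Ex p (fun D : Finset ι => if Disjoint K D then 1 else 0) = (1 - p) ^ K.card := by
  have h := Ex_prod p (fun i => if i ∈ K then 0 else 1) (fun _ : ι => 1)
  have h2 : ∏ i, (p * (if i ∈ K then (0 : ℝ) else 1) + (1 - p) * 1) = (1 - p) ^ K.card := by
    rw [← Finset.prod_const, ← Finset.prod_ite_mem_eq K]
    exact Finset.prod_congr rfl (fun i _ => by by_cases hi : i ∈ K <;> simp [hi])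
  rw [← h2, ← h]
  congr 1
  funext D
  by_cases hK : Disjoint K D
  · rw [if_pos hK, Finset.prod_const_one, mul_one]
    exact (Finset.prod_eq_one (fun i hi => if_neg (fun h => Finset.disjoint_left.1 hK h hi))).symm
  · obtain ⟨i, hi, hiD⟩ := Finset.not_disjoint_iff.1 hK
    rw [if_neg hK]
    exact (mul_eq_zero_of_left (Finset.prod_eq_zero hiD (by simp [hi])) _).symm

theorem Ex_not_subset {p : ℝ} (h0 : 0 ≤ p) (_h1 : p ≤ 1) (K : Finset ι) :
    Ex p (fun D : Finset ι => if K ⊆ D then 0 else 1) ≤ (1 - p) * K.card := by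
  have h : (fun D : Finset ι => if K ⊆ D then (0 : ℝ) else 1) =
      fun D => 1 - (if K ⊆ D then 1 else 0) := by
    funext D
    by_cases hK : K ⊆ D <;> simp [hK]
  rw [h, Ex_sub, Ex_const, Ex_subset]
  have h3 := one_add_mul_le_pow (a := p - 1) (by linarith) K.card
  rw [show 1 + (p - 1) = p by ring] at h3
  linarith

theorem Ex_mem (p : ℝ) (i : ι) : Ex p (fun D : Finset ι => if i ∈ D then 1 else 0) = p := by
  simpa using Ex_subset p {i}

theorem Ex_sum_mem (p : ℝ) (g : ι → ℝ) :
    Ex p (fun D : Finset ι => ∑ i ∈ D, g i) = p * ∑ i, g i := by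
  have h : (fun D : Finset ι => ∑ i ∈ D, g i) =
      fun D => ∑ i, g i * (if i ∈ D then 1 else 0) := by
    funext D
    simp [Finset.sum_ite_mem]
  rw [h, Ex_sum, Finset.mul_sum]
  refine Finset.sum_congr rfl (fun i _ => ?_)
  rw [Ex_mul, Ex_mem, mul_comm]

theorem Ex_pow_card_sdiff (p t : ℝ) (A : Finset ι) :
    Ex p (fun D : Finset ι => t ^ (D \ A).card) =
      (1 - p + p * t) ^ (Fintype.card ι - A.card) := by
  have h := Ex_prod p (fun i => if i ∈ Aᶜ then t else 1) (fun _ : ι => 1)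
  have h2 : ∏ i, (p * (if i ∈ Aᶜ then t else 1) + (1 - p) * 1) =
      (1 - p + p * t) ^ (Fintype.card ι - A.card) := by
    rw [← Finset.card_compl, ← Finset.prod_const, ← Finset.prod_ite_mem_eq Aᶜ]
    refine Finset.prod_congr rfl (fun i _ => ?_)
    by_cases hi : i ∈ Aᶜ
    · simp only [hi, if_true]; ring
    · simp only [hi, if_false]; ring
  rw [← h2, ← h]
  congr 1
  funext D
  rw [Finset.prod_const_one, mul_one, Finset.prod_ite_mem, Finset.prod_const,
    Finset.sdiff_eq_inter_compl]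

theorem Ex_pow_card (p t : ℝ) :
    Ex p (fun D : Finset ι => t ^ D.card) = (1 - p + p * t) ^ Fintype.card ι := by
  simpa using Ex_pow_card_sdiff p t (∅ : Finset ι)

/-- Upper tail of the size of a random set. -/
theorem Ex_tail {p : ℝ} (h0 : 0 ≤ p) (h1 : p ≤ 1) :
    Ex p (fun D : Finset ι => if 4 * p * Fintype.card ι < (D.card : ℝ) then 1 else 0) ≤
      Real.exp (-(p * Fintype.card ι)) := by
  have hl : (0.69 : ℝ) < Real.log 2 := by have := Real.log_two_gt_d9; linarith only [this]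
  have h2 : ∀ D : Finset ι, (if 4 * p * Fintype.card ι < (D.card : ℝ) then (1 : ℝ) else 0) ≤
      Real.exp (-(4 * p * Fintype.card ι * Real.log 2)) * 2 ^ D.card := by
    intro D
    split_ifs with h
    · have e : (2 : ℝ) ^ D.card = Real.exp (D.card * Real.log 2) := by
        rw [Real.exp_nat_mul, Real.exp_log (by norm_num)]
      rw [e, ← Real.exp_add]
      apply Real.one_le_exp
      nlinarith only [h, hl]
    · positivity
  refine (Ex_mono h0 h1 h2).trans ?_
  rw [Ex_mul, Ex_pow_card]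
  have h3 : (1 - p + p * 2) ^ Fintype.card ι ≤ Real.exp (p * Fintype.card ι) := by
    rw [mul_comm p (Fintype.card ι : ℝ), Real.exp_nat_mul]
    apply pow_le_pow_left₀ (by linarith only [h0])
    have := Real.add_one_le_exp p
    linarith
  refine (mul_le_mul_of_nonneg_left h3 (Real.exp_pos _).le).trans ?_
  rw [← Real.exp_add]
  apply Real.exp_le_exp.2
  have h4 : 0 ≤ p * Fintype.card ι := by positivity
  nlinarith only [h4, hl]

/-- The intersection of independent random sets is a random set. -/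
theorem Ex_inter (p q : ℝ) (F : Finset ι → ℝ) :
    Ex p (fun A => Ex q (fun B => F (A ∩ B))) = Ex (p * q) F := by
  have key : ∀ C : Finset ι,
      Ex p (fun A => Ex q (fun B => if A ∩ B = C then (1 : ℝ) else 0)) = pw (p * q) C := by
    intro C
    have h1 : ∀ A : Finset ι, Ex q (fun B => if A ∩ B = C then (1 : ℝ) else 0) =
        (∏ i ∈ A, (if i ∈ C then q else 1 - q)) * ∏ i ∈ Aᶜ, (if i ∈ C then 0 else 1) := by
      intro A
      have h := Ex_prod q (fun i => if (i ∈ A ↔ i ∈ C) then (1 : ℝ) else 0)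
        (fun i => if i ∈ C then 0 else 1)
      have h2 : ∏ i, (q * (if (i ∈ A ↔ i ∈ C) then (1 : ℝ) else 0) +
          (1 - q) * if i ∈ C then 0 else 1) =
          (∏ i ∈ A, (if i ∈ C then q else 1 - q)) * ∏ i ∈ Aᶜ, (if i ∈ C then 0 else 1) := by
        rw [← Finset.prod_mul_prod_compl A]
        congr 1
        · exact Finset.prod_congr rfl (fun i hi => by by_cases hC : i ∈ C <;> simp [hi, hC])
        · refine Finset.prod_congr rfl (fun i hi => ?_)
          have hi' := mem_compl.1 hi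
          by_cases hC : i ∈ C <;> simp [hi', hC]
      rw [← h2, ← h]
      congr 1
      funext B
      by_cases hB : A ∩ B = C
      · rw [if_pos hB, Finset.prod_eq_one, Finset.prod_eq_one, mul_one]
        · intro i hi
          rw [if_neg]
          rw [← hB]
          exact fun h => (mem_compl.1 hi) (mem_inter.1 h).2
        · intro i hi
          rw [if_pos]
          rw [← hB]
          simp [hi]
      · rw [if_neg hB]
        obtain ⟨i, hi⟩ : ∃ i, ¬ (i ∈ A ∩ B ↔ i ∈ C) := by
          by_contra hc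
          exact hB (Finset.ext (fun i => by_contra (fun h => hc ⟨i, h⟩)))
        by_cases hiB : i ∈ B
        · exact (mul_eq_zero_of_left
            (Finset.prod_eq_zero hiB (if_neg (by simpa [hiB] using hi))) _).symm
        · have hiC : i ∈ C := by simpa [hiB] using hi
          exact (mul_eq_zero_of_right _ (Finset.prod_eq_zero (mem_compl.2 hiB) (by simp [hiC]))).symm
    simp only [h1]
    rw [Ex_prod, ← Finset.prod_mul_prod_compl C, pw, ← Finset.card_compl, ← Finset.prod_const,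
      ← Finset.prod_const]
    congr 1
    · exact Finset.prod_congr rfl (fun i hi => by simp [hi])
    · refine Finset.prod_congr rfl (fun i hi => ?_)
      have hi' := mem_compl.1 hi
      simp only [hi', if_false]
      ring
  have h : (fun A => Ex q (fun B => F (A ∩ B))) =
      fun A => ∑ C : Finset ι, F C * Ex q (fun B => if A ∩ B = C then (1 : ℝ) else 0) := by
    funext A
    simp only [← Ex_mul]
    rw [← Ex_sum]
    congr 1
    funext B
    simp
  rw [h, Ex_sum]
  conv_rhs => rw [Ex]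
  refine Finset.sum_congr rfl (fun C _ => ?_)
  rw [Ex_mul, key, mul_comm]

omit [DecidableEq ι] in
theorem Ex_half (F : Finset ι → ℝ) :
    Ex (1 / 2) F = (∑ D : Finset ι, F D) / 2 ^ Fintype.card ι := by
  rw [Ex, Finset.sum_div]
  refine Finset.sum_congr rfl (fun D _ => ?_)
  rw [pw, show (1 : ℝ) - 1 / 2 = 1 / 2 by norm_num, ← pow_add,
    Nat.add_sub_cancel' (Finset.card_le_univ D), one_div, inv_pow]
  ring

theorem Ex_sdiff_half (p : ℝ) (F : Finset ι → ℝ) :
    Ex p (fun A => Ex (1 / 2) (fun B => F (A \ B))) = Ex (p / 2) F := by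
  have h : ∀ A : Finset ι, Ex (1 / 2) (fun B => F (A \ B)) = Ex (1 / 2) (fun B => F (A ∩ B)) := by
    intro A
    rw [Ex_half, Ex_half]
    congr 1
    refine Fintype.sum_bijective compl compl_bijective _ _ (fun B => ?_)
    rw [Finset.sdiff_eq_inter_compl]
  simp only [h]
  rw [Ex_inter]; congr 1; ring

theorem Ex_inter_half (p : ℝ) (F : Finset ι → ℝ) :
    Ex p (fun A => Ex (1 / 2) (fun B => F (A ∩ B))) = Ex (p / 2) F := by
  rw [Ex_inter]; congr 1; ring

omit [DecidableEq ι] in
/-- Sum of `t ^ |A|` over the large sets `A`. -/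
theorem sum_pow_card_tail {t m : ℝ} (ht : 0 ≤ t) :
    ∑ A ∈ (univ : Finset (Finset ι)).filter (fun A => m < (A.card : ℝ)), t ^ A.card ≤
      Real.exp (2 * t * Fintype.card ι - m * Real.log 2) := by
  have hl : 0 < Real.log 2 := Real.log_pos (by norm_num)
  have h1 : ∑ A ∈ (univ : Finset (Finset ι)).filter (fun A => m < (A.card : ℝ)), t ^ A.card ≤
      ∑ A : Finset ι, Real.exp (-(m * Real.log 2)) * (2 * t) ^ A.card := by
    rw [Finset.sum_filter]
    refine Finset.sum_le_sum (fun A _ => ?_)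
    split_ifs with h
    · have e : (2 : ℝ) ^ A.card = Real.exp (A.card * Real.log 2) := by
        rw [Real.exp_nat_mul, Real.exp_log (by norm_num)]
      rw [mul_pow, ← mul_assoc, e, ← Real.exp_add]
      refine le_mul_of_one_le_left (pow_nonneg ht _) (Real.one_le_exp ?_)
      nlinarith only [hl, h]
    · positivity
  refine h1.trans ?_
  rw [← Finset.mul_sum]
  have h2 : ∑ A : Finset ι, (2 * t) ^ A.card = (2 * t + 1) ^ Fintype.card ι := by
    have := Finset.prod_add_one (s := (univ : Finset ι)) (f := fun _ => 2 * t)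
    simpa [Finset.powerset_univ] using this.symm
  have h3 : (2 * t + 1) ^ Fintype.card ι ≤ Real.exp (2 * t * Fintype.card ι) := by
    rw [mul_comm (2 * t) (Fintype.card ι : ℝ), Real.exp_nat_mul]
    exact pow_le_pow_left₀ (by linarith) (Real.add_one_le_exp _) _
  rw [h2, sub_eq_add_neg, Real.exp_add, mul_comm]
  exact mul_le_mul_of_nonneg_right h3 (Real.exp_pos _).le

end Pool.Agent.Work.MP_807b32_lc.TS
end

-- merged part: Pool.Agent.Work.MP_807b32_lc.TS.Final
section
/-!
The last stage: a set whose fibres over a short foot are rich and whose points depend on few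
further coordinates is small.
-/

namespace Pool.Agent.Work.MP_807b32_lc.TS

open Finset
open scoped Classical

variable {α Γ : Type} [Fintype α] [DecidableEq α] [Fintype Γ]

/-- The count for a fixed long foot `V`. -/
theorem final_fixed (f : Om Γ α → Prop) (hf : Disp f) (G : Finset (Om Γ α)) (A V : Finset α)
    (hAV : Disjoint A V) (P : Om Γ α → Finset α) (t : ℝ) (r : ℕ) (ht : 0 < t)
    (hA : (2 : ℝ) ^ A.card ≤ t ^ 4)
    (hfib : ∀ z ∈ G, t ^ 3 ≤ ((fib G A z).card : ℝ))
    (hyb : ∀ z ∈ G, ∀ x ∈ G, Off (A ∪ V) z x → Disjoint (P z) V → f (mix V z x))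
    (hr1 : 1 ≤ r) (hr : 2 * (r : ℝ) ^ 2 ≤ t) :
    ((G.filter (fun z => Disjoint (P z) V)).card : ℝ) ≤ G.card / t + Fintype.card (Om Γ α) / t ^ r +
      4 * t ^ (6 * r) * ((1 / 2) ^ V.card + 8 * r * (1 / 2) ^ Fintype.card α) *
        Fintype.card (Om Γ α) := by
  set E := G.filter (fun z => Disjoint (P z) V) with hE
  set B1 := E.filter (fun z => ((fib E A z).card : ℝ) < t ^ 2) with hB1
  set B2 := E.filter (fun z => ((fib E V z).card : ℝ) < 1 / t ^ r * 2 ^ V.card) with hB2
  set B3 := E.filter (fun z => t ^ 2 ≤ ((fib E A z).card : ℝ) ∧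
    1 / t ^ r * 2 ^ V.card ≤ ((fib E V z).card : ℝ)) with hB3
  have hsub : E ⊆ B1 ∪ B2 ∪ B3 := by
    intro z hz
    simp only [hB1, hB2, hB3, mem_union, mem_filter]
    by_cases h1 : ((fib E A z).card : ℝ) < t ^ 2
    · exact Or.inl (Or.inl ⟨hz, h1⟩)
    by_cases h2 : ((fib E V z).card : ℝ) < 1 / t ^ r * 2 ^ V.card
    · exact Or.inl (Or.inr ⟨hz, h2⟩)
    · exact Or.inr ⟨hz, not_lt.1 h1, not_lt.1 h2⟩
  have hcard : (E.card : ℝ) ≤ B1.card + B2.card + B3.card := by
    have := (Finset.card_le_card hsub).trans ((Finset.card_union_le _ _).trans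
      (Nat.add_le_add_right (Finset.card_union_le _ _) _))
    exact_mod_cast this
  have hfs : ∀ (B : Finset (Om Γ α)) (C : Finset α) (z : Om Γ α), B ⊆ E →
      ((fib B C z).card : ℝ) ≤ (fib E C z).card := by
    intro B C z hB
    exact_mod_cast Finset.card_le_card
      (fun x hx => mem_fib.2 ⟨hB (mem_fib.1 hx).1, (mem_fib.1 hx).2⟩)
  have h1 : (B1.card : ℝ) ≤ G.card / t := by
    have := card_le_of_fib B1 G A (t ^ 2) (t ^ 3) (by positivity) (fun z hz =>
      ⟨(hfs B1 A z (Finset.filter_subset _ _)).trans (mem_filter.1 hz).2.le,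
        hfib z (mem_filter.1 (mem_filter.1 hz).1).1⟩)
    rw [le_div_iff₀ ht]
    have h2 : (B1.card * t) * t ^ 2 ≤ G.card * t ^ 2 := by nlinarith only [this]
    exact le_of_mul_le_mul_right h2 (by positivity)
  have h2 : (B2.card : ℝ) ≤ Fintype.card (Om Γ α) / t ^ r := by
    have := card_le_of_fib B2 univ V (1 / t ^ r * 2 ^ V.card) (2 ^ V.card) (by positivity)
      (fun z hz => ⟨(hfs B2 V z (Finset.filter_subset _ _)).trans (mem_filter.1 hz).2.le,
        by rw [card_fib_univ]; push_cast; exact le_rfl⟩)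
    rw [Finset.card_univ] at this
    have h2 : (B2.card : ℝ) * 2 ^ V.card ≤ (Fintype.card (Om Γ α) / t ^ r) * 2 ^ V.card := by
      refine this.trans (le_of_eq ?_)
      ring
    exact le_of_mul_le_mul_right h2 (by positivity)
  have h3 : (B3.card : ℝ) ≤ 4 * t ^ (6 * r) *
      ((1 / 2) ^ V.card + 8 * r * (1 / 2) ^ Fintype.card α) * Fintype.card (Om Γ α) := by
    have hdeg : 2 * (r : ℝ) ^ (2 * r) ≤ (t ^ 2) ^ r * (1 / t ^ r) := by
      have e : (t ^ 2) ^ r * (1 / t ^ r) = t ^ r := by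
        rw [← pow_mul, two_mul, pow_add]; field_simp
      rw [e]
      have a1 : (2 * (r : ℝ) ^ 2) ^ r ≤ t ^ r := pow_le_pow_left₀ (by positivity) hr r
      rw [mul_pow, ← pow_mul] at a1
      have a2 : (2 : ℝ) ≤ 2 ^ r := le_self_pow₀ (by norm_num) (by omega)
      exact (mul_le_mul_of_nonneg_right a2 (by positivity)).trans a1
    have hb := hf A V hAV r (t ^ 2) (1 / t ^ r) hr1 (by positivity) (by positivity) hdeg B3 (by
      intro z hz
      refine ⟨fib E A z, fib E V z, fun a ha => (mem_fib.1 ha).2, fun v hv => (mem_fib.1 hv).2,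
        (mem_filter.1 hz).2.1, (mem_filter.1 hz).2.2, fun a ha v hv => ?_⟩
      have ha' := mem_filter.1 (mem_fib.1 ha).1
      have hv' := mem_filter.1 (mem_fib.1 hv).1
      exact hyb a ha'.1 v hv'.1 (((mem_fib.1 ha).2.symm.mono subset_union_left).trans
        ((mem_fib.1 hv).2.mono subset_union_right)) ha'.2)
    have e1 : (1 / t ^ r) ^ 2 * (t ^ 2) ^ (2 * r) = t ^ (2 * r) := by
      rw [← pow_mul, show 2 * (2 * r) = r * 2 + 2 * r by ring, pow_add, pow_mul t r 2]
      field_simp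
    have e2 : (2 : ℝ) ^ (2 * r * A.card) ≤ t ^ (6 * r) * t ^ (2 * r) := by
      rw [← pow_add, show 6 * r + 2 * r = 4 * (2 * r) by ring, pow_mul t 4, mul_comm (2 * r),
        pow_mul]
      exact pow_le_pow_left₀ (by positivity) hA _
    rw [e1] at hb
    set c : ℝ := ((1 / 2) ^ V.card + 8 * r * (1 / 2) ^ Fintype.card α) with hc
    have hc0 : 0 ≤ c := by positivity
    have hN : (0 : ℝ) ≤ Fintype.card (Om Γ α) := Nat.cast_nonneg _
    have h4 : (B3.card : ℝ) * t ^ (2 * r) ≤
        (4 * t ^ (6 * r) * c * Fintype.card (Om Γ α)) * t ^ (2 * r) := by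
      refine hb.trans ?_
      have := mul_le_mul_of_nonneg_right e2 (mul_nonneg hc0 hN)
      nlinarith only [this]
    exact le_of_mul_le_mul_right h4 (by positivity)
  linarith only [hcard, h1, h2, h3]

theorem final (f : Om Γ α → Prop) (hf : Disp f) (G : Finset (Om Γ α)) (A : Finset α)
    (P : Om Γ α → Finset α) (d μ : ℝ) (r : ℕ)
    (hA : (A.card : ℝ) ≤ 4 * μ) (hP : ∀ z ∈ G, ((P z).card : ℝ) ≤ d)
    (hfib : ∀ z ∈ G, (2 : ℝ) ^ (3 * μ) ≤ ((fib G A z).card : ℝ))
    (hyb : ∀ V : Finset α, Disjoint A V → ∀ z ∈ G, ∀ x ∈ G, Off (A ∪ V) z x →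
      Disjoint (P z) V → f (mix V z x))
    (hμ : 3 ≤ μ) (hr1 : 1 ≤ r) (hr : 2 * (r : ℝ) ^ 2 ≤ (2 : ℝ) ^ μ)
    (hn : 128 * r * μ ≤ Fintype.card α) (hd : 128 * r * d ≤ Fintype.card α) :
    (G.card : ℝ) ≤ (2 : ℝ) ^ ((2 - r) * μ) * Fintype.card (Om Γ α) := by
  have hL1 : (0.69 : ℝ) < Real.log 2 := by have := Real.log_two_gt_d9; linarith only [this]
  have hL2 : Real.log 2 < 0.7 := by have := Real.log_two_lt_d9; linarith only [hL1, this]
  set t : ℝ := (2 : ℝ) ^ μ with ht
  have hte : t = Real.exp (Real.log 2 * μ) := Real.rpow_def_of_pos (by norm_num) μ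
  have ht0 : 0 < t := by positivity
  have htk : ∀ k : ℕ, t ^ k = Real.exp (k * (Real.log 2 * μ)) := by
    intro k; rw [hte, Real.exp_nat_mul]
  have h2k : ∀ k : ℕ, (2 : ℝ) ^ k = Real.exp (k * Real.log 2) := by
    intro k; rw [Real.exp_nat_mul, Real.exp_log (by norm_num)]
  have hr1' : (1 : ℝ) ≤ r := by exact_mod_cast hr1
  set n : ℝ := (Fintype.card α : ℝ) with hn'
  set N : ℝ := (Fintype.card (Om Γ α) : ℝ) with hN'
  have hN0 : 0 ≤ N := Nat.cast_nonneg _
  have hμ0 : 0 ≤ μ := by linarith only [hμ, hL1, hL2]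
  have hrμ' : μ ≤ r * μ := le_mul_of_one_le_left hμ0 hr1'
  have hrμ : 3 ≤ r * μ := by linarith only [hμ, hrμ']
  have hn0 : 0 < n := by linarith only [hμ, hL1, hL2, hn, hrμ']
  have hL0 : 0 ≤ Real.log 2 := by linarith only [hL1, hL2]
  have hq1 : 0.69 * (r * μ) ≤ Real.log 2 * (r * μ) :=
    mul_le_mul_of_nonneg_right hL1.le (by linarith only [hμ, hL1, hL2, hrμ'])
  have hq2 : Real.log 2 * (r * μ) ≤ 0.7 * (r * μ) :=
    mul_le_mul_of_nonneg_right hL2.le (by linarith only [hμ, hL1, hL2, hrμ'])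
  have hq3 : Real.log 2 * 3 ≤ Real.log 2 * (r * μ) := mul_le_mul_of_nonneg_left hrμ hL0
  have hq4 : 0.69 * μ ≤ Real.log 2 * μ := mul_le_mul_of_nonneg_right hL1.le hμ0
  have hq5 : (r : ℝ) * 3 ≤ r * μ := mul_le_mul_of_nonneg_left hμ (by linarith only [hL1, hL2, hr1'])
  set p : ℝ := 32 * r * μ / n with hp
  have hpn : p * n = 32 * r * μ := by rw [hp]; field_simp
  have hp0 : 0 ≤ p := by positivity
  have hp4 : p ≤ 1 / 4 := by
    rw [hp, div_le_iff₀ hn0]; linarith only [hn]
  have hp1 : p ≤ 1 := by linarith only [hL1, hL2, hp4]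
  have hA4 : (2 : ℝ) ^ A.card ≤ t ^ 4 := by
    rw [h2k, htk]
    apply Real.exp_le_exp.2
    push_cast
    have := mul_le_mul_of_nonneg_right hA hL0
    linarith only [this]
  have hfib' : ∀ z ∈ G, t ^ 3 ≤ ((fib G A z).card : ℝ) := by
    intro z hz
    have := hfib z hz
    rwa [mul_comm, Real.rpow_mul (by norm_num), show (3 : ℝ) = ((3 : ℕ) : ℝ) by norm_num,
      Real.rpow_natCast] at this
  have hup : Ex p (fun W : Finset α =>
      ((G.filter (fun z => Disjoint (P z) (W \ A))).card : ℝ)) ≤ G.card / t + N / t ^ r +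
      4 * t ^ (6 * r) * ((1 - p + p * (1 / 2)) ^ (Fintype.card α - A.card) +
        8 * r * (1 / 2) ^ Fintype.card α) * N := by
    refine (Ex_mono hp0 hp1 (fun W => final_fixed f hf G A (W \ A) disjoint_sdiff P t r ht0 hA4
      hfib' (hyb _ disjoint_sdiff) hr1 hr)).trans (le_of_eq ?_)
    have e : (fun W : Finset α => (G.card : ℝ) / t + N / t ^ r + 4 * t ^ (6 * r) *
        ((1 / 2) ^ (W \ A).card + 8 * r * (1 / 2) ^ Fintype.card α) * N) =
        fun W => (G.card / t + N / t ^ r + 4 * t ^ (6 * r) * (8 * r * (1 / 2) ^ Fintype.card α) * N)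
          + (4 * t ^ (6 * r) * N) * (1 / 2) ^ (W \ A).card := by
      funext W; ring
    rw [e, Ex_add, Ex_const, Ex_mul, Ex_pow_card_sdiff]
    ring
  have hlow : 2 * (G.card / t) ≤ Ex p (fun W : Finset α =>
      ((G.filter (fun z => Disjoint (P z) (W \ A))).card : ℝ)) := by
    have h1 : ∀ W : Finset α, ∑ z ∈ G, (if Disjoint (P z) W then (1 : ℝ) else 0) ≤
        ((G.filter (fun z => Disjoint (P z) (W \ A))).card : ℝ) := by
      intro W
      rw [Finset.card_filter]
      push_cast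
      refine Finset.sum_le_sum (fun z _ => ?_)
      by_cases h : Disjoint (P z) W
      · rw [if_pos h, if_pos (h.mono_right sdiff_subset)]
      · rw [if_neg h]; positivity
    refine le_trans ?_ (Ex_mono hp0 hp1 h1)
    rw [Ex_sum]
    have h2 : ∀ z ∈ G, 2 / t ≤
        Ex p (fun W : Finset α => if Disjoint (P z) W then (1 : ℝ) else 0) := by
      intro z hz
      rw [Ex_disjoint]
      have a1 : Real.exp (-(4 / 3 * p)) ≤ 1 - p := by
        rw [Real.exp_neg, inv_le_comm₀ (Real.exp_pos _) (by linarith only [hL1, hL2, hp4])]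
        refine le_trans ?_ (Real.add_one_le_exp _)
        rw [inv_le_iff_one_le_mul₀ (by linarith only [hL1, hL2, hp4])]
        have := mul_le_mul_of_nonneg_left hp4 hp0
        linarith only [this]
      refine le_trans ?_ (pow_le_pow_left₀ (Real.exp_pos _).le a1 _)
      rw [← Real.exp_nat_mul, hte, div_le_iff₀ (Real.exp_pos _), ← Real.exp_add]
      have a2 : (2 : ℝ) = Real.exp (Real.log 2) := (Real.exp_log (by norm_num)).symm
      refine a2.le.trans (Real.exp_le_exp.2 ?_)
      have a3 : ((P z).card : ℝ) * p ≤ μ / 4 := by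
        have b1 : ((P z).card : ℝ) * p ≤ d * p := mul_le_mul_of_nonneg_right (hP z hz) hp0
        have b2 : d * p * n ≤ μ / 4 * n := by
          rw [mul_assoc, hpn]
          have := mul_le_mul_of_nonneg_left hd hμ0
          linarith only [this]
        exact b1.trans (le_of_mul_le_mul_right b2 hn0)
      linarith only [hμ, hL1, hL2, hq4, a3]
    have := Finset.card_nsmul_le_sum G _ _ h2
    rw [nsmul_eq_mul] at this
    refine le_trans (le_of_eq ?_) this
    ring
  have hAn : A.card ≤ Fintype.card α := Finset.card_le_univ A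
  have h8 : (1 - p + p * (1 / 2)) ^ (Fintype.card α - A.card) ≤ 1 / t ^ (8 * r) := by
    have a1 : 1 - p + p * (1 / 2) ≤ Real.exp (-(p / 2)) := by
      have := Real.add_one_le_exp (-(p / 2)); linarith only [this]
    refine (pow_le_pow_left₀ (by linarith only [hL1, hL2, hp4]) a1 _).trans ?_
    rw [← Real.exp_nat_mul, htk, one_div, ← Real.exp_neg]
    apply Real.exp_le_exp.2
    push_cast [Nat.cast_sub hAn]
    have a2 : n / 2 ≤ n - A.card := by linarith only [hA, hn, hrμ']
    have a3 : n / 2 * (p / 2) ≤ (n - A.card) * (p / 2) :=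
      mul_le_mul_of_nonneg_right a2 (by positivity)
    linarith only [hμ, hL1, hL2, hrμ', hq2, hpn, a3]
  have h9 : 8 * r * (1 / 2 : ℝ) ^ Fintype.card α ≤ 1 / t ^ (8 * r) := by
    have a1 : (8 : ℝ) * r ≤ Real.exp (8 * r) := by
      have := Real.add_one_le_exp (8 * (r : ℝ)); linarith only [hL1, hL2, this]
    rw [one_div, inv_pow, h2k, ← Real.exp_neg, htk, one_div, ← Real.exp_neg]
    refine (mul_le_mul_of_nonneg_right a1 (Real.exp_pos _).le).trans ?_
    rw [← Real.exp_add]
    apply Real.exp_le_exp.2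
    push_cast
    have := mul_le_mul_of_nonneg_right hn hL0
    linarith only [hL1, hL2, hq1, hq3, hq5, this]
  have h10 : (8 : ℝ) ≤ t ^ r := by
    rw [htk, show (8 : ℝ) = 2 ^ 3 by norm_num, h2k]
    apply Real.exp_le_exp.2
    push_cast
    linarith only [hq3]
  have h11 : 4 * t ^ (6 * r) * ((1 - p + p * (1 / 2)) ^ (Fintype.card α - A.card) +
        8 * r * (1 / 2) ^ Fintype.card α) ≤ 1 / t ^ r := by
    have a1 : 4 * t ^ (6 * r) * (1 / t ^ (8 * r) + 1 / t ^ (8 * r)) = 8 / t ^ r * (1 / t ^ r) := by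
      rw [show 8 * r = 6 * r + r + r by ring, pow_add, pow_add]
      field_simp
      ring
    have a2 : 8 / t ^ r ≤ 1 := by rw [div_le_one (by positivity)]; exact h10
    refine (mul_le_mul_of_nonneg_left (add_le_add h8 h9) (by positivity)).trans ?_
    rw [a1]
    exact mul_le_of_le_one_left (by positivity) a2
  have h12 : (G.card : ℝ) / t ≤ 2 * (N / t ^ r) := by
    have := mul_le_mul_of_nonneg_right h11 hN0
    have e : 1 / t ^ r * N = N / t ^ r := by ring
    linarith only [hup, hlow, this, e]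
  have h13 : (2 : ℝ) ^ ((2 - r) * μ) = t ^ 2 / t ^ r := by
    rw [htk, htk, ← Real.exp_sub, Real.rpow_def_of_pos (by norm_num)]
    congr 1
    push_cast
    ring
  have h14 : (2 : ℝ) ≤ t := by
    rw [hte]
    have a2 : (2 : ℝ) = Real.exp (Real.log 2) := (Real.exp_log (by norm_num)).symm
    exact a2.le.trans (Real.exp_le_exp.2 (by linarith only [hμ, hL1, hL2, hq4]))
  rw [h13]
  rw [div_le_iff₀ ht0] at h12
  have h15 : 0 ≤ N / t ^ r := by positivity
  calc (G.card : ℝ) ≤ 2 * (N / t ^ r) * t := h12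
    _ ≤ t * (N / t ^ r) * t := by gcongr
    _ = t ^ 2 / t ^ r * N := by ring

end Pool.Agent.Work.MP_807b32_lc.TS
end
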