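import Pool.Agent.Work.MP_807b32_lc.TS.Inv
import Pool.Agent.Work.MP_807b32_lc.TS.Final

-- merged part: Pool.Agent.Work.MP_807b32_lc.TS.NDefs
section
/-!
The nondeterministic case: first certificates, classes, entropies, the planted distribution.
-/

namespace Pool.Agent.Work.MP_807b32_lc.TS

open Finset
open scoped Classical

/-- A set `X` of points with `l` certificates of size at most `w` each. -/
structure Setup (Γ α : Type) [DecidableEq α] (l w : ℕ) where
  X : Finset (Om Γ α)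
  A : Fin l → Om Γ α → Finset α
  card_le : ∀ j, ∀ z ∈ X, (A j z).card ≤ w
  same : ∀ j, ∀ z ∈ X, ∀ x ∈ X, On (A j z ∪ A j x) z x → A j z = A j x

namespace Setup

variable {α Γ : Type} [Fintype α] [DecidableEq α] [Fintype Γ] {l w : ℕ} (s : Setup Γ α l w)

/-- The readers of coordinate `i` at the point `z`. -/
noncomputable def rd (z : Om Γ α) (i : α) : Finset (Fin l) := univ.filter (fun j => i ∈ s.A j z)

/-- The coordinates read outside `J`. -/
noncomputable def U (J : Finset (Fin l)) (z : Om Γ α) : Finset α :=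
  univ.filter (fun i => ¬ s.rd z i ⊆ J)

/-- Same certificates outside `J`, same bits on these certificates and outside `D`. -/
def Rel (J : Finset (Fin l)) (D : Finset α) (z x : Om Γ α) : Prop :=
  (∀ j, j ∉ J → s.A j x = s.A j z) ∧ Off (D \ s.U J z) z x

/-- The class of `z`. -/
noncomputable def cl (J : Finset (Fin l)) (D : Finset α) (z : Om Γ α) : Finset (Om Γ α) :=
  s.X.filter (fun x => s.Rel J D z x)

/-- The logarithm of the size of the class. -/
noncomputable def lN (J : Finset (Fin l)) (D : Finset α) (z : Om Γ α) : ℝ :=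
  Real.log (s.cl J D z).card

/-- The mean distance of `z` to a member of its class. -/
noncomputable def md (J : Finset (Fin l)) (D : Finset α) (z : Om Γ α) : ℝ :=
  av (s.cl J D z) (fun x => ((dif z x).card : ℝ))

/-- The fraction of the class that differs from `z` at `i`. -/
noncomputable def beta (J : Finset (Fin l)) (D : Finset α) (z : Om Γ α) (i : α) : ℝ :=
  av (s.cl J D z) (fun x => if z.2 i = x.2 i then 0 else 1)

noncomputable def Phi (q p : ℝ) : ℝ :=
  Ex q (fun J => Ex p (fun D => av s.X (s.lN J D)))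

noncomputable def uu (q p : ℝ) : ℝ :=
  Ex q (fun J => Ex p (fun D => av s.X (s.md J D)))

/-- Expectation under the planted distribution. -/
noncomputable def PE (J : Finset (Fin l)) (D : Finset α) (F : Om Γ α → Finset α → ℝ) : ℝ :=
  av s.X (fun z => Ex (1 / 2) (fun B => av (s.cl J (D \ B) z) (fun x =>
    av (s.cl J (D ∩ B) z) (fun x' => F z (dif x x')))))

/-- The information defect of a random splitting of `D`. -/
noncomputable def II (J : Finset (Fin l)) (D : Finset α) : ℝ :=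
  av s.X (fun z => Ex (1 / 2) (fun B => s.lN J D z - s.lN J (D ∩ B) z - s.lN J (D \ B) z))

/-- The weight of the inner lemma. -/
noncomputable def om (J : Finset (Fin l)) (D : Finset α) (z : Om Γ α) (W : Finset α) : ℝ :=
  ∏ i ∈ W, if i ∈ s.U J z then 1 / 8 else 3 / 4 * (3 / 4 * (1 - s.beta J D z i) + 1 / 8)

variable {s}

omit [Fintype Γ] in
theorem mem_U {J : Finset (Fin l)} {z : Om Γ α} {i : α} : i ∈ s.U J z ↔ ¬ s.rd z i ⊆ J := by
  simp [U]

omit [Fintype Γ] in
theorem mem_U' {J : Finset (Fin l)} {z : Om Γ α} {i : α} :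
    i ∈ s.U J z ↔ ∃ j, j ∉ J ∧ i ∈ s.A j z := by
  simp only [mem_U, Finset.not_subset, rd, mem_filter, mem_univ, true_and]
  exact ⟨fun ⟨j, h1, h2⟩ => ⟨j, h2, h1⟩, fun ⟨j, h1, h2⟩ => ⟨j, h2, h1⟩⟩

omit [Fintype Γ] in
theorem U_congr {J : Finset (Fin l)} {z x : Om Γ α} (h : ∀ j, j ∉ J → s.A j x = s.A j z) :
    s.U J x = s.U J z := by
  ext i
  simp only [mem_U']
  exact ⟨fun ⟨j, h1, h2⟩ => ⟨j, h1, h j h1 ▸ h2⟩, fun ⟨j, h1, h2⟩ => ⟨j, h1, (h j h1).symm ▸ h2⟩⟩

omit [Fintype Γ] in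
theorem mem_cl {J : Finset (Fin l)} {D : Finset α} {z x : Om Γ α} :
    x ∈ s.cl J D z ↔ x ∈ s.X ∧ s.Rel J D z x := by
  simp [cl]

omit [Fintype Γ] in
theorem Rel.refl (J : Finset (Fin l)) (D : Finset α) (z : Om Γ α) : s.Rel J D z z :=
  ⟨fun _ _ => rfl, Off.refl _ _⟩

omit [Fintype Γ] in
theorem Rel.symm {J : Finset (Fin l)} {D : Finset α} {z x : Om Γ α} (h : s.Rel J D z x) :
    s.Rel J D x z :=
  ⟨fun j hj => (h.1 j hj).symm, by rw [U_congr h.1]; exact h.2.symm⟩

omit [Fintype Γ] in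
theorem Rel.trans {J : Finset (Fin l)} {D : Finset α} {z x y : Om Γ α} (h : s.Rel J D z x)
    (h' : s.Rel J D x y) : s.Rel J D z y :=
  ⟨fun j hj => (h'.1 j hj).trans (h.1 j hj), h.2.trans (by rw [← U_congr h.1]; exact h'.2)⟩

omit [Fintype Γ] in
theorem Rel.mono {J : Finset (Fin l)} {D E : Finset α} {z x : Om Γ α} (h : s.Rel J D z x)
    (hDE : D ⊆ E) : s.Rel J E z x :=
  ⟨h.1, h.2.mono (Finset.sdiff_subset_sdiff hDE (subset_refl _))⟩

omit [Fintype Γ] in
theorem cl_congr {J : Finset (Fin l)} {D : Finset α} {z x : Om Γ α} (h : s.Rel J D z x) :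
    s.cl J D z = s.cl J D x := by
  ext y
  simp only [mem_cl]
  exact ⟨fun hy => ⟨hy.1, h.symm.trans hy.2⟩, fun hy => ⟨hy.1, h.trans hy.2⟩⟩

omit [Fintype Γ] in
theorem self_mem_cl (J : Finset (Fin l)) (D : Finset α) {z : Om Γ α} (hz : z ∈ s.X) :
    z ∈ s.cl J D z := mem_cl.2 ⟨hz, Rel.refl J D z⟩

omit [Fintype Γ] in
theorem card_cl_pos (J : Finset (Fin l)) (D : Finset α) {z : Om Γ α} (hz : z ∈ s.X) :
    0 < (s.cl J D z).card := Finset.card_pos.2 ⟨z, self_mem_cl J D hz⟩

omit [Fintype Γ] in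
theorem cl_subset_fib (J : Finset (Fin l)) (D : Finset α) (z : Om Γ α) :
    s.cl J D z ⊆ fib s.X D z := fun _ hx =>
  mem_fib.2 ⟨(mem_cl.1 hx).1, (mem_cl.1 hx).2.2.mono Finset.sdiff_subset⟩

theorem card_cl_le (J : Finset (Fin l)) (D : Finset α) (z : Om Γ α) :
    (s.cl J D z).card ≤ 2 ^ D.card :=
  (Finset.card_le_card (cl_subset_fib J D z)).trans (card_fib_le _ _ _)

omit [Fintype Γ] in
theorem sum_card_rd {z : Om Γ α} (hz : z ∈ s.X) : ∑ i, (s.rd z i).card ≤ l * w := by
  have : ∑ i, (s.rd z i).card = ∑ j, (s.A j z).card := by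
    simp only [rd, Finset.card_filter]
    rw [Finset.sum_comm]
    refine Finset.sum_congr rfl (fun j _ => ?_)
    rw [← Finset.card_filter]
    congr 1
    ext i
    simp
  rw [this]
  calc ∑ j, (s.A j z).card ≤ ∑ _j : Fin l, w := Finset.sum_le_sum (fun j _ => s.card_le j z hz)
    _ = l * w := by simp

end Setup

/-! Averages. -/

theorem av_add {β : Type} (t : Finset β) (F G : β → ℝ) :
    av t (fun x => F x + G x) = av t F + av t G := by
  simp [av, Finset.sum_add_distrib, add_div]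

theorem av_sub {β : Type} (t : Finset β) (F G : β → ℝ) :
    av t (fun x => F x - G x) = av t F - av t G := by
  simp [av, Finset.sum_sub_distrib, sub_div]

theorem av_mul {β : Type} (t : Finset β) (c : ℝ) (F : β → ℝ) :
    av t (fun x => c * F x) = c * av t F := by
  simp [av, ← Finset.mul_sum, mul_div_assoc]

theorem av_const {β : Type} {t : Finset β} (ht : t.Nonempty) (c : ℝ) : av t (fun _ => c) = c := by
  have : (t.card : ℝ) ≠ 0 := by exact_mod_cast ht.card_pos.ne'
  simp [av]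
  field_simp

theorem av_mono {β : Type} {t : Finset β} {F G : β → ℝ} (h : ∀ x ∈ t, F x ≤ G x) :
    av t F ≤ av t G :=
  div_le_div_of_nonneg_right (Finset.sum_le_sum h) (Nat.cast_nonneg _)

theorem av_congr {β : Type} {t : Finset β} {F G : β → ℝ} (h : ∀ x ∈ t, F x = G x) :
    av t F = av t G := by
  unfold av
  rw [Finset.sum_congr rfl h]

theorem av_le {β : Type} {t : Finset β} (ht : t.Nonempty) {F : β → ℝ} {c : ℝ}
    (h : ∀ x ∈ t, F x ≤ c) : av t F ≤ c := by
  simpa [av_const ht] using av_mono (G := fun _ => c) h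

theorem le_av {β : Type} {t : Finset β} (ht : t.Nonempty) {F : β → ℝ} {c : ℝ}
    (h : ∀ x ∈ t, c ≤ F x) : c ≤ av t F := by
  simpa [av_const ht] using av_mono (F := fun _ => c) h

theorem av_sum {β γ : Type} (t : Finset β) (u : Finset γ) (F : γ → β → ℝ) :
    av t (fun x => ∑ c ∈ u, F c x) = ∑ c ∈ u, av t (F c) := by
  simp only [av, Finset.sum_div]
  exact Finset.sum_comm

theorem Ex_av {β ι : Type} [Fintype ι] (p : ℝ) (t : Finset β) (F : Finset ι → β → ℝ) :
    Ex p (fun D => av t (F D)) = av t (fun x => Ex p (fun D => F D x)) := by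
  simp only [av]
  rw [Ex_div, Ex_sum]

end Pool.Agent.Work.MP_807b32_lc.TS
end

-- merged part: Pool.Agent.Work.MP_807b32_lc.TS.Plant
section
/-!
The planted distribution: linearity, support, and the Jensen inequality.

Proof plan of `plant`. Write `N D z` for the size of `cl J D z`. For `z ∈ X`, any `B`,
`x ∈ cl J (D \ B) z`, `x' ∈ cl J (D ∩ B) z`, `W = dif x x'` put
`a = ω z W * 2 ^ |W| * N (D ∩ B) z * N (D \ B) z / N D z > 0`. The difference of the two sides is
the planted average of `log a ≤ a - 1`, so it is enough to show that the planted average of `a`,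
`(1 / (|X| 2 ^ n)) ∑ z, ∑ B, ∑ x, ∑ x', ω z W * 2 ^ |W| / N D z`, is at most one. On the support
`x ∈ X`, `x' ∈ cl J D x`, `z ∈ cl J W x`, `N D z = N D x`, `W ⊆ D`, and for fixed `(x, x', z)` the
set `B ∩ W` is determined (`i ∈ W` lies in `B` iff `z.2 i = x.2 i`), so there are at most
`2 ^ (n - |W|)` sets `B`. Hence the sum is at most
`∑ x ∈ X, ∑ x' ∈ cl J D x, (2 ^ n / N D x) ∑ z ∈ cl J W x, ω z W ≤ |X| 2 ^ n`.
-/

namespace Pool.Agent.Work.MP_807b32_lc.TS.Setup

open Finset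
open scoped Classical

variable {α Γ : Type} [Fintype α] [DecidableEq α] [Fintype Γ] {l w : ℕ} (s : Setup Γ α l w)

omit [Fintype Γ] in
theorem Plant_dif {J : Finset (Fin l)} {D : Finset α} {z x : Om Γ α} (h : s.Rel J D z x) {i : α}
    (hi : z.2 i ≠ x.2 i) : i ∈ D ∧ i ∉ s.U J z :=
  mem_sdiff.1 (by_contra fun hn => hi (h.2.2 i hn))

omit [Fintype Γ] in
theorem Plant_union {J : Finset (Fin l)} {D B : Finset α} {z x x' : Om Γ α}
    (h : s.Rel J (D \ B) z x) (h' : s.Rel J (D ∩ B) z x') : dif x x' = dif z x ∪ dif z x' := by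
  ext i
  simp only [mem_union, mem_dif]
  refine ⟨fun hi => by_contra fun hn => ?_, fun hi hx => ?_⟩
  · simp only [not_or, not_not] at hn
    exact hi (hn.1.symm.trans hn.2)
  · have h1 : z.2 i ≠ x.2 i := hi.elim id fun h2 => hx ▸ h2
    exact (mem_sdiff.1 (s.Plant_dif h h1).1).2 (mem_inter.1 (s.Plant_dif h' (hx ▸ h1)).1).2

omit [Fintype Γ] in
theorem Plant_ne (J : Finset (Fin l)) (D : Finset α) {z : Om Γ α} (hz : z ∈ s.X) :
    (s.cl J D z).Nonempty := ⟨z, self_mem_cl J D hz⟩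

theorem PE_add (J : Finset (Fin l)) (D : Finset α) (F G : Om Γ α → Finset α → ℝ) :
    s.PE J D (fun z W => F z W + G z W) = s.PE J D F + s.PE J D G := by
  simp only [PE, av_add, Ex_add]

theorem PE_sub (J : Finset (Fin l)) (D : Finset α) (F G : Om Γ α → Finset α → ℝ) :
    s.PE J D (fun z W => F z W - G z W) = s.PE J D F - s.PE J D G := by
  simp only [PE, av_sub, Ex_sub]

theorem PE_mul (J : Finset (Fin l)) (D : Finset α) (c : ℝ) (F : Om Γ α → Finset α → ℝ) :
    s.PE J D (fun z W => c * F z W) = c * s.PE J D F := by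
  simp only [PE, av_mul, Ex_mul]

/-- The point `z` is uniform in `X`. -/
theorem PE_fst (J : Finset (Fin l)) (D : Finset α) (g : Om Γ α → ℝ) :
    s.PE J D (fun z _ => g z) = av s.X g := by
  refine av_congr fun z hz => ?_
  simp only [av_const (s.Plant_ne J _ hz), Ex_const]

/-- On the support the set `W` lies in `D` and avoids the coordinates read outside `J`. -/
theorem PE_mono (J : Finset (Fin l)) (D : Finset α) {F G : Om Γ α → Finset α → ℝ}
    (h : ∀ z ∈ s.X, ∀ W, W ⊆ D → Disjoint W (s.U J z) → F z W ≤ G z W) :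
    s.PE J D F ≤ s.PE J D G := by
  refine av_mono fun z hz => Ex_mono (by norm_num) (by norm_num) fun B =>
    av_mono fun x hx => av_mono fun x' hx' => ?_
  have h1 := (mem_cl.1 hx).2
  have h2 := (mem_cl.1 hx').2
  have h3 : ∀ i ∈ dif x x', i ∈ D ∧ i ∉ s.U J z := fun i hi => by
    rw [s.Plant_union h1 h2, mem_union, mem_dif, mem_dif] at hi
    rcases hi with hi | hi
    · exact ⟨(mem_sdiff.1 (s.Plant_dif h1 hi).1).1, (s.Plant_dif h1 hi).2⟩
    · exact ⟨(mem_inter.1 (s.Plant_dif h2 hi).1).1, (s.Plant_dif h2 hi).2⟩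
  exact h z hz _ (fun i hi => (h3 i hi).1) (Finset.disjoint_left.2 fun i hi => (h3 i hi).2)

theorem Ex_PE {ι : Type} [Fintype ι] (p : ℝ) (J : Finset (Fin l)) (D : Finset α)
    (F : Finset ι → Om Γ α → Finset α → ℝ) :
    Ex p (fun E => s.PE J D (F E)) = s.PE J D (fun z W => Ex p (fun E => F E z W)) := by
  unfold PE
  rw [Ex_av]
  refine av_congr fun z _ => ?_
  rw [Ex_comm]
  simp only [Ex_av]

/-- `dif x x'` is the disjoint union of `dif z x` and `dif z x'`; then `Ex_sdiff_half` and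
`Ex_inter_half`. -/
theorem Ex_PE_card (q p : ℝ) :
    Ex q (fun J => Ex p (fun D => s.PE J D (fun _ W => (W.card : ℝ)))) = 2 * s.uu q (p / 2) := by
  have h : ∀ J D, s.PE J D (fun _ W => (W.card : ℝ)) = av s.X (fun z =>
      Ex (1 / 2) (fun B => s.md J (D \ B) z) + Ex (1 / 2) (fun B => s.md J (D ∩ B) z)) := by
    intro J D
    refine av_congr fun z hz => ?_
    rw [← Ex_add]
    congr 1
    funext B
    have h1 : ∀ x ∈ s.cl J (D \ B) z, av (s.cl J (D ∩ B) z) (fun x' => ((dif x x').card : ℝ)) =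
        (dif z x).card + s.md J (D ∩ B) z := fun x hx => by
      rw [md, ← av_const (s.Plant_ne J (D ∩ B) hz) ((dif z x).card : ℝ), ← av_add]
      refine av_congr fun x' hx' => ?_
      have h1 := (mem_cl.1 hx).2
      have h2 := (mem_cl.1 hx').2
      rw [s.Plant_union h1 h2, card_union_of_disjoint, Nat.cast_add]
      exact Finset.disjoint_left.2 fun i hi hi' => (mem_sdiff.1 (s.Plant_dif h1 (mem_dif.1 hi)).1).2
        (mem_inter.1 (s.Plant_dif h2 (mem_dif.1 hi')).1).2
    rw [av_congr h1, av_add, av_const (s.Plant_ne J _ hz)]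
    rfl
  unfold uu
  rw [← Ex_mul]
  congr 1
  funext J
  simp only [h]
  rw [Ex_av, Ex_av, ← av_mul]
  refine av_congr fun z _ => ?_
  rw [Ex_add, Ex_sdiff_half p (fun D => s.md J D z), Ex_inter_half p (fun D => s.md J D z), two_mul]

theorem Ex_II (q p : ℝ) :
    Ex q (fun J => Ex p (fun D => s.II J D)) = s.Phi q p - 2 * s.Phi q (p / 2) := by
  unfold Phi II
  rw [← Ex_mul, ← Ex_sub]
  congr 1
  funext J
  rw [Ex_av, Ex_av, Ex_av, ← av_mul, ← av_sub]
  refine av_congr fun z _ => ?_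
  simp only [Ex_sub, Ex_const]
  rw [Ex_sdiff_half p (fun D => s.lN J D z), Ex_inter_half p (fun D => s.lN J D z)]
  ring

omit [Fintype Γ] in
theorem Plant_count (J : Finset (Fin l)) (D : Finset α) (z x x' : Om Γ α) :
    ((univ.filter fun B => s.Rel J (D \ B) z x ∧ s.Rel J (D ∩ B) z x').card : ℝ) *
      2 ^ (dif x x').card ≤ 2 ^ Fintype.card α := by
  have h : (univ.filter fun B => s.Rel J (D \ B) z x ∧ s.Rel J (D ∩ B) z x').card ≤
      ((dif x x')ᶜ.powerset).card := by
    refine card_le_card_of_injOn (fun B => B \ dif x x') (fun B _ => ?_) ?_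
    · exact mem_coe.2 (mem_powerset.2 fun i hi => mem_compl.2 (mem_sdiff.1 hi).2)
    · have key : ∀ B, s.Rel J (D \ B) z x ∧ s.Rel J (D ∩ B) z x' → ∀ i ∈ dif x x',
          (i ∈ B ↔ z.2 i = x.2 i) := fun B hB i hi =>
        ⟨fun h => by_contra fun hn => (mem_sdiff.1 (s.Plant_dif hB.1 hn).1).2 h,
          fun h => (mem_inter.1 (s.Plant_dif hB.2 (h ▸ mem_dif.1 hi)).1).2⟩
      intro B hB C hC hBC
      ext i
      by_cases hi : i ∈ dif x x'
      · rw [key B (mem_filter.1 (mem_coe.1 hB)).2 i hi, key C (mem_filter.1 (mem_coe.1 hC)).2 i hi]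
      · simpa [hi] using congrArg (i ∈ ·) hBC
  rw [card_powerset, card_compl] at h
  have h2 := Nat.mul_le_mul_right (2 ^ (dif x x').card) h
  rw [← pow_add, Nat.sub_add_cancel (card_le_univ _)] at h2
  exact_mod_cast h2

omit [Fintype Γ] in
theorem Plant_total (J : Finset (Fin l)) (D : Finset α) (ω : Om Γ α → Finset α → ℝ)
    (hpos : ∀ z ∈ s.X, ∀ W, 0 < ω z W)
    (hsum : ∀ x ∈ s.X, ∀ W, W ⊆ D → ∑ z ∈ s.cl J W x, ω z W ≤ 1) :
    ∑ z ∈ s.X, ∑ B : Finset α, ∑ x ∈ s.cl J (D \ B) z, ∑ x' ∈ s.cl J (D ∩ B) z,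
      ω z (dif x x') * 2 ^ (dif x x').card / (s.cl J D z).card ≤
        s.X.card * 2 ^ Fintype.card α := by
  have h1 : ∀ z ∈ s.X, ∑ B : Finset α, ∑ x ∈ s.cl J (D \ B) z, ∑ x' ∈ s.cl J (D ∩ B) z,
      ω z (dif x x') * 2 ^ (dif x x').card / (s.cl J D z).card ≤
      ∑ x ∈ s.X, ∑ x' ∈ s.X, if s.Rel J D x x' then
        (if s.Rel J (dif x x') x z then
          2 ^ Fintype.card α / (s.cl J D x).card * ω z (dif x x') else 0) else 0 := by
    intro z hz
    have e : ∀ B : Finset α, ∑ x ∈ s.cl J (D \ B) z, ∑ x' ∈ s.cl J (D ∩ B) z,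
        ω z (dif x x') * 2 ^ (dif x x').card / (s.cl J D z).card =
        ∑ x ∈ s.X, ∑ x' ∈ s.X, if s.Rel J (D \ B) z x ∧ s.Rel J (D ∩ B) z x' then
          ω z (dif x x') * 2 ^ (dif x x').card / (s.cl J D z).card else 0 := fun B => by
      rw [cl, sum_filter]
      refine sum_congr rfl fun x _ => ?_
      rw [cl, sum_filter]
      by_cases hx : s.Rel J (D \ B) z x <;> simp [hx]
    simp only [e]
    rw [sum_comm]
    refine sum_le_sum fun x _ => ?_
    rw [sum_comm]
    refine sum_le_sum fun x' _ => ?_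
    rw [← sum_filter, sum_const, nsmul_eq_mul]
    have hc := s.Plant_count J D z x x'
    have hp := hpos z hz (dif x x')
    rcases (univ.filter fun B => s.Rel J (D \ B) z x ∧ s.Rel J (D ∩ B) z x').eq_empty_or_nonempty
      with he | ⟨B, hB⟩
    · rw [he, card_empty, Nat.cast_zero, zero_mul]
      split_ifs
      · (clear * - hp; positivity)
      · exact le_rfl
      · exact le_rfl
    · obtain ⟨r1, r2⟩ := (mem_filter.1 hB).2
      have r3 : s.Rel J D z x := r1.mono sdiff_subset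
      have r4 : s.Rel J (dif x x') x z := by
        refine Rel.symm ⟨r1.1, r1.2.1, fun i hi => by_contra fun hn => hi (mem_sdiff.2
          ⟨?_, (s.Plant_dif r1 hn).2⟩)⟩
        rw [s.Plant_union r1 r2]
        exact mem_union_left _ (mem_dif.2 hn)
      rw [if_pos (r3.symm.trans (r2.mono inter_subset_left)), if_pos r4, ← cl_congr r3,
        ← mul_div_assoc, div_mul_eq_mul_div]
      refine div_le_div_of_nonneg_right ?_ (Nat.cast_nonneg _)
      nlinarith only [hc, hp]
  refine (sum_le_sum h1).trans ?_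
  rw [sum_comm, ← nsmul_eq_mul, ← sum_const]
  refine sum_le_sum fun x hx => ?_
  rw [sum_comm]
  have hN : (0 : ℝ) < (s.cl J D x).card := Nat.cast_pos.2 (card_cl_pos J D hx)
  calc _ ≤ ∑ x' ∈ s.X, if s.Rel J D x x' then
        (2 : ℝ) ^ Fintype.card α / (s.cl J D x).card else 0 := by
        refine sum_le_sum fun x' _ => ?_
        split_ifs with h
        · rw [← sum_filter, ← mul_sum]
          exact mul_le_of_le_one_right (by (clear * - hN; positivity))
            (hsum x hx _ fun i hi => (s.Plant_dif h (mem_dif.1 hi)).1)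
        · simp
    _ = _ := by
        rw [← sum_filter, sum_const, nsmul_eq_mul]
        exact mul_div_cancel₀ _ hN.ne'

theorem plant (J : Finset (Fin l)) (D : Finset α) (ω : Om Γ α → Finset α → ℝ)
    (hpos : ∀ z ∈ s.X, ∀ W, 0 < ω z W)
    (hsum : ∀ x ∈ s.X, ∀ W, W ⊆ D → ∑ z ∈ s.cl J W x, ω z W ≤ 1) :
    s.PE J D (fun z W => W.card * Real.log 2 + Real.log (ω z W)) ≤ s.II J D := by
  rcases s.X.eq_empty_or_nonempty with he | hne
  · simp [PE, II, he, av]
  have hX : (0 : ℝ) < s.X.card := Nat.cast_pos.2 hne.card_pos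
  have h1 : ∀ z ∈ s.X, ∀ B : Finset α, av (s.cl J (D \ B) z) (fun x => av (s.cl J (D ∩ B) z)
      (fun x' => (dif x x').card * Real.log 2 + Real.log (ω z (dif x x')))) ≤
      (s.lN J D z - s.lN J (D ∩ B) z - s.lN J (D \ B) z) +
        (∑ x ∈ s.cl J (D \ B) z, ∑ x' ∈ s.cl J (D ∩ B) z,
          ω z (dif x x') * 2 ^ (dif x x').card / (s.cl J D z).card - 1) := by
    intro z hz B
    have n0 : (0 : ℝ) < (s.cl J D z).card := Nat.cast_pos.2 (card_cl_pos J _ hz)
    have n1 : (0 : ℝ) < (s.cl J (D \ B) z).card := Nat.cast_pos.2 (card_cl_pos J _ hz)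
    have n2 : (0 : ℝ) < (s.cl J (D ∩ B) z).card := Nat.cast_pos.2 (card_cl_pos J _ hz)
    refine (av_mono fun x _ => av_mono (G := fun x' =>
      (s.lN J D z - s.lN J (D ∩ B) z - s.lN J (D \ B) z - 1) +
        ((s.cl J (D \ B) z).card * (s.cl J (D ∩ B) z).card) *
          (ω z (dif x x') * 2 ^ (dif x x').card / (s.cl J D z).card)) fun x' _ => ?_).trans
      (le_of_eq ?_)
    · have hp := hpos z hz (dif x x')
      have := Real.log_le_sub_one_of_pos (x := ((s.cl J (D \ B) z).card * (s.cl J (D ∩ B) z).card) *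
        (ω z (dif x x') * 2 ^ (dif x x').card / (s.cl J D z).card)) (by (clear * - n1 n2 hp n0; positivity))
      rw [Real.log_mul (by (clear * - n1 n2; positivity)) (by (clear * - hp n0; positivity)), Real.log_mul n1.ne' n2.ne',
        Real.log_div (by positivity) n0.ne', Real.log_mul hp.ne' (by positivity),
        Real.log_pow] at this
      unfold lN
      linarith only [this]
    · simp only [av_add, av_mul, av_const (s.Plant_ne J _ hz)]
      simp only [av]
      rw [← sum_div]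
      field_simp
      ring
  refine (av_mono fun z hz => Ex_mono (by norm_num) (by norm_num) (h1 z hz)).trans ?_
  simp only [Ex_add, av_add]
  refine add_le_of_nonpos_right ?_
  simp only [Ex_sub, Ex_const, av_sub, av_const hne, Ex_half]
  rw [av, ← sum_div, sub_nonpos, div_div, div_le_one (by positivity), mul_comm]
  exact s.Plant_total J D ω hpos hsum

/-- The choice `ω z W = 1 / |cl J W z|`. -/
theorem plant_defect (J : Finset (Fin l)) (D : Finset α) :
    s.PE J D (fun z W => W.card * Real.log 2 - s.lN J W z) ≤ s.II J D := by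
  have h := s.plant J D (fun z W => ((s.cl J W z).card : ℝ)⁻¹)
    (fun z hz W => inv_pos.2 (Nat.cast_pos.2 (card_cl_pos J W hz))) (fun x hx W _ => by
      rw [sum_congr rfl fun z hz => by rw [← cl_congr (mem_cl.1 hz).2], sum_const, nsmul_eq_mul]
      exact mul_inv_le_one)
  simpa only [Real.log_inv, ← sub_eq_add_neg, lN] using h

omit [Fintype Γ] in
theorem lN_nonneg (J : Finset (Fin l)) (D : Finset α) (z : Om Γ α) : 0 ≤ s.lN J D z :=
  Real.log_natCast_nonneg _

theorem lN_le (J : Finset (Fin l)) (D : Finset α) (z : Om Γ α) :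
    s.lN J D z ≤ D.card * Real.log 2 := by
  rw [← Real.log_pow, lN]
  rcases Nat.eq_zero_or_pos (s.cl J D z).card with h | h
  · rw [h, Nat.cast_zero, Real.log_zero]
    exact Real.log_nonneg (one_le_pow₀ one_le_two)
  · exact Real.log_le_log (Nat.cast_pos.2 h) (by exact_mod_cast card_cl_le J D z)

theorem II_nonneg (J : Finset (Fin l)) (D : Finset α) : 0 ≤ s.II J D := by
  refine le_trans ?_ (s.plant_defect J D)
  have h := s.PE_mono J D (F := fun _ _ => 0) (G := fun z W => W.card * Real.log 2 - s.lN J W z)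
    fun z _ W _ _ => sub_nonneg.2 (s.lN_le J W z)
  rw [s.PE_fst J D fun _ => 0] at h
  simpa [av] using h

theorem Phi_nonneg {q p : ℝ} (hq0 : 0 ≤ q) (hq1 : q ≤ 1) (hp0 : 0 ≤ p) (hp1 : p ≤ 1) :
    0 ≤ s.Phi q p := by
  unfold Phi
  refine sum_nonneg fun J _ => mul_nonneg (pw_nonneg hq0 hq1 J) ?_
  refine sum_nonneg fun D _ => mul_nonneg (pw_nonneg hp0 hp1 D) ?_
  exact div_nonneg (sum_nonneg fun z _ => s.lN_nonneg J D z) (Nat.cast_nonneg _)

theorem Phi_le {q p : ℝ} (hq0 : 0 ≤ q) (hq1 : q ≤ 1) (hp0 : 0 ≤ p) (hp1 : p ≤ 1) :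
    s.Phi q p ≤ p * Fintype.card α := by
  refine Ex_le hq0 hq1 fun J => ?_
  have h := Ex_sum_mem p (fun _ : α => (1 : ℝ))
  simp only [sum_const, nsmul_eq_mul, mul_one, card_univ] at h
  rw [← h]
  refine Ex_mono hp0 hp1 fun D => ?_
  rcases s.X.eq_empty_or_nonempty with he | hne
  · simp [he, av]
  · refine av_le hne fun z _ => (s.lN_le J D z).trans ?_
    exact mul_le_of_le_one_right (Nat.cast_nonneg _) (by linarith only [Real.log_two_lt_d9])

theorem gap_nonneg {q p : ℝ} (hq0 : 0 ≤ q) (hq1 : q ≤ 1) (hp0 : 0 ≤ p) (hp1 : p ≤ 1) :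
    0 ≤ s.Phi q p - 2 * s.Phi q (p / 2) := by
  rw [← Ex_II]
  refine sum_nonneg fun J _ => mul_nonneg (pw_nonneg hq0 hq1 J) ?_
  exact sum_nonneg fun D _ => mul_nonneg (pw_nonneg hp0 hp1 D) (s.II_nonneg J D)

end Pool.Agent.Work.MP_807b32_lc.TS.Setup
end

-- merged part: Pool.Agent.Work.MP_807b32_lc.TS.Inner
section
/-!
The inner lemma: the weights `om` of the points of `X` in a subcube sum to at most one.

Proof plan of `inner`. For `z ∈ fib X W x` let `B z = U J z ∩ W`. If `z, z'` have the same `B` and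
the same bits on it, they agree on `U J z ∪ U J z'`, so by `same` their certificates outside `J`
coincide and `Rel J D z z'` holds; thus they have the same class `C = cl J D z`. With
`m i b = 3 / 4 * (fraction of C with bit b at i) + 1 / 8` we have `m i true + m i false = 1` and
`3 / 4 * (1 - beta J D z i) + 1 / 8 = m i (z.2 i)`. For fixed `B` group the points by
`mix (W \ B) z x ∈ fib univ B x` (`2 ^ |B|` groups); in a group the sum of `∏ i ∈ W \ B, m i (z.2 i)`
is at most one by `sum_fib_prod`. Total: `∑ B ⊆ W, (2 / 8) ^ |B| (3 / 4) ^ |W \ B| = 1`.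
-/

namespace Pool.Agent.Work.MP_807b32_lc.TS.Setup

open Finset
open scoped Classical

variable {α Γ : Type} [Fintype α] [DecidableEq α] [Fintype Γ] {l w : ℕ} (s : Setup Γ α l w)

theorem beta_nonneg (J : Finset (Fin l)) (D : Finset α) (z : Om Γ α) (i : α) :
    0 ≤ s.beta J D z i := by
  exact div_nonneg (sum_nonneg fun x _ => by split_ifs <;> norm_num) (Nat.cast_nonneg _)

theorem beta_le_one (J : Finset (Fin l)) (D : Finset α) (z : Om Γ α) (i : α) :
    s.beta J D z i ≤ 1 := by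
  refine div_le_one_of_le₀ ?_ (Nat.cast_nonneg _)
  rw [card_eq_sum_ones, Nat.cast_sum]
  exact sum_le_sum fun x _ => by split_ifs <;> norm_num

theorem sum_beta (J : Finset (Fin l)) (D : Finset α) (z : Om Γ α) :
    ∑ i, s.beta J D z i = s.md J D z := by
  unfold beta md
  rw [← av_sum]
  refine av_congr fun x _ => ?_
  rw [dif, card_filter, Nat.cast_sum]
  exact sum_congr rfl fun i _ => by by_cases h : z.2 i = x.2 i <;> simp [h]

theorem om_pos (J : Finset (Fin l)) (D : Finset α) (z : Om Γ α) (W : Finset α) :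
    0 < s.om J D z W := by
  refine prod_pos fun i _ => ?_
  have := s.beta_le_one J D z i
  split_ifs <;> linarith only [this]

theorem Inner_group (J : Finset (Fin l)) (D W B : Finset α) (hW : W ⊆ D) (hB : B ⊆ W)
    (x y : Om Γ α) : ∑ z ∈ ((fib s.X W x).filter fun z => s.U J z ∩ W = B).filter
      (fun z => mix (W \ B) z x = y), s.om J D z W ≤ (∏ _i ∈ B, 1 / 8) * ∏ _i ∈ W \ B, 3 / 4 := by
  generalize hG : ((fib s.X W x).filter fun z => s.U J z ∩ W = B).filter
    (fun z => mix (W \ B) z x = y) = G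
  have hm : ∀ z ∈ G, z ∈ s.X ∧ (∀ i ∈ W, i ∈ s.U J z ↔ i ∈ B) ∧ Off (W \ B) z y := by
    intro z hz
    rw [← hG, mem_filter, mem_filter, mem_fib] at hz
    exact ⟨hz.1.1.1, fun i hi => by simp [← hz.1.2, hi], hz.2 ▸ off_mix _ _ _⟩
  rcases G.eq_empty_or_nonempty with rfl | ⟨z₀, h₀⟩
  · rw [sum_empty]
    positivity
  obtain ⟨a1, a2, a3⟩ := hm z₀ h₀
  have hc : ∀ z ∈ G, s.cl J D z = s.cl J D z₀ := fun z hz => by
    obtain ⟨b1, b2, b3⟩ := hm z hz
    have h := b3.trans a3.symm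
    refine cl_congr ⟨fun j hj => (s.same j z b1 z₀ a1 ⟨h.1, fun i hi => h.2 i fun k => ?_⟩).symm,
      h.mono fun i hi => ?_⟩
    · rw [mem_sdiff] at k
      rcases mem_union.1 hi with hi | hi
      exacts [k.2 ((b2 i k.1).1 (mem_U'.2 ⟨j, hj, hi⟩)), k.2 ((a2 i k.1).1 (mem_U'.2 ⟨j, hj, hi⟩))]
    · rw [mem_sdiff] at hi ⊢
      exact ⟨hW hi.1, fun k => hi.2 ((b2 i hi.1).1 k)⟩
  let m : α → Bool → ℝ := fun i b =>
    3 / 4 * (3 / 4 * (1 - av (s.cl J D z₀) fun x => if b = x.2 i then 0 else 1) + 1 / 8)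
  have hm1 : ∀ i, (av (s.cl J D z₀) fun x => if true = x.2 i then 0 else 1) +
      (av (s.cl J D z₀) fun x => if false = x.2 i then 0 else 1) = 1 := fun i => by
    rw [← av_add, ← av_const ⟨_, self_mem_cl J D a1⟩ (1 : ℝ)]
    exact av_congr fun x _ => by rw [av_const ⟨_, self_mem_cl J D a1⟩]; cases x.2 i <;> simp
  have hm0 : ∀ i b, 0 ≤ m i b := fun i b => by
    have : (av (s.cl J D z₀) fun x => if b = x.2 i then 0 else 1) ≤ 1 :=
      av_le ⟨_, self_mem_cl J D a1⟩ fun x _ => by split_ifs <;> norm_num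
    simp only [m]
    linarith only [this]
  calc ∑ z ∈ G, s.om J D z W = ∑ z ∈ G, (∏ _i ∈ B, 1 / 8) * ∏ i ∈ W \ B, m i (z.2 i) := by
        refine sum_congr rfl fun z hz => ?_
        obtain ⟨-, b2, -⟩ := hm z hz
        rw [om, ← prod_sdiff hB, mul_comm]
        refine congrArg₂ _ (prod_congr rfl fun i hi => if_pos ((b2 i (hB hi)).2 hi))
          (prod_congr rfl fun i hi => ?_)
        rw [mem_sdiff] at hi
        rw [if_neg fun k => hi.2 ((b2 i hi.1).1 k), beta, hc z hz]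
    _ ≤ ∑ z ∈ fib univ (W \ B) y, (∏ _i ∈ B, 1 / 8) * ∏ i ∈ W \ B, m i (z.2 i) :=
        sum_le_sum_of_subset_of_nonneg (fun z hz => mem_fib.2 ⟨mem_univ _, (hm z hz).2.2.symm⟩)
          fun z _ _ => mul_nonneg (by positivity) (prod_nonneg fun i _ => hm0 i _)
    _ = _ := by
        rw [← mul_sum, sum_fib_prod]
        refine congrArg _ (prod_congr rfl fun i _ => ?_)
        simp only [m]
        linarith only [hm1 i]

theorem inner (J : Finset (Fin l)) (D W : Finset α) (hW : W ⊆ D) (x : Om Γ α) :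
    ∑ z ∈ fib s.X W x, s.om J D z W ≤ 1 := by
  have h1 : ∑ B ∈ W.powerset, (∏ _i ∈ B, (1 / 4 : ℝ)) * ∏ _i ∈ W \ B, 3 / 4 = 1 := by
    rw [← prod_add]
    norm_num
  rw [← h1, ← sum_fiberwise_of_maps_to (t := W.powerset) (g := fun z => s.U J z ∩ W)
    fun z _ => mem_powerset.2 inter_subset_right]
  refine sum_le_sum fun B hB => ?_
  rw [← sum_fiberwise_of_maps_to (t := fib univ B x) (g := fun z => mix (W \ B) z x) fun z hz => ?_]
  · refine (sum_le_sum fun y _ => s.Inner_group J D W B hW (mem_powerset.1 hB) x y).trans_eq ?_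
    rw [sum_const, card_fib_univ, nsmul_eq_mul, ← mul_assoc, prod_const, prod_const (1 / 4 : ℝ),
      Nat.cast_pow, ← mul_pow]
    norm_num
  · have h := (mem_fib.1 (mem_filter.1 hz).1).2
    refine mem_fib.2 ⟨mem_univ _, h.1, fun i hi => ?_⟩
    by_cases k : i ∈ W
    · simp [mix, k, hi]
    · simp [mix, k, h.2 i k]

/-- Coordinate by coordinate, from `log a ≥ 1 - 1 / a`: `log (1 / 4) ≥ 1 / 5 - 4`, and
`log ((21 - 18 β) / 16) ≥ 1 / 5 - 5 β` for `0 ≤ β ≤ 1`. -/
theorem log_om_ge (J : Finset (Fin l)) (D : Finset α) (z : Om Γ α) (W : Finset α) :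
    (W.card : ℝ) / 5 - 4 * (∑ i ∈ W, if i ∈ s.U J z then (1 : ℝ) else 0) - 5 * s.md J D z ≤
      W.card * Real.log 2 + Real.log (s.om J D z W) := by
  have h1 : ∑ i ∈ W, s.beta J D z i ≤ s.md J D z := by
    rw [← s.sum_beta]
    exact sum_le_sum_of_subset_of_nonneg (subset_univ W) fun i _ _ => s.beta_nonneg J D z i
  have h2 : ∑ i ∈ W, (1 / 5 - 4 * (if i ∈ s.U J z then (1 : ℝ) else 0) - 5 * s.beta J D z i) ≤
      ∑ i ∈ W, (Real.log 2 + Real.log (if i ∈ s.U J z then 1 / 8 else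
        3 / 4 * (3 / 4 * (1 - s.beta J D z i) + 1 / 8))) := by
    refine sum_le_sum fun i _ => ?_
    have b0 := s.beta_nonneg J D z i
    have b1 := s.beta_le_one J D z i
    generalize s.beta J D z i = β at b0 b1
    split_ifs
    · rw [← Real.log_mul (by norm_num) (by norm_num)]
      refine le_trans ?_ (Real.one_sub_inv_le_log_of_pos (by norm_num))
      norm_num
      linarith
    · have hp : 0 < 2 * (3 / 4 * (3 / 4 * (1 - β) + 1 / 8)) := by linarith only [b1]
      rw [← Real.log_mul (by norm_num) (by linarith only [b1])]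
      refine le_trans ?_ (Real.one_sub_inv_le_log_of_pos hp)
      have : (2 * (3 / 4 * (3 / 4 * (1 - β) + 1 / 8)))⁻¹ ≤ 4 / 5 + 5 * β := by
        rw [inv_eq_one_div, div_le_iff₀ hp]
        linarith only [b0, b1, mul_nonneg b0 (sub_nonneg.2 b1)]
      linarith only [this]
  rw [om, Real.log_prod fun i _ => by
    have := s.beta_le_one J D z i
    split_ifs <;> linarith only [this]]
  rw [sum_sub_distrib, sum_sub_distrib, sum_add_distrib, sum_const, sum_const, ← mul_sum,
    ← mul_sum, nsmul_eq_mul, nsmul_eq_mul] at h2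
  linarith only [h1, h2]

end Pool.Agent.Work.MP_807b32_lc.TS.Setup
end

-- merged part: Pool.Agent.Work.MP_807b32_lc.TS.Step
section
/-!
Lower bounds for the mean distance inside the classes: the first level and the step.
-/

namespace Pool.Agent.Work.MP_807b32_lc.TS.Setup

open Finset
open scoped Classical

variable {α Γ : Type} [Fintype α] [DecidableEq α] [Fintype Γ] {l w : ℕ} (s : Setup Γ α l w)

theorem step_mass (J : Finset (Fin l)) (D : Finset α) :
    ∑ z ∈ s.X, 2 ^ D.card * s.om J D z D ≤ Fintype.card (Om Γ α) := by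
  have h := sum_le_sum fun (x : Om Γ α) (_ : x ∈ univ) => s.inner J D D (subset_refl D) x
  rw [sum_const, card_univ, nsmul_eq_mul, mul_one] at h
  refine le_trans (le_of_eq ?_) h
  simp only [fib, sum_filter]
  rw [sum_comm]
  refine sum_congr rfl fun z _ => ?_
  rw [← sum_filter, sum_const, nsmul_eq_mul, ← Nat.cast_ofNat (n := 2), ← Nat.cast_pow,
    ← card_fib_univ D z]
  congr 3
  ext x
  simp only [mem_fib, mem_filter, mem_univ, true_and]
  exact ⟨Off.symm, Off.symm⟩

theorem step_base (hX : s.X.Nonempty) (J : Finset (Fin l)) (D : Finset α) :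
    (D.card : ℝ) / 5 - 4 * av s.X (fun z => ∑ i ∈ D, if s.rd z i ⊆ J then (0 : ℝ) else 1) -
      Real.log (Fintype.card (Om Γ α) / s.X.card) ≤ 5 * av s.X (s.md J D) := by
  have hc : (0 : ℝ) < s.X.card := by exact_mod_cast hX.card_pos
  have hO : (0 : ℝ) < Fintype.card (Om Γ α) :=
    hc.trans_le (by exact_mod_cast card_le_univ s.X)
  have h : av s.X (fun z => (D.card : ℝ) / 5 -
      4 * (∑ i ∈ D, if s.rd z i ⊆ J then (0 : ℝ) else 1) - 5 * s.md J D z -
      Real.log (Fintype.card (Om Γ α) / s.X.card)) ≤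
      av s.X (fun z => s.X.card / Fintype.card (Om Γ α) * (2 ^ D.card * s.om J D z D) - 1) := by
    refine av_mono fun z _ => ?_
    have h1 := s.log_om_ge J D z D
    have h2 := s.om_pos J D z D
    have h3 := Real.log_le_sub_one_of_pos (x := s.X.card / Fintype.card (Om Γ α) *
      (2 ^ D.card * s.om J D z D)) (by (clear * - hX hO h2; positivity))
    rw [Real.log_mul (by positivity) (by positivity), Real.log_mul (by positivity) h2.ne',
      Real.log_pow, ← inv_div, Real.log_inv, inv_div] at h3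
    simp only [mem_U, ite_not] at h1
    linarith only [h3, h1]
  rw [av_sub, av_sub, av_sub, av_sub, av_mul, av_mul, av_mul, av_const hX, av_const hX,
    av_const hX] at h
  have h4 : s.X.card / Fintype.card (Om Γ α) * av s.X (fun z => 2 ^ D.card * s.om J D z D) ≤ 1 := by
    rw [av, div_mul_div_comm, mul_comm (s.X.card : ℝ), mul_div_mul_right _ _ hc.ne', div_le_one hO]
    exact s.step_mass J D
  linarith only [h, h4]

omit [Fintype Γ] in
theorem step_card (p : ℝ) : Ex p (fun D : Finset α => (D.card : ℝ)) = p * Fintype.card α := by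
  simpa using Ex_sum_mem p fun _ : α => (1 : ℝ)

/-- Summing `inner` over all base points gives `2 ^ |D| ∑ z ∈ X, om J D z D ≤ |Ω|`; then
`log a ≤ a - 1` and `log_om_ge`; finally average over `J` (`Ex_not_subset`, `sum_card_rd`) and
`D` (`Ex_sum_mem`). -/
theorem base (hX : s.X.Nonempty) {q p K : ℝ} (hq0 : 0 ≤ q) (hq1 : q ≤ 1) (hp0 : 0 ≤ p)
    (hp1 : p ≤ 1) (hK : (l : ℝ) * w ≤ K * Fintype.card α) :
    p * Fintype.card α / 5 - 4 * (1 - q) * K * (p * Fintype.card α) -
      Real.log (Fintype.card (Om Γ α) / s.X.card) ≤ 5 * s.uu q p := by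
  have h := Ex_mono hq0 hq1 fun J => Ex_mono hp0 hp1 fun D => s.step_base hX J D
  have h1 : Ex q (fun J => Ex p fun D =>
      av s.X (fun z => ∑ i ∈ D, if s.rd z i ⊆ J then (0 : ℝ) else 1)) ≤
      (1 - q) * K * (p * Fintype.card α) := by
    simp only [Ex_av, Ex_sum_mem, Ex_mul, Ex_sum]
    refine av_le hX fun z hz => ?_
    have k1 := sum_le_sum fun (i : α) (_ : i ∈ univ) => Ex_not_subset hq0 hq1 (s.rd z i)
    have k2 : ∑ i, ((s.rd z i).card : ℝ) ≤ l * w := by exact_mod_cast sum_card_rd hz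
    rw [← mul_sum] at k1
    have k3 := mul_le_mul_of_nonneg_left (k2.trans hK) (sub_nonneg.2 hq1)
    have := mul_le_mul_of_nonneg_left (k1.trans k3) hp0
    linarith only [this]
  simp only [Ex_sub, Ex_mul, Ex_div, Ex_const, step_card] at h
  unfold uu
  linarith only [h1, h]

theorem step_one (J : Finset (Fin l)) (D : Finset α) {q' y : ℝ} (hq0' : 0 ≤ q') (hq1' : q' ≤ 1)
    (hy : 0 ≤ y) :
    (1 / 5 - 4 * (1 - q') * y) * s.PE J D (fun _ W => (W.card : ℝ)) -
      4 * av s.X (fun z => ∑ i ∈ D, (if y < (s.rd z i).card then (1 : ℝ) else 0) *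
        if s.rd z i ⊆ J then 1 else 0) - s.II J D ≤
      5 * Ex q' (fun J' => av s.X (s.md (J ∩ J') D)) := by
  have h : ∀ J', s.PE J D (fun z W => (W.card : ℝ) / 5 -
      4 * (∑ i ∈ W, if i ∈ s.U (J ∩ J') z then (1 : ℝ) else 0) - 5 * s.md (J ∩ J') D z) ≤
      s.II J D := fun J' => by
    refine (s.PE_mono J D fun z _ W _ _ => s.log_om_ge (J ∩ J') D z W).trans
      (s.plant J D _ (fun z _ W => s.om_pos _ _ _ _) fun x _ W hW => ?_)
    exact (sum_le_sum_of_subset_of_nonneg (cl_subset_fib J W x)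
      fun z _ _ => (s.om_pos _ _ _ _).le).trans (s.inner _ D W hW x)
  have h1 := Ex_le hq0' hq1' h
  rw [s.Ex_PE] at h1
  have h2 : s.PE J D (fun z W => (1 / 5 - 4 * (1 - q') * y) * (W.card : ℝ) -
      4 * (∑ i ∈ D, (if y < (s.rd z i).card then (1 : ℝ) else 0) *
        if s.rd z i ⊆ J then 1 else 0) - 5 * Ex q' (fun J' => s.md (J ∩ J') D z)) ≤ s.II J D := by
    refine (s.PE_mono J D fun z _ W hW hd => ?_).trans h1
    simp only [Ex_sub, Ex_mul, Ex_const, Ex_sum]
    have k0 : 0 ≤ (1 - q') * y := mul_nonneg (sub_nonneg.2 hq1') hy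
    have k1 : ∀ i ∈ W, Ex q' (fun J' => if i ∈ s.U (J ∩ J') z then (1 : ℝ) else 0) ≤
        (1 - q') * y + (if y < (s.rd z i).card then (1 : ℝ) else 0) *
          if s.rd z i ⊆ J then 1 else 0 := by
      intro i hi
      have hJ : s.rd z i ⊆ J := by simpa [mem_U] using disjoint_left.1 hd hi
      simp only [mem_U, ite_not, subset_inter_iff, hJ, true_and, if_true, mul_one]
      split_ifs with hy'
      · refine (Ex_le hq0' hq1' (c := 1) fun J' => ?_).trans (by linarith)
        split_ifs <;> norm_num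
      · have := Ex_not_subset hq0' hq1' (s.rd z i)
        have := mul_le_mul_of_nonneg_left (not_lt.1 hy') (sub_nonneg.2 hq1')
        linarith
    have k2 := sum_le_sum k1
    rw [sum_add_distrib, sum_const, nsmul_eq_mul] at k2
    have k3 := sum_le_sum_of_subset_of_nonneg hW (f := fun i =>
      (if y < (s.rd z i).card then (1 : ℝ) else 0) * if s.rd z i ⊆ J then 1 else 0)
      fun i _ _ => by (clear * - ; positivity)
    linarith only [k2, k3]
  rw [s.PE_sub, s.PE_sub, s.PE_mul, s.PE_fst, s.PE_fst, av_mul, av_mul] at h2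
  rw [Ex_av]
  linarith only [h2]

/-- `plant` with the weight `om (J ∩ J') D`, averaged over `J'` with parameter `q'`. -/
theorem step (hX : s.X.Nonempty) {q q' p y : ℝ} (hq0 : 0 < q) (hq1 : q ≤ 1) (hq0' : 0 ≤ q')
    (hq1' : q' ≤ 1) (hp0 : 0 ≤ p) (hp1 : p ≤ 1) (hy : 0 ≤ y) :
    (2 / 5 - 8 * (1 - q') * y) * s.uu q (p / 2) - 4 * (p * Fintype.card α) * q ^ y -
      (s.Phi q p - 2 * s.Phi q (p / 2)) ≤ 5 * s.uu (q * q') p := by
  have h := Ex_mono hq0.le hq1 fun J => Ex_mono hp0 hp1 fun D => s.step_one J D hq0' hq1' hy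
  have h1 : Ex q (fun J => Ex p fun D =>
      av s.X (fun z => ∑ i ∈ D, (if y < (s.rd z i).card then (1 : ℝ) else 0) *
        if s.rd z i ⊆ J then 1 else 0)) ≤ p * Fintype.card α * q ^ y := by
    simp only [Ex_av, Ex_sum_mem, Ex_mul, Ex_sum, Ex_subset]
    refine av_le hX fun z _ => ?_
    rw [mul_assoc, ← card_univ, ← nsmul_eq_mul, ← sum_const]
    refine mul_le_mul_of_nonneg_left (sum_le_sum fun i _ => ?_) hp0
    split_ifs with k
    · rw [one_mul, ← Real.rpow_natCast]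
      exact Real.rpow_le_rpow_of_exponent_ge hq0 hq1 k.le
    · rw [zero_mul]
      positivity
  have h2 : Ex q (fun J => Ex p fun D => Ex q' fun J' => av s.X (s.md (J ∩ J') D)) =
      s.uu (q * q') p := by
    rw [uu, ← Ex_inter]
    congr 1
    funext J
    exact Ex_comm _ _ _
  simp only [Ex_sub, Ex_mul, s.Ex_PE_card, s.Ex_II, h2] at h
  linarith only [h1, h]

end Pool.Agent.Work.MP_807b32_lc.TS.Setup
end

-- merged part: Pool.Agent.Work.MP_807b32_lc.TS.Extract
section
/-!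
From a large mean distance and a small information defect to a set with rich fibres.
-/

namespace Pool.Agent.Work.MP_807b32_lc.TS.Setup

open Finset
open scoped Classical

variable {α Γ : Type} [Fintype α] [DecidableEq α] [Fintype Γ] {l w : ℕ} (s : Setup Γ α l w)

/-- The points at which `A` is not read outside `J` and whose class over `A` is rich. -/
noncomputable def rich (J : Finset (Fin l)) (A : Finset α) : Finset (Om Γ α) :=
  s.X.filter (fun z => Disjoint A (s.U J z) ∧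
    (2 : ℝ) ^ (3 * ((A.card : ℝ) / 4)) ≤ ((s.cl J A z).card : ℝ))

omit [Fintype Γ] in
theorem Extract_mem {J : Finset (Fin l)} {A : Finset α} {z : Om Γ α} : z ∈ s.rich J A ↔
    z ∈ s.X ∧ Disjoint A (s.U J z) ∧
      (2 : ℝ) ^ (3 * ((A.card : ℝ) / 4)) ≤ ((s.cl J A z).card : ℝ) := mem_filter

theorem Extract_le (J : Finset (Fin l)) (D : Finset α) (g : Om Γ α → ℝ)
    (h : ∀ z ∈ s.X, ∀ W, W ⊆ D → Disjoint W (s.U J z) →
      Real.log 2 / 4 * W.card - (W.card * Real.log 2 - s.lN J W z) ≤ g z) :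
    Real.log 2 / 4 * s.PE J D (fun _ W => (W.card : ℝ)) - s.II J D ≤ av s.X g := by
  have h1 := s.PE_mono J D (G := fun z _ => g z) h
  rw [PE_fst, PE_sub, PE_mul] at h1
  linarith only [h1, s.plant_defect J D]

theorem Extract_triv (J : Finset (Fin l)) (W : Finset α) (z : Om Γ α) :
    Real.log 2 / 4 * W.card - (W.card * Real.log 2 - s.lN J W z) ≤ Real.log 2 / 4 * W.card ∧
      Real.log 2 / 4 * W.card ≤ Fintype.card α := by
  have h1 : (W.card : ℝ) ≤ Fintype.card α := by exact_mod_cast card_le_univ W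
  have h2 : Real.log 2 / 4 ≤ 1 := by linarith only [Real.log_two_lt_d9]
  exact ⟨by linarith only [s.lN_le J W z], (mul_le_of_le_one_left (Nat.cast_nonneg _) h2).trans h1⟩

theorem Extract_point (J : Finset (Fin l)) (D : Finset α) {m M : ℝ} (hm : 0 ≤ m) {z : Om Γ α}
    (hz : z ∈ s.X) {W : Finset α} (hW : W ⊆ D) (hd : Disjoint W (s.U J z)) :
    Real.log 2 / 4 * W.card - (W.card * Real.log 2 - s.lN J W z) ≤
      Real.log 2 / 4 * m + Fintype.card α * ((if M < (D.card : ℝ) then 1 else 0) +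
        ∑ A ∈ univ.filter (fun A : Finset α => m < (A.card : ℝ) ∧ (A.card : ℝ) ≤ M),
          (if A ⊆ D then 1 else 0) * if z ∈ s.rich J A then 1 else 0) := by
  obtain ⟨h1, h2⟩ := s.Extract_triv J W z
  have hL : 0 < Real.log 2 := Real.log_pos (by norm_num)
  have h3 : 0 ≤ Real.log 2 / 4 * m := by positivity
  have hn : (0 : ℝ) ≤ Fintype.card α := Nat.cast_nonneg _
  have hs : ∀ A ∈ univ.filter (fun A : Finset α => m < (A.card : ℝ) ∧ (A.card : ℝ) ≤ M),
      (0 : ℝ) ≤ (if A ⊆ D then 1 else 0) * if z ∈ s.rich J A then 1 else 0 := fun A _ => by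
    split_ifs <;> norm_num
  have h4 := mul_nonneg hn (sum_nonneg hs)
  rw [mul_add]
  by_cases hD : M < (D.card : ℝ)
  · rw [if_pos hD]
    linarith only [h1, h2, h3, h4]
  rw [if_neg hD, mul_zero, zero_add]
  by_cases hm' : (W.card : ℝ) ≤ m
  · have := mul_le_mul_of_nonneg_left hm' (by positivity : 0 ≤ Real.log 2 / 4)
    linarith only [h1, h4, this]
  by_cases hr : z ∈ s.rich J W
  · have h5 : (W.card : ℝ) ≤ D.card := by exact_mod_cast card_le_card hW
    have h6 := single_le_sum hs (a := W)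
      (mem_filter.2 ⟨mem_univ _, not_le.1 hm', h5.trans (not_lt.1 hD)⟩)
    rw [if_pos hW, if_pos hr, mul_one] at h6
    have h7 := mul_le_mul_of_nonneg_left h6 hn
    linarith only [h1, h2, h3, h7]
  · have h5 : ((s.cl J W z).card : ℝ) ≤ (2 : ℝ) ^ (3 * ((W.card : ℝ) / 4)) :=
      le_of_not_ge fun h => hr (s.Extract_mem.2 ⟨hz, hd, h⟩)
    have h6 : (0 : ℝ) < (s.cl J W z).card := by exact_mod_cast card_cl_pos J W hz
    have h7 := Real.log_le_log h6 h5
    rw [Real.log_rpow (by norm_num)] at h7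
    have h8 : s.lN J W z ≤ 3 * ((W.card : ℝ) / 4) * Real.log 2 := h7
    linarith only [h3, h4, h8]

theorem Extract_J (hX : s.X.Nonempty) (J : Finset (Fin l)) {p t m : ℝ} (hp0 : 0 ≤ p) (hp1 : p ≤ 1)
    (ht : 0 ≤ t) (hm : 0 ≤ m) (h : ∀ A : Finset α, m < (A.card : ℝ) →
      (A.card : ℝ) ≤ 4 * p * Fintype.card α → ((s.rich J A).card : ℝ) ≤ t ^ A.card * s.X.card) :
    Ex p (fun D => Real.log 2 / 4 * s.PE J D (fun _ W => (W.card : ℝ)) - s.II J D) ≤
      Real.log 2 / 4 * m + Fintype.card α * (Real.exp (-(p * Fintype.card α)) +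
        Real.exp (2 * (t * p) * Fintype.card α - m * Real.log 2)) := by
  have hn : (0 : ℝ) ≤ Fintype.card α := Nat.cast_nonneg _
  have hc : (0 : ℝ) < s.X.card := by exact_mod_cast hX.card_pos
  have h1 : ∀ D : Finset α, Real.log 2 / 4 * s.PE J D (fun _ W => (W.card : ℝ)) - s.II J D ≤
      Real.log 2 / 4 * m + Fintype.card α *
        ((if 4 * p * Fintype.card α < (D.card : ℝ) then 1 else 0) +
        ∑ A ∈ univ.filter (fun A : Finset α => m < (A.card : ℝ) ∧
          (A.card : ℝ) ≤ 4 * p * Fintype.card α), t ^ A.card * (if A ⊆ D then 1 else 0)) := by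
    intro D
    refine (s.Extract_le J D _ fun z hz W hW hd =>
      s.Extract_point J D (M := 4 * p * Fintype.card α) hm hz hW hd).trans ?_
    rw [av_add, av_const hX, av_mul, av_add, av_const hX, av_sum]
    gcongr with A hA
    rw [av_mul, mul_comm]
    refine mul_le_mul_of_nonneg_right ?_ (by split_ifs <;> norm_num)
    rw [av, div_le_iff₀ hc, sum_boole]
    refine le_trans ?_ (h A (mem_filter.1 hA).2.1 (mem_filter.1 hA).2.2)
    exact_mod_cast card_le_card fun z hz => (mem_filter.1 hz).2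
  refine (Ex_mono hp0 hp1 h1).trans ?_
  rw [Ex_add, Ex_const, Ex_mul, Ex_add, Ex_sum]
  simp only [Ex_mul, Ex_subset, ← mul_pow]
  gcongr
  · exact Ex_tail hp0 hp1
  · refine le_trans (sum_le_sum_of_subset_of_nonneg (fun A hA => ?_) fun A _ _ => by positivity)
      (sum_pow_card_tail (mul_nonneg ht hp0))
    exact mem_filter.2 ⟨mem_univ _, (mem_filter.1 hA).2.1⟩

theorem extract (hX : s.X.Nonempty) {q p b : ℝ} (hq0 : 0 ≤ q) (hq1 : q ≤ 1) (hp0 : 0 < p)
    (hp1 : p ≤ 1) (hb0 : 0 < b) (hb1 : b ≤ 1)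
    (hu : b * (p / 2 * Fintype.card α) ≤ s.uu q (p / 2))
    (hI : s.Phi q p - 2 * s.Phi q (p / 2) ≤ b * (p * Fintype.card α) / 40)
    (hl : Real.exp (-(q * l)) ≤ b * p / 40)
    (hn : 2 * Real.exp (-(b * p * Fintype.card α / 5)) < b * p / 30) :
    ∃ (J : Finset (Fin l)) (A : Finset α), (J.card : ℝ) ≤ 4 * q * l ∧
      b * p * Fintype.card α / 2 < (A.card : ℝ) ∧ (A.card : ℝ) ≤ 4 * p * Fintype.card α ∧
      (b / 20) ^ A.card * s.X.card < (s.rich J A).card := by
  by_contra hc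
  have hL := Real.log_two_gt_d9
  have hN : (0 : ℝ) ≤ Fintype.card α := Nat.cast_nonneg _
  have hbp : 0 < b * p := mul_pos hb0 hp0
  obtain ⟨x, hx⟩ : ∃ x, x = b * p * Fintype.card α := ⟨_, rfl⟩
  have hx0 : 0 ≤ x := by rw [hx]; (clear * - hb0 hp0; positivity)
  have hx1 : x ≤ p * Fintype.card α := by
    rw [hx, mul_assoc]
    exact mul_le_of_le_one_left (by (clear * - hp0; positivity)) hb1
  have h1 : ∀ J : Finset (Fin l),
      Ex p (fun D => Real.log 2 / 4 * s.PE J D (fun _ W => (W.card : ℝ)) - s.II J D) ≤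
      Real.log 2 / 4 * (x / 2) + Fintype.card α * (2 * Real.exp (-(x / 5))) + Fintype.card α *
        if 4 * q * Fintype.card (Fin l) < (J.card : ℝ) then 1 else 0 := by
    intro J
    split_ifs with hJ
    · have h2 : Ex p (fun D => Real.log 2 / 4 * s.PE J D (fun _ W => (W.card : ℝ)) - s.II J D) ≤
          Fintype.card α := Ex_le hp0.le hp1 fun D =>
        (s.Extract_le J D (fun _ => Fintype.card α) fun z _ W _ _ =>
          (s.Extract_triv J W z).1.trans (s.Extract_triv J W z).2).trans (av_const hX _).le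
      have h3 : 0 ≤ Real.log 2 / 4 * (x / 2) + Fintype.card α * (2 * Real.exp (-(x / 5))) := by
        (clear * - hx0; positivity)
      linarith only [h2, h3]
    · rw [Fintype.card_fin] at hJ
      refine (s.Extract_J hX J (t := b / 20) (m := x / 2) hp0.le hp1 (by positivity)
        (by positivity) fun A h1 h2 => le_of_not_gt fun h3 =>
          hc ⟨J, A, not_lt.1 hJ, hx ▸ h1, h2, h3⟩).trans ?_
      rw [mul_zero, add_zero, two_mul (Real.exp _)]
      gcongr
      · linarith only [hx0, hx1]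
      · have h4 : 2 * (b / 20 * p) * Fintype.card α = x / 10 := by rw [hx]; ring
        have h5 : x * 0.6 ≤ x * Real.log 2 := mul_le_mul_of_nonneg_left (by linarith only [hL]) hx0
        linarith only [hx, h5]
  have h2 := Ex_mono hq0 hq1 h1
  simp only [Ex_sub, Ex_mul, Ex_add, Ex_const, Ex_PE_card, Ex_II] at h2
  have h3 := mul_le_mul_of_nonneg_left ((Ex_tail (ι := Fin l) hq0 hq1).trans
    (c := b * p / 40) (by rw [Fintype.card_fin]; exact hl)) hN
  rw [← hx] at hn
  have h4 : (0 : ℝ) < Fintype.card α := by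
    refine hN.lt_of_ne fun h0 => ?_
    rw [hx, ← h0] at hn
    have := mul_le_one₀ hb1 hp0.le hp1
    norm_num at hn
    linarith only [this, hn]
  have h5 := mul_lt_mul_of_pos_left hn h4
  have h6 : x / 2 ≤ s.uu q (p / 2) := le_trans (by rw [hx]; linarith only []) hu
  have h7 := mul_le_mul_of_nonneg_left h6 (by linarith only [hL] : 0 ≤ Real.log 2)
  have h8 : x * 0.69 ≤ x * Real.log 2 := mul_le_mul_of_nonneg_left (by linarith only [hL]) hx0
  have h9 : b * (p * Fintype.card α) = x := by rw [hx]; ring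
  have h10 : Fintype.card α * (b * p / 40) = x / 40 := by rw [hx]; ring
  have h11 : Fintype.card α * (b * p / 30) = x / 30 := by rw [hx]; ring
  rw [h9] at hI
  rw [h10] at h3
  rw [h11] at h5
  linarith only [hI, hx0, h2, h3, h5, h7, h8]

/-- `final` applied to `rich J A`. -/
theorem rich_small (f : Om Γ α → Prop) (hf : Disp f)
    (hyb : ∀ h : Om Γ α, (∀ j, ∃ z ∈ s.X, On (s.A j z) z h) → f h)
    (J : Finset (Fin l)) (A : Finset α) (r : ℕ) (hA : 12 ≤ A.card) (hr1 : 1 ≤ r)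
    (hr : 2 * (r : ℝ) ^ 2 ≤ (2 : ℝ) ^ ((A.card : ℝ) / 4))
    (hn : 32 * r * A.card ≤ Fintype.card α) (hd : 128 * r * (J.card * w) ≤ Fintype.card α) :
    ((s.rich J A).card : ℝ) ≤
      (2 : ℝ) ^ ((2 - r) * ((A.card : ℝ) / 4)) * Fintype.card (Om Γ α) := by
  have h12 : (12 : ℝ) ≤ A.card := by exact_mod_cast hA
  refine final f hf (s.rich J A) A (fun z => J.biUnion fun j => s.A j z) ((J.card * w : ℕ) : ℝ)
    ((A.card : ℝ) / 4) r (by linarith only []) (fun z hz => ?_) (fun z hz => ?_)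
    (fun V hV z hz x hx ho hP => hyb _ fun j => ?_) (by linarith only [h12]) hr1 hr ?_ (by exact_mod_cast hd)
  · exact_mod_cast card_biUnion_le_card_mul J _ w fun j _ => s.card_le j z (s.Extract_mem.1 hz).1
  · obtain ⟨-, h2, h3⟩ := s.Extract_mem.1 hz
    refine h3.trans (Nat.cast_le.2 (card_le_card fun x hx => ?_))
    obtain ⟨h4, h5⟩ := mem_cl.1 hx
    refine mem_fib.2 ⟨s.Extract_mem.2 ⟨h4, ?_, ?_⟩, h5.2.mono sdiff_subset⟩
    · rwa [U_congr h5.1]
    · rwa [← cl_congr h5]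
  · by_cases hj : j ∈ J
    · exact ⟨z, (s.Extract_mem.1 hz).1, (off_mix V z x).on
        (hP.mono_left (subset_biUnion_of_mem (fun j => s.A j z) hj)).symm⟩
    · obtain ⟨h1, h2, -⟩ := s.Extract_mem.1 hx
      refine ⟨x, h1, ho.1.symm, fun i hi => ?_⟩
      by_cases hiV : i ∈ V
      · simp [mix, hiV]
      · have h3 : i ∉ A := fun h => disjoint_left.1 h2 h (mem_U'.2 ⟨j, hj, hi⟩)
        simp only [mix, hiV, if_false]
        exact (ho.2 i (by simp [h3, hiV])).symm
  · have h1 : (32 : ℝ) * r * A.card ≤ Fintype.card α := by exact_mod_cast hn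
    linarith only [h1]

end Pool.Agent.Work.MP_807b32_lc.TS.Setup
end

-- merged part: Pool.Agent.Work.MP_807b32_lc.TS.Scale
section
/-!
Choice of the scales and of the parameters in the nondeterministic case.
-/

namespace Pool.Agent.Work.MP_807b32_lc.TS

open Finset
open scoped Classical

/-- The exponent at level `t`. -/
noncomputable def tau (K : ℝ) (t : ℕ) : ℝ := 1 / (40 * K) * (((t : ℝ) + 2) / 2) ^ (1 / 200 : ℝ)

theorem tau_pos {K : ℝ} (hK : 1 ≤ K) (t : ℕ) : 0 < tau K t := by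
  have : 0 < K := by linarith
  unfold tau
  positivity

theorem tau_zero (K : ℝ) : tau K 0 = 1 / (40 * K) := by
  simp [tau]

theorem tau_le_succ {K : ℝ} (hK : 1 ≤ K) (t : ℕ) : tau K t ≤ tau K (t + 1) := by
  have : 0 < K := by linarith
  unfold tau
  refine mul_le_mul_of_nonneg_left ?_ (by positivity)
  refine Real.rpow_le_rpow (by positivity) ?_ (by norm_num)
  push_cast
  linarith

/-- From `rpow_one_add_le_one_add_mul_self`. -/
theorem tau_succ_sub {K : ℝ} (hK : 1 ≤ K) (t : ℕ) :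
    tau K (t + 1) - tau K t ≤ tau K t / (200 * (t + 2)) := by
  have hK0 : 0 < K := by linarith
  have ht : (0 : ℝ) < (t : ℝ) + 2 := by positivity
  have h1 : tau K (t + 1) = tau K t * (1 + 1 / ((t : ℝ) + 2)) ^ (1 / 200 : ℝ) := by
    unfold tau
    rw [mul_assoc, ← Real.mul_rpow (by positivity) (by positivity)]
    congr 2
    push_cast
    field_simp
    ring
  have h2 : (1 + 1 / ((t : ℝ) + 2)) ^ (1 / 200 : ℝ) ≤ 1 + (1 / 200 : ℝ) * (1 / ((t : ℝ) + 2)) :=
    rpow_one_add_le_one_add_mul_self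
      (le_trans (by norm_num) (by positivity : (0 : ℝ) ≤ 1 / ((t : ℝ) + 2))) (by norm_num)
      (by norm_num)
  have h3 := mul_le_mul_of_nonneg_left h2 (tau_pos hK t).le
  have h4 : tau K t * (1 + (1 / 200 : ℝ) * (1 / ((t : ℝ) + 2))) =
      tau K t + tau K t / (200 * (t + 2)) := by
    field_simp
  rw [h1]
  linarith only [h3, h4]

/-- Take `S + 2 = 2 N ^ 200`, so that `tau K S = N / (40 K)`, with `N` large. -/
theorem exists_level {K : ℝ} (hK : 1 ≤ K) :
    ∃ S : ℕ, 512 * (40 * ((S : ℝ) + 2)) * K * Real.exp (-tau K S) ≤ 1 := by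
  have hK0 : 0 < K := by linarith
  obtain ⟨F, hF0, hF⟩ : ∃ F : ℝ, 0 < F ∧ ∀ x : ℝ, 0 ≤ x → x ^ (200 + 1) / F ≤ Real.exp x :=
    ⟨((200 + 1).factorial : ℝ), Nat.cast_pos.2 (Nat.factorial_pos _),
      fun x hx => Real.pow_div_factorial_le_exp x hx (200 + 1)⟩
  obtain ⟨N, hN⟩ := exists_nat_ge (40960 * K * F * (40 * K) ^ (200 + 1) + 1)
  have hC : 0 < 40960 * K * F * (40 * K) ^ (200 + 1) := by positivity
  have hN0 : (0 : ℝ) < N := by linarith
  have hN1 : 1 ≤ N ^ 200 := Nat.one_le_pow _ _ (by exact_mod_cast hN0)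
  obtain ⟨M, hM⟩ : ∃ M : ℕ, N ^ 200 = M + 1 := ⟨N ^ 200 - 1, by omega⟩
  have hM' : (N : ℝ) ^ 200 = M + 1 := by exact_mod_cast hM
  refine ⟨2 * M, ?_⟩
  have hS : ((2 * M : ℕ) : ℝ) + 2 = 2 * (N : ℝ) ^ 200 := by
    rw [hM']
    push_cast
    ring
  have htau : tau K (2 * M) = N / (40 * K) := by
    unfold tau
    rw [hS, mul_div_cancel_left₀ _ (by norm_num : (2 : ℝ) ≠ 0)]
    have := Real.pow_rpow_inv_natCast hN0.le (n := 200) (by norm_num)
    rw [show (1 / 200 : ℝ) = ((200 : ℕ) : ℝ)⁻¹ by norm_num, this]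
    ring
  rw [hS, htau, Real.exp_neg, ← div_eq_mul_inv, div_le_one (Real.exp_pos _)]
  refine le_trans ?_ (hF _ (by positivity))
  rw [div_pow, div_div, le_div_iff₀ (by positivity), pow_succ (N : ℝ) 200]
  have hp : (0 : ℝ) < (N : ℝ) ^ 200 := by positivity
  generalize (N : ℝ) ^ 200 = u at hp ⊢
  generalize (40 * K) ^ (200 + 1) = v at hN ⊢
  have := mul_le_mul_of_nonneg_left (show 40960 * K * F * v ≤ N by linarith only [hN]) hp.le
  linarith only [this]

namespace Setup

variable {α Γ : Type} [Fintype α] [DecidableEq α] [Fintype Γ] {l w : ℕ} (s : Setup Γ α l w)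

/-- `Phi q p / p` lies in `[0, n]`, so the normalised gaps telescope along the scales
`2 ^ e * P`; all gaps are nonnegative (`gap_nonneg`). -/
theorem exists_shift (q : ℕ → ℝ) (hq0 : ∀ t, 0 ≤ q t) (hq1 : ∀ t, q t ≤ 1) (S R : ℕ) (hR : 0 < R)
    {P : ℝ} (hP0 : 0 < P) (hP1 : 2 ^ (S + 1 + R) * P ≤ 1) :
    ∃ ρ < R, ∀ t ≤ S, s.Phi (q t) (2 ^ (t + ρ + 1) * P) - 2 * s.Phi (q t) (2 ^ (t + ρ) * P) ≤
      ((S : ℝ) + 1) / R * (2 ^ (t + ρ + 1) * P * Fintype.card α) := by
  have hle : ∀ e, e ≤ S + 1 + R → (2 : ℝ) ^ e * P ≤ 1 := fun e he =>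
    le_trans (mul_le_mul_of_nonneg_right (pow_le_pow_right₀ (by norm_num) he) hP0.le) hP1
  have hpos : ∀ e : ℕ, (0 : ℝ) < 2 ^ e * P := fun e => by positivity
  set g : ℕ → ℕ → ℝ := fun t e => s.Phi (q t) (2 ^ e * P) / (2 ^ e * P) with hg
  have hg0 : ∀ t e, e ≤ S + 1 + R → 0 ≤ g t e := fun t e he =>
    div_nonneg (s.Phi_nonneg (hq0 t) (hq1 t) (hpos e).le (hle e he)) (hpos e).le
  have hg1 : ∀ t e, e ≤ S + 1 + R → g t e ≤ Fintype.card α := fun t e he => by
    rw [hg]
    dsimp only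
    rw [div_le_iff₀ (hpos e), mul_comm (Fintype.card α : ℝ)]
    exact s.Phi_le (hq0 t) (hq1 t) (hpos e).le (hle e he)
  have hgap : ∀ t e, s.Phi (q t) (2 ^ (e + 1) * P) - 2 * s.Phi (q t) (2 ^ e * P) =
      (g t (e + 1) - g t e) * (2 ^ (e + 1) * P) := fun t e => by
    rw [hg]
    dsimp only
    have := hP0.ne'
    field_simp
    ring
  have hd0 : ∀ t e, e + 1 ≤ S + 1 + R → 0 ≤ g t (e + 1) - g t e := fun t e he => by
    have h := s.gap_nonneg (hq0 t) (hq1 t) (hpos (e + 1)).le (hle (e + 1) he)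
    rw [show (2 : ℝ) ^ (e + 1) * P / 2 = 2 ^ e * P by ring, hgap] at h
    exact nonneg_of_mul_nonneg_left h (hpos (e + 1))
  have hR' : (0 : ℝ) < R := by exact_mod_cast hR
  have hsum : ∑ ρ ∈ range R, ∑ t ∈ range (S + 1), (g t (t + ρ + 1) - g t (t + ρ)) ≤
      ∑ _ρ ∈ range R, ((S : ℝ) + 1) / R * Fintype.card α := by
    rw [Finset.sum_comm, Finset.sum_const, Finset.card_range, nsmul_eq_mul]
    have h1 : ∀ t ∈ range (S + 1), ∑ ρ ∈ range R, (g t (t + ρ + 1) - g t (t + ρ)) ≤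
        (Fintype.card α : ℝ) := fun t ht => by
      have ht' := Finset.mem_range.1 ht
      have h2 := Finset.sum_range_sub (fun ρ => g t (t + ρ)) R
      simp only [← add_assoc, add_zero] at h2
      rw [h2]
      have := hg0 t t (by omega)
      have := hg1 t (t + R) (by omega)
      linarith
    refine (Finset.sum_le_sum h1).trans (le_of_eq ?_)
    rw [Finset.sum_const, Finset.card_range, nsmul_eq_mul]
    push_cast
    field_simp
  obtain ⟨ρ, hρ, hρ'⟩ := Finset.exists_le_of_sum_le ⟨0, Finset.mem_range.2 hR⟩ hsum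
  have hρR := Finset.mem_range.1 hρ
  refine ⟨ρ, hρR, fun t ht => ?_⟩
  have h3 : g t (t + ρ + 1) - g t (t + ρ) ≤ ((S : ℝ) + 1) / R * Fintype.card α :=
    le_trans (Finset.single_le_sum (f := fun t => g t (t + ρ + 1) - g t (t + ρ))
      (fun u hu => hd0 u (u + ρ) (by have := Finset.mem_range.1 hu; omega))
      (Finset.mem_range.2 (by omega))) hρ'
  rw [hgap]
  have := mul_le_mul_of_nonneg_right h3 (hpos (t + ρ + 1)).le
  linarith only [this]

/-- Induction on the level with `base` and `step`: at level `t` take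
`q' = exp (-(tau K (t + 1) - tau K t))` and `y = (5 t + 10) / tau K t`. -/
theorem levels (hX : s.X.Nonempty) {K : ℝ} (hK1 : 1 ≤ K)
    (hK : (l : ℝ) * w ≤ K * Fintype.card α) (S R : ℕ) (hR : 40 * (S + 1) * 100 ^ (S + 1) ≤ R)
    {P : ℝ} (hP0 : 0 < P) (hP1 : 2 ^ (S + 1 + R) * P ≤ 1)
    (hΔ : Real.log (Fintype.card (Om Γ α) / s.X.card) ≤ P * Fintype.card α / 20) :
    ∃ p : ℝ, P ≤ p ∧ p ≤ 2 ^ (S + 1 + R) * P ∧
      (1 / 100) ^ (S + 1) * (p / 2 * Fintype.card α) ≤ s.uu (Real.exp (-tau K S)) (p / 2) ∧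
      s.Phi (Real.exp (-tau K S)) p - 2 * s.Phi (Real.exp (-tau K S)) (p / 2) ≤
        (1 / 100) ^ (S + 1) * (p * Fintype.card α) / 40 := by
  have hK0 : 0 < K := by linarith only [hK1]
  have hR0 : 0 < R := lt_of_lt_of_le (by positivity) hR
  have hq0 : ∀ t, 0 < Real.exp (-tau K t) := fun t => Real.exp_pos _
  have hq1 : ∀ t, Real.exp (-tau K t) ≤ 1 := fun t =>
    Real.exp_le_one_iff.2 (by have := tau_pos hK1 t; linarith only [this])
  obtain ⟨ρ, hρ, hgap⟩ := s.exists_shift (fun t => Real.exp (-tau K t)) (fun t => (hq0 t).le) hq1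
    S R hR0 hP0 hP1
  have hle : ∀ e, e ≤ S + 1 + R → (2 : ℝ) ^ e * P ≤ 2 ^ (S + 1 + R) * P := fun e he =>
    mul_le_mul_of_nonneg_right (pow_le_pow_right₀ (by norm_num) he) hP0.le
  have hge : ∀ e : ℕ, P ≤ (2 : ℝ) ^ e * P := fun e =>
    le_mul_of_one_le_left hP0.le (one_le_pow₀ (by norm_num))
  have hn : (0 : ℝ) ≤ Fintype.card α := Nat.cast_nonneg _
  have hc : ((S : ℝ) + 1) / R ≤ (1 / 100) ^ (S + 1) / 40 := by
    have h1 : (40 : ℝ) * (S + 1) * 100 ^ (S + 1) ≤ R := by exact_mod_cast hR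
    have hR' : (0 : ℝ) < R := by exact_mod_cast hR0
    rw [one_div_pow, div_div, div_le_div_iff₀ hR' (by positivity)]
    linarith only [h1]
  have hgap' : ∀ t ≤ S, s.Phi (Real.exp (-tau K t)) (2 ^ (t + ρ + 1) * P) -
      2 * s.Phi (Real.exp (-tau K t)) (2 ^ (t + ρ + 1) * P / 2) ≤
        (1 / 100) ^ (S + 1) * (2 ^ (t + ρ + 1) * P * Fintype.card α) / 40 := fun t ht => by
    rw [show (2 : ℝ) ^ (t + ρ + 1) * P / 2 = 2 ^ (t + ρ) * P by ring]
    refine (hgap t ht).trans ?_
    have := mul_le_mul_of_nonneg_right hc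
      (show (0 : ℝ) ≤ 2 ^ (t + ρ + 1) * P * Fintype.card α by positivity)
    linarith only [this]
  have he5 : Real.exp (-5) ≤ 1 / 100 := by
    rw [Real.exp_neg, one_div]
    refine inv_anti₀ (by norm_num) ?_
    have h1 : (2.7 : ℝ) ^ 5 ≤ Real.exp 1 ^ 5 :=
      pow_le_pow_left₀ (by norm_num) (by have := Real.exp_one_gt_d9; linarith only [this]) 5
    rw [← Real.exp_nat_mul] at h1
    norm_num at h1 ⊢
    linarith only [h1]
  have hind : ∀ t ≤ S, (1 / 100) ^ (t + 1) * (2 ^ (t + ρ + 1) * P / 2 * Fintype.card α) ≤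
      s.uu (Real.exp (-tau K t)) (2 ^ (t + ρ + 1) * P / 2) := by
    intro t
    induction t with
    | zero =>
      intro _
      rw [show (2 : ℝ) ^ (0 + ρ + 1) * P / 2 = 2 ^ ρ * P by ring]
      have hb := s.base hX (hq0 0).le (hq1 0) (le_trans hP0.le (hge ρ))
        ((hle ρ (by omega)).trans hP1) hK
      have h1 : 1 - Real.exp (-tau K 0) ≤ 1 / (40 * K) := by
        have := Real.add_one_le_exp (-tau K 0)
        rw [← tau_zero]
        linarith only [this]
      have h2 : 4 * (1 - Real.exp (-tau K 0)) * K ≤ 1 / 10 := by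
        have := mul_le_mul_of_nonneg_right h1 hK0.le
        rw [show 1 / (40 * K) * K = 1 / 40 by field_simp] at this
        linarith only [this]
      have h3 := mul_le_mul_of_nonneg_right h2
        (show (0 : ℝ) ≤ 2 ^ ρ * P * Fintype.card α by positivity)
      have h4 := mul_le_mul_of_nonneg_right (hge ρ) hn
      linarith only [hΔ, hb, h3, h4]
    | succ t ih =>
      intro ht
      have ih' := ih (by omega)
      have hg := hgap' t (by omega)
      rw [show (2 : ℝ) ^ (t + 1 + ρ + 1) * P / 2 = 2 ^ (t + ρ + 1) * P by ring]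
      have hτ := tau_pos hK1 t
      have hp0 : (0 : ℝ) ≤ 2 ^ (t + ρ + 1) * P := by positivity
      have hy : (0 : ℝ) ≤ (5 * t + 10) / tau K t := by positivity
      have hs := s.step hX (hq0 t) (hq1 t) (Real.exp_pos (-(tau K (t + 1) - tau K t))).le
        (Real.exp_le_one_iff.2 (by have := tau_le_succ hK1 t; linarith only [this])) hp0
        ((hle (t + ρ + 1) (by omega)).trans hP1) hy
      rw [← Real.exp_add, show -tau K t + -(tau K (t + 1) - tau K t) = -tau K (t + 1) by ring,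
        ← Real.exp_mul] at hs
      have h1 : 1 - Real.exp (-(tau K (t + 1) - tau K t)) ≤ tau K t / (200 * (t + 2)) := by
        have := Real.add_one_le_exp (-(tau K (t + 1) - tau K t))
        have := tau_succ_sub hK1 t
        linarith
      have h2 : 1 / 5 ≤ 2 / 5 -
          8 * (1 - Real.exp (-(tau K (t + 1) - tau K t))) * ((5 * t + 10) / tau K t) := by
        have := mul_le_mul_of_nonneg_right h1 hy
        rw [show tau K t / (200 * (t + 2)) * ((5 * t + 10) / tau K t) = 1 / 40 by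
          field_simp; ring] at this
        linarith only [this]
      have h3 : Real.exp (-tau K t * ((5 * t + 10) / tau K t)) ≤ (1 / 100) ^ (t + 1) / 100 := by
        rw [show -tau K t * ((5 * t + 10) / tau K t) = ((t + 2 : ℕ) : ℝ) * (-5) by
          push_cast; field_simp; ring, Real.exp_nat_mul]
        refine (pow_le_pow_left₀ (Real.exp_pos _).le he5 _).trans (le_of_eq ?_)
        ring
      have h4 : (1 / 100 : ℝ) ^ (S + 1) ≤ (1 / 100) ^ (t + 1) / 100 := by
        rw [show (1 / 100 : ℝ) ^ (t + 1) / 100 = (1 / 100) ^ (t + 2) by ring]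
        exact pow_le_pow_of_le_one (by norm_num) (by norm_num) (by omega)
      have hm : (0 : ℝ) ≤ 2 ^ (t + ρ + 1) * P * Fintype.card α := by (clear * - hP0; positivity)
      have hb0 : (0 : ℝ) ≤ (1 / 100) ^ (t + 1) := by positivity
      rw [pow_succ (1 / 100 : ℝ) (t + 1)]
      rw [show (2 : ℝ) ^ (t + ρ + 1) * P / 2 * Fintype.card α =
        2 ^ (t + ρ + 1) * P * Fintype.card α / 2 by ring] at ih'
      generalize (2 : ℝ) ^ (t + ρ + 1) * P * Fintype.card α = m at *
      generalize (1 / 100 : ℝ) ^ (t + 1) = b at *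
      have hbm := mul_nonneg hb0 hm
      have h5 := mul_le_mul h2 ih' (by linarith only [hbm]) (by linarith only [h2])
      have h6 := mul_le_mul_of_nonneg_left h3 hm
      have h7 := mul_le_mul_of_nonneg_right h4 hm
      linarith only [hg, hs, hbm, h5, h6, h7]
  exact ⟨2 ^ (S + ρ + 1) * P, hge _, hle _ (by omega), hind S le_rfl, hgap' S le_rfl⟩

end Setup

theorem scale_eventually {δ : ℝ} (hδ : 0 < δ) (M : ℝ) :
    ∃ n₀ : ℕ, 1 ≤ n₀ ∧ ∀ n : ℕ, n₀ ≤ n → M ≤ δ * n := by
  obtain ⟨N, hN⟩ := exists_nat_ge (M / δ)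
  refine ⟨N + 1, by omega, fun n hn => ?_⟩
  have h1 : (N : ℝ) ≤ n := by exact_mod_cast (by omega : N ≤ n)
  rw [div_le_iff₀ hδ] at hN
  have := mul_le_mul_of_nonneg_left h1 hδ.le
  linarith only [hN, this]

theorem scale_exp_lt {ε x : ℝ} (hε : 0 < ε) (hx : 1 / ε ≤ x) : Real.exp (-x) < ε := by
  rw [Real.exp_neg, inv_lt_comm₀ (Real.exp_pos _) hε, ← one_div]
  have := Real.add_one_le_exp x
  linarith

theorem scale_num (S : ℕ) {a : ℕ} {x : ℝ} (hx : x ≤ a / 10) :
    (2 : ℝ) ^ ((2 - ((40 * (S + 2) : ℕ) : ℝ)) * ((a : ℝ) / 4)) ≤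
      ((1 / 100) ^ (S + 1) / 20) ^ a * Real.exp (-x) := by
  have hl : (0.69 : ℝ) < Real.log 2 := by have := Real.log_two_gt_d9; linarith only [this]
  have ha : (0 : ℝ) ≤ a := Nat.cast_nonneg _
  have hS : (0 : ℝ) ≤ S := Nat.cast_nonneg _
  have h1 : Real.exp (-((7 * (S + 1) + 5 : ℕ) * Real.log 2)) ≤ (1 / 100 : ℝ) ^ (S + 1) / 20 := by
    rw [Real.exp_neg, Real.exp_nat_mul, Real.exp_log (by norm_num), one_div_pow, div_div, one_div,
      pow_add, pow_mul]
    refine inv_anti₀ (by positivity) ?_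
    exact mul_le_mul (pow_le_pow_left₀ (by norm_num) (by norm_num) _) (by norm_num) (by norm_num)
      (by positivity)
  have h2 := pow_le_pow_left₀ (Real.exp_pos _).le h1 a
  refine le_trans ?_ (mul_le_mul_of_nonneg_right h2 (Real.exp_pos _).le)
  rw [← Real.exp_nat_mul, ← Real.exp_add, Real.rpow_def_of_pos (by norm_num)]
  refine Real.exp_le_exp.2 ?_
  push_cast
  have h3 : 0 ≤ a * (Real.log 2 - 0.69) := mul_nonneg ha (by linarith only [hl])
  have h4 : 0 ≤ a * S * Real.log 2 := mul_nonneg (mul_nonneg ha hS) (by linarith only [hl])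
  nlinarith only [hx, h3, h4]

/-- Parameters: `S` from `exists_level`, `r = 40 (S + 2)`, `b = 100 ^ (-(S + 1))`,
`R = 40 (S + 1) 100 ^ (S + 1)`, `P = 1 / (128 r 2 ^ (S + 1 + R))`, `c = b P / 20`, `l` with
`exp (-q l) ≤ b P / 40`, and `n₀` with `2 exp (-b P n / 5) < b P / 30`, `12 ≤ b P n / 2`,
`2 r ^ 2 ≤ 2 ^ (b P n / 8)`. Then `levels`, `extract` and `rich_small` contradict each other if
`|X| > exp (-c n) |Ω|`, since `log (20 / b) + 1 / 10 ≤ (r - 2) log 2 / 4`. -/
theorem nd_core (K : ℕ) (hK : 1 ≤ K) : ∃ (l n₀ : ℕ) (c : ℝ), 1 ≤ l ∧ 0 < c ∧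
    ∀ (α Γ : Type) [Fintype α] [DecidableEq α] [Fintype Γ] (w : ℕ) (s : Setup Γ α l w)
      (f : Om Γ α → Prop), Disp f → (∀ h : Om Γ α, (∀ j, ∃ z ∈ s.X, On (s.A j z) z h) → f h) →
      l * w ≤ K * Fintype.card α → n₀ ≤ Fintype.card α →
      (s.X.card : ℝ) ≤ Real.exp (-(c * Fintype.card α)) * Fintype.card (Om Γ α) := by
  have hK1 : (1 : ℝ) ≤ K := by exact_mod_cast hK
  obtain ⟨S, hS⟩ := exists_level hK1
  obtain ⟨R, hR⟩ : ∃ R : ℕ, 40 * (S + 1) * 100 ^ (S + 1) ≤ R := ⟨_, le_rfl⟩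
  obtain ⟨r, hr⟩ : ∃ r : ℕ, r = 40 * (S + 2) := ⟨_, rfl⟩
  have hr' : (r : ℝ) = 40 * (S + 2) := by rw [hr]; push_cast; ring
  have hr1 : 1 ≤ r := by omega
  have hr1' : (1 : ℝ) ≤ r := by exact_mod_cast hr1
  obtain ⟨P, hP0, hP⟩ : ∃ P : ℝ, 0 < P ∧ 128 * r * (2 ^ (S + 1 + R) * P) = 1 :=
    ⟨1 / (128 * r * 2 ^ (S + 1 + R)), by positivity, by field_simp⟩
  have hP1 : 2 ^ (S + 1 + R) * P ≤ 1 := by
    have : (0 : ℝ) < 2 ^ (S + 1 + R) * P := by positivity
    nlinarith only [hr', hP]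
  obtain ⟨b, hb⟩ : ∃ b : ℝ, b = (1 / 100) ^ (S + 1) := ⟨_, rfl⟩
  have hb0 : 0 < b := by rw [hb]; positivity
  have hb1 : b ≤ 1 := by rw [hb]; exact pow_le_one₀ (by norm_num) (by norm_num)
  obtain ⟨q, hq⟩ : ∃ q : ℝ, q = Real.exp (-tau K S) := ⟨_, rfl⟩
  have hq0 : 0 < q := by rw [hq]; exact Real.exp_pos _
  have hq1 : q ≤ 1 := by
    rw [hq]; exact Real.exp_le_one_iff.2 (by have := tau_pos hK1 S; linarith only [this])
  have hδ : 0 < b * P := mul_pos hb0 hP0
  obtain ⟨l, hl1, hl⟩ := scale_eventually hq0 (1 / (b * P / 40))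
  obtain ⟨n₀, -, hn₀⟩ := scale_eventually hδ (24 + 5 * (1 / (b * P / 60)) + 32 * r ^ 2)
  refine ⟨l, n₀, b * P / 20, hl1, by positivity, ?_⟩
  intro α Γ _ _ _ w s f hf hyb hlw hn
  by_contra hcon
  rw [not_le] at hcon
  have hM := hn₀ _ hn
  have hlw' : (l : ℝ) * w ≤ K * Fintype.card α := by exact_mod_cast hlw
  have hn0 : (0 : ℝ) ≤ Fintype.card α := Nat.cast_nonneg _
  have hX0 : (0 : ℝ) < s.X.card := lt_of_le_of_lt (by (clear * - ; positivity)) hcon
  have hX : s.X.Nonempty := Finset.card_pos.1 (by exact_mod_cast hX0)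
  have hΩ : (0 : ℝ) < Fintype.card (Om Γ α) := by
    have : (s.X.card : ℝ) ≤ Fintype.card (Om Γ α) := by exact_mod_cast Finset.card_le_univ s.X
    linarith only [hX0, this]
  have hΔ : Real.log (Fintype.card (Om Γ α) / s.X.card) ≤ P * Fintype.card α / 20 := by
    have h1 : Real.log (Fintype.card (Om Γ α) / s.X.card) ≤ b * P / 20 * Fintype.card α := by
      rw [Real.log_le_iff_le_exp (by positivity), div_le_iff₀ hX0]
      rw [Real.exp_neg, inv_mul_lt_iff₀ (Real.exp_pos _)] at hcon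
      exact hcon.le
    have h2 := mul_le_mul_of_nonneg_right hb1 (show 0 ≤ P * Fintype.card α by positivity)
    linarith only [h1, h2]
  obtain ⟨p, hp1, hp2, hu, hI⟩ := s.levels hX hK1 hlw' S R hR hP0 hP1 hΔ
  rw [← hb, ← hq] at hu hI
  have hp0 : 0 < p := lt_of_lt_of_le hP0 hp1
  have hbp : b * P ≤ b * p := mul_le_mul_of_nonneg_left hp1 hb0.le
  have hbpn : b * P * Fintype.card α ≤ b * p * Fintype.card α :=
    mul_le_mul_of_nonneg_right hbp hn0
  have hi0 : 0 < 1 / (b * P / 60) := by positivity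
  have hr2 : (0 : ℝ) ≤ r ^ 2 := by positivity
  have hl' : Real.exp (-(q * l)) ≤ b * p / 40 := by
    have := scale_exp_lt (by positivity) (hl l le_rfl)
    linarith only [hbp, this]
  have hn' : 2 * Real.exp (-(b * p * Fintype.card α / 5)) < b * p / 30 := by
    have := scale_exp_lt (ε := b * P / 60) (x := b * p * Fintype.card α / 5) (by positivity)
      (by linarith only [hM, hbpn, hr2])
    linarith only [hbp, this]
  obtain ⟨J, A, hJ, hA1, hA2, hrich⟩ :=
    s.extract hX hq0.le hq1 hp0 (hp2.trans hP1) hb0 hb1 hu hI hl' hn'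
  have hA12 : 12 ≤ A.card := by
    have : (12 : ℝ) ≤ A.card := by linarith only [hM, hbpn, hi0, hr2, hA1]
    exact_mod_cast this
  have hpow : 2 * (r : ℝ) ^ 2 ≤ (2 : ℝ) ^ ((A.card : ℝ) / 4) := by
    rw [Real.rpow_def_of_pos (by norm_num)]
    have h1 := Real.add_one_le_exp (Real.log 2 * ((A.card : ℝ) / 4))
    have h2 : (1 / 2 : ℝ) ≤ Real.log 2 := by have := Real.log_two_gt_d9; linarith only [this]
    have h3 := mul_le_mul_of_nonneg_right h2 (show (0 : ℝ) ≤ (A.card : ℝ) / 4 by (clear * - hA12; positivity))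
    linarith only [hM, hbpn, hi0, hA1, h1, h3]
  have hsize : 32 * r * A.card ≤ Fintype.card α := by
    have h1 := mul_le_mul_of_nonneg_left hA2 (show (0 : ℝ) ≤ 32 * r by positivity)
    have h2 := mul_le_mul_of_nonneg_left hp2
      (show (0 : ℝ) ≤ 128 * r * Fintype.card α by positivity)
    have h3 : (128 : ℝ) * r * Fintype.card α * (2 ^ (S + 1 + R) * P) = Fintype.card α := by
      rw [mul_right_comm, hP, one_mul]
    have : (32 : ℝ) * r * A.card ≤ Fintype.card α := by linarith only [h1, h2, h3]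
    exact_mod_cast this
  have hd : 128 * r * (J.card * w) ≤ Fintype.card α := by
    have h1 := mul_le_mul_of_nonneg_left hJ (show (0 : ℝ) ≤ 128 * r * w by positivity)
    have h2 := mul_le_mul_of_nonneg_left hlw' (show (0 : ℝ) ≤ 512 * r * q by positivity)
    rw [← hq, ← hr'] at hS
    have h3 := mul_le_mul_of_nonneg_right hS hn0
    have : (128 : ℝ) * r * (J.card * w) ≤ Fintype.card α := by linarith only [h1, h2, h3]
    exact_mod_cast this
  have hsmall := s.rich_small f hf hyb J A r hA12 hr1 hpow hsize hd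
  have hnum := scale_num S (a := A.card) (x := b * P / 20 * Fintype.card α) (by linarith only [hbpn, hA1])
  rw [← hr, ← hb] at hnum
  have h1 := mul_le_mul_of_nonneg_right hnum hΩ.le
  have h2 := mul_lt_mul_of_pos_left hcon (show 0 < (b / 20) ^ A.card by positivity)
  linarith only [hrich, hsmall, h1, h2]

end Pool.Agent.Work.MP_807b32_lc.TS
end

-- merged part: Pool.Agent.Work.MP_807b32_lc.TS.NMain
section
/-!
The lower bound for nondeterministic programs of linear length.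

Proof plan of `nd_trace`. Let `w = T / l + 1`. A walk with at most `l w` tests splits into `l`
walks with at most `w` tests each; so every accepted `z` has a node sequence
`v : Fin (l + 1) → S` from the start node to an accepting node whose consecutive nodes are joined
by walks on `inp c z` with at most `w` tests. Take the most frequent sequence `v` (if nothing is
accepted take `X = ∅`). Call `A` a certificate of `z` at `j` if `|A| ≤ w` and every `x` with
`On A z x` has a walk (of any length) from `v j` to `v (j + 1)` on `inp c x`. A walk with `m` tests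
on `inp c z` gives a certificate of size at most `m` (induction on the walk, `inp_congr`). Let `X`
be the set of points with a certificate at every `j` and `A j z` the certificate of least rank
under a fixed injection of `Finset (Fin n)` into `ℕ` (`Fintype.equivFin`, `Function.argminOn` or
`Finset.exists_min_image`).
-/

namespace Pool.Agent.Work.MP_807b32_lc.TS

open Finset
open scoped Classical

section NMainAux

variable {V S : Type} {B : NBP V S}

theorem NMain_append {w : V → Bool} {s t u : S} {a b : ℕ} (h₁ : B.Walk w s a t)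
    (h₂ : B.Walk w t b u) : B.Walk w s (a + b) u := by
  induction h₁ with
  | nil s => simpa using h₂
  | free he _ ih => exact NBP.Walk.free he (ih h₂)
  | @test s s' t m q he _ ih =>
    have : m + 1 + b = (m + b) + 1 := by ring
    rw [this]
    exact NBP.Walk.test q he (ih h₂)

theorem NMain_split {w : V → Bool} {s t : S} {m : ℕ} (h : B.Walk w s m t) :
    ∀ a b : ℕ, m ≤ a + b → ∃ u m₁ m₂, m₁ ≤ a ∧ m₂ ≤ b ∧ B.Walk w s m₁ u ∧ B.Walk w u m₂ t := by
  induction h with
  | nil s => exact fun a b _ => ⟨s, 0, 0, Nat.zero_le _, Nat.zero_le _, .nil s, .nil s⟩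
  | free he _ ih =>
    intro a b hab
    obtain ⟨u, m₁, m₂, h1, h2, h3, h4⟩ := ih a b hab
    exact ⟨u, m₁, m₂, h1, h2, .free he h3, h4⟩
  | @test s s' t m q he hw ih =>
    intro a b hab
    rcases a with _ | a
    · exact ⟨s, 0, m + 1, le_rfl, by omega, .nil s, .test q he hw⟩
    · obtain ⟨u, m₁, m₂, h1, h2, h3, h4⟩ := ih a b (by omega)
      exact ⟨u, m₁ + 1, m₂, by omega, h2, .test q he h3, h4⟩

theorem NMain_seq {w : V → Bool} (k : ℕ) {t : S} : ∀ (l : ℕ) {s : S} {m : ℕ},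
    B.Walk w s m t → m ≤ (l + 1) * k → ∃ v : Fin (l + 2) → S, v 0 = s ∧ v (Fin.last _) = t ∧
      ∀ j : Fin (l + 1), ∃ m' ≤ k, B.Walk w (v j.castSucc) m' (v j.succ) := by
  intro l
  induction l with
  | zero =>
    intro s m h hm
    refine ⟨![s, t], rfl, rfl, fun j => ⟨m, by simpa using hm, ?_⟩⟩
    fin_cases j
    simpa using h
  | succ l ih =>
    intro s m h hm
    obtain ⟨u, m₁, m₂, h1, h2, h3, h4⟩ := NMain_split h k ((l + 1) * k) (by nlinarith only [hm])
    obtain ⟨v, hv0, hv1, hv⟩ := ih h4 h2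
    refine ⟨Fin.cons s v, rfl, ?_, fun j => ?_⟩
    · rw [← Fin.succ_last, Fin.cons_succ, hv1]
    · refine Fin.cases ?_ (fun i => ?_) j
      · refine ⟨m₁, h1, ?_⟩
        simp only [Fin.castSucc_zero, Fin.cons_zero, Fin.cons_succ, hv0]
        exact h3
      · obtain ⟨m', hm', hw⟩ := hv i
        refine ⟨m', hm', ?_⟩
        rw [← Fin.succ_castSucc, Fin.cons_succ, Fin.cons_succ]
        exact hw

theorem NMain_chain {w : V → Bool} : ∀ (l : ℕ) (v : Fin (l + 1) → S),
    (∀ j : Fin l, ∃ m, B.Walk w (v j.castSucc) m (v j.succ)) →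
      ∃ m, B.Walk w (v 0) m (v (Fin.last _)) := by
  intro l
  induction l with
  | zero => exact fun v _ => ⟨0, .nil _⟩
  | succ l ih =>
    intro v hv
    obtain ⟨m₁, h1⟩ := hv 0
    obtain ⟨m₂, h2⟩ := ih (fun i => v i.succ) (fun j => by
      obtain ⟨m, hm⟩ := hv j.succ
      exact ⟨m, by rw [Fin.succ_castSucc]; exact hm⟩)
    refine ⟨m₁ + m₂, NMain_append (t := v (Fin.succ 0)) (by simpa using h1) ?_⟩
    simpa [Fin.succ_last] using h2

end NMainAux

theorem NMain_cert {n : ℕ} (c : Fin n → Bool) {S : Type} {B : NBP (Fin 3 × Fin n) S}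
    (z : Om (Fin n → Bool) (Fin n)) {s t : S} {m : ℕ} (h : B.Walk (inp c z) s m t) :
    ∃ A : Finset (Fin n), A.card ≤ m ∧ ∀ x, On A z x → ∃ m', B.Walk (inp c x) s m' t := by
  induction h with
  | nil s => exact ⟨∅, by simp, fun x _ => ⟨0, .nil s⟩⟩
  | free he _ ih =>
    obtain ⟨A, hA, hx⟩ := ih
    refine ⟨A, hA, fun x hzx => ?_⟩
    obtain ⟨m', hm'⟩ := hx x hzx
    exact ⟨m', .free he hm'⟩
  | @test s s' t m q he _ ih =>
    obtain ⟨A, hA, hx⟩ := ih
    refine ⟨insert q.2 A, (card_insert_le _ _).trans (by omega), fun x hzx => ?_⟩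
    obtain ⟨m', hm'⟩ := hx x ⟨hzx.1, fun i hi => hzx.2 i (mem_insert_of_mem hi)⟩
    have hq : inp c z q = inp c x q :=
      inp_congr c hzx.1 q (fun _ => hzx.2 _ (mem_insert_self _ _))
    rw [hq] at he
    exact ⟨m' + 1, .test q he hm'⟩

/-- Least certificates give a `Setup`. -/
theorem NMain_setup {Γ α : Type} [Fintype α] [DecidableEq α] [Fintype Γ] (l w : ℕ)
    (P : Fin l → Om Γ α → Prop) :
    ∃ s : Setup Γ α l w,
      (∀ z, z ∈ s.X ↔ ∀ j, ∃ A : Finset α, A.card ≤ w ∧ ∀ x, On A z x → P j x) ∧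
      ∀ j, ∀ z ∈ s.X, ∀ x, On (s.A j z) z x → P j x := by
  let rk : Finset α → ℕ := fun A => (Fintype.equivFin (Finset α) A : ℕ)
  have hrk : Function.Injective rk := fun A A' h =>
    (Fintype.equivFin (Finset α)).injective (Fin.ext h)
  let C : Fin l → Om Γ α → Finset (Finset α) := fun j z =>
    univ.filter (fun A => A.card ≤ w ∧ ∀ x, On A z x → P j x)
  have hex : ∀ j z, ∃ A : Finset α, (C j z).Nonempty → A ∈ C j z ∧ ∀ A' ∈ C j z, rk A ≤ rk A' := by
    intro j z
    by_cases h : (C j z).Nonempty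
    · obtain ⟨A, hA, hmin⟩ := Finset.exists_min_image (C j z) rk h
      exact ⟨A, fun _ => ⟨hA, hmin⟩⟩
    · exact ⟨∅, fun h' => absurd h' h⟩
  choose A hA using hex
  let X : Finset (Om Γ α) := univ.filter (fun z => ∀ j, (C j z).Nonempty)
  have hX : ∀ z, z ∈ X ↔ ∀ j, (C j z).Nonempty := fun z => by simp [X]
  have hC : ∀ j z A', A' ∈ C j z ↔ A'.card ≤ w ∧ ∀ x, On A' z x → P j x := fun j z A' => by
    simp [C]
  have hle : ∀ j, ∀ z ∈ X, ∀ x ∈ X, On (A j z) z x → rk (A j x) ≤ rk (A j z) := by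
    intro j z hz x hx hzx
    have h1 := (hC _ _ _).1 (hA j z ((hX z).1 hz j)).1
    refine (hA j x ((hX x).1 hx j)).2 _ ((hC _ _ _).2 ⟨h1.1, fun y hy => h1.2 y ?_⟩)
    exact ⟨hzx.1.trans hy.1, fun i hi => (hzx.2 i hi).trans (hy.2 i hi)⟩
  refine ⟨⟨X, A, fun j z hz => ((hC _ _ _).1 (hA j z ((hX z).1 hz j)).1).1, ?_⟩, ?_, ?_⟩
  · intro j z hz x hx hzx
    refine hrk (le_antisymm ?_ ?_)
    · exact hle j x hx z hz ⟨hzx.1.symm, fun i hi => (hzx.2 i (mem_union_right _ hi)).symm⟩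
    · exact hle j z hz x hx ⟨hzx.1, fun i hi => hzx.2 i (mem_union_left _ hi)⟩
  · intro z
    change z ∈ X ↔ _
    rw [hX]
    refine forall_congr' (fun j => ?_)
    exact ⟨fun ⟨A', h⟩ => ⟨A', (hC _ _ _).1 h⟩, fun ⟨A', h⟩ => ⟨A', (hC _ _ _).2 h⟩⟩
  · intro j z hz
    exact ((hC _ _ _).1 (hA j z ((hX z).1 hz j)).1).2

theorem nd_trace {n : ℕ} (c : Fin n → Bool) {S : Type} [Fintype S]
    (B : NBP (Fin 3 × Fin n) S) (g : (Fin 3 × Fin n → Bool) → Prop) (T l : ℕ) (hl : 1 ≤ l)
    (hB : B.ComputesIn g T) :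
    ∃ s : Setup (Fin n → Bool) (Fin n) l (T / l + 1),
      (∀ h, (∀ j, ∃ z ∈ s.X, On (s.A j z) z h) → g (inp c h)) ∧
      (univ.filter (fun z : Om (Fin n → Bool) (Fin n) => g (inp c z))).card ≤
        Fintype.card S ^ (l + 1) * s.X.card := by
  obtain ⟨l, rfl⟩ : ∃ l', l = l' + 1 := ⟨l - 1, by omega⟩
  set w := T / (l + 1) + 1 with hw
  have hTw : T ≤ (l + 1) * w := by
    exact (Nat.lt_mul_div_succ T (show 0 < l + 1 by omega)).le
  have hs := fun v : Fin (l + 1 + 1) → S => NMain_setup (Γ := Fin n → Bool) (α := Fin n) (l + 1) w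
    (fun j x => ∃ m, B.Walk (inp c x) (v j.castSucc) m (v j.succ))
  choose s hs1 hs2 using hs
  let G : Finset (Fin (l + 1 + 1) → S) :=
    univ.filter (fun v => v 0 = B.start ∧ v (Fin.last _) ∈ B.accept)
  have hcov : univ.filter (fun z : Om (Fin n → Bool) (Fin n) => g (inp c z)) ⊆
      G.biUnion (fun v => (s v).X) := by
    intro z hz
    obtain ⟨m, hm, t, ht, hwk⟩ := (hB (inp c z)).1 (mem_filter.1 hz).2
    obtain ⟨v, hv0, hv1, hv⟩ := NMain_seq w l hwk (hm.trans hTw)
    refine mem_biUnion.2 ⟨v, mem_filter.2 ⟨mem_univ _, hv0, hv1 ▸ ht⟩, (hs1 v z).2 (fun j => ?_)⟩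
    obtain ⟨m', hm', hwj⟩ := hv j
    obtain ⟨A, hA, hx⟩ := NMain_cert c z hwj
    exact ⟨A, hA.trans hm', hx⟩
  rcases G.eq_empty_or_nonempty with hG | hG
  · refine ⟨⟨∅, fun _ _ => ∅, by simp, by simp⟩, ?_, ?_⟩
    · intro h hh
      obtain ⟨z, hz, -⟩ := hh 0
      simp at hz
    · rw [hG] at hcov
      simpa using hcov
  · obtain ⟨v, hv, hmax⟩ := Finset.exists_max_image G (fun v => (s v).X.card) hG
    obtain ⟨hv0, hv1⟩ := (mem_filter.1 hv).2
    refine ⟨s v, ?_, ?_⟩
    · intro h hh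
      obtain ⟨m, hm⟩ := NMain_chain (B := B) (w := inp c h) (l + 1) v (fun j => by
        obtain ⟨z, hz, hzh⟩ := hh j
        exact hs2 v j z hz h hzh)
      rw [hv0] at hm
      exact (hB (inp c h)).2 m _ hv1 hm
    · calc _ ≤ (G.biUnion (fun v => (s v).X)).card := card_le_card hcov
        _ ≤ G.card * (s v).X.card := card_biUnion_le_card_mul _ _ _ hmax
        _ ≤ _ := by
          refine Nat.mul_le_mul_right _ ?_
          calc G.card ≤ Fintype.card (Fin (l + 1 + 1) → S) := card_le_univ _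
            _ = _ := by simp

/-- `K = k + 1`; for `n ≥ max n₀ l` combine `nd_core`, `nd_trace` and `exists_restriction`. -/
theorem nd_main (k : ℕ) : ∃ c : ℕ, ∀ (n : ℕ) (S : Type) [Fintype S]
    (B : NBP (Fin 3 × Fin n) S), B.ComputesIn (Hard n) (k * n) →
    n ≤ c * (Nat.clog 2 (Fintype.card S) + 1) := by
  obtain ⟨l, n₀, c, hl, hc, hcore⟩ := nd_core (k + 1) (by omega)
  refine ⟨n₀ + l + ⌈((l : ℝ) + 3) / c⌉₊, fun n S _ B hB => ?_⟩
  set L := Nat.clog 2 (Fintype.card S) with hL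
  by_cases hn : n ≤ n₀ + l
  · calc n ≤ (n₀ + l + ⌈((l : ℝ) + 3) / c⌉₊) * 1 := by omega
      _ ≤ _ := Nat.mul_le_mul_left _ (by omega)
  push Not at hn
  obtain ⟨c₀, hD, hdens⟩ := exists_restriction n (by omega)
  obtain ⟨s, hs1, hs2⟩ := nd_trace c₀ B (Hard n) (k * n) l hl hB
  have hlw : l * (k * n / l + 1) ≤ (k + 1) * Fintype.card (Fin n) := by
    have := Nat.mul_div_le (k * n) l
    rw [Fintype.card_fin]
    nlinarith only [hn, this]
  have h1 := hcore (Fin n) (Fin n → Bool) _ s _ hD hs1 hlw (by rw [Fintype.card_fin]; omega)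
  rw [Fintype.card_fin] at h1
  have hS : Fintype.card S ≤ 2 ^ L := Nat.le_pow_clog (by norm_num) _
  have hN : (0 : ℝ) < Fintype.card (Om (Fin n → Bool) (Fin n)) := by
    exact_mod_cast Fintype.card_pos
  have h2 : Fintype.card (Om (Fin n → Bool) (Fin n)) ≤ 2 ^ ((l + 3) * (L + 1)) * s.X.card := by
    calc _ ≤ 4 * (Fintype.card S ^ (l + 1) * s.X.card) :=
          hdens.trans (Nat.mul_le_mul_left _ hs2)
      _ ≤ 4 * ((2 ^ L) ^ (l + 1) * s.X.card) := by gcongr
      _ = 2 ^ (2 + L * (l + 1)) * s.X.card := by rw [← pow_mul, pow_add]; ring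
      _ ≤ _ := Nat.mul_le_mul_right _ (Nat.pow_le_pow_right (by norm_num) (by nlinarith only [hl]))
  have h3 : (Fintype.card (Om (Fin n → Bool) (Fin n)) : ℝ) ≤
      Real.exp (((l : ℝ) + 3) * (L + 1)) * s.X.card := by
    have h4 : (2 : ℝ) ^ ((l + 3) * (L + 1)) ≤ Real.exp (((l : ℝ) + 3) * (L + 1)) := by
      have h5 : (2 : ℝ) ≤ Real.exp 1 := by
        have := Real.add_one_le_exp (1 : ℝ)
        linarith only [this]
      calc (2 : ℝ) ^ ((l + 3) * (L + 1)) ≤ (Real.exp 1) ^ ((l + 3) * (L + 1)) := by gcongr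
        _ = _ := by rw [← Real.exp_nat_mul]; push_cast; ring_nf
    calc _ ≤ (2 : ℝ) ^ ((l + 3) * (L + 1)) * s.X.card := by exact_mod_cast h2
      _ ≤ _ := by gcongr
  have h6 : (1 : ℝ) ≤ Real.exp (((l : ℝ) + 3) * (L + 1) - c * n) := by
    have h7 : (Fintype.card (Om (Fin n → Bool) (Fin n)) : ℝ) * 1 ≤
        (Fintype.card (Om (Fin n → Bool) (Fin n)) : ℝ) *
          Real.exp (((l : ℝ) + 3) * (L + 1) - c * n) := by
      calc _ ≤ Real.exp (((l : ℝ) + 3) * (L + 1)) * s.X.card := by rw [mul_one]; exact h3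
        _ ≤ Real.exp (((l : ℝ) + 3) * (L + 1)) *
            (Real.exp (-(c * n)) * Fintype.card (Om (Fin n → Bool) (Fin n))) := by gcongr
        _ = _ := by rw [sub_eq_add_neg, Real.exp_add]; ring
    exact le_of_mul_le_mul_left h7 hN
  have h8 : c * n ≤ ((l : ℝ) + 3) * (L + 1) := by
    have := Real.one_le_exp_iff.1 h6
    linarith only [this]
  have h9 : (n : ℝ) ≤ (⌈((l : ℝ) + 3) / c⌉₊ : ℝ) * (L + 1) := by
    have h10 : ((l : ℝ) + 3) / c ≤ ⌈((l : ℝ) + 3) / c⌉₊ := Nat.le_ceil _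
    have h11 : (n : ℝ) ≤ ((l : ℝ) + 3) / c * (L + 1) := by
      rw [div_mul_eq_mul_div, le_div_iff₀ hc]
      linarith only [h8]
    exact h11.trans (by gcongr)
  have h12 : n ≤ ⌈((l : ℝ) + 3) / c⌉₊ * (L + 1) := by exact_mod_cast h9
  exact h12.trans (Nat.mul_le_mul_right _ (by omega))

end Pool.Agent.Work.MP_807b32_lc.TS
end
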