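import Pool.Agent.Work.MP_807b32_lc.TS.Inv
import Pool.Agent.Work.MP_807b32_lc.TS.Final
import Pool.Agent.Work.MP_807b32_lc.TS.RDefs

-- merged part: Pool.Agent.Work.MP_807b32_lc.TS.RDisp
section
/-!
From small bias to the extractor property for rectangles with one short and one long foot.
-/

namespace Pool.Agent.Work.MP_807b32_lc.TS

open Finset
open scoped Classical

variable {α Γ : Type} [Fintype α] [DecidableEq α] [Fintype Γ]

/-- Few points lie in a fibre that carries a rectangle with legs `u` and `β 2 ^ |V|` all of whose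
columns have bias at least `η`. -/
def Extr (χ : Om Γ α → ℝ) : Prop :=
  ∀ (A V : Finset α), Disjoint A V → ∀ (r : ℕ) (u β η : ℝ), 0 < u → 0 < β → 0 < η →
    2 * (r : ℝ) ^ (2 * r) ≤ u ^ r * (β * η ^ (2 * r)) → ∀ bad : Finset (Om Γ α),
    (∀ z ∈ bad, ∃ RA RV : Finset (Om Γ α), (∀ a ∈ RA, Off A z a) ∧ (∀ v ∈ RV, Off V z v) ∧
      u ≤ (RA.card : ℝ) ∧ β * 2 ^ V.card ≤ (RV.card : ℝ) ∧
      ∀ v ∈ RV, η * RA.card ≤ |∑ a ∈ RA, χ (mix V a v)|) →
    (bad.card : ℝ) * ((β * η ^ (2 * r)) ^ 2 * u ^ (2 * r)) ≤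
      4 * 2 ^ (2 * r * A.card) * ((1 / 2) ^ V.card + 8 * r * (1 / 2) ^ Fintype.card α) *
        Fintype.card (Om Γ α)

omit [Fintype Γ] in
theorem Extr_two {χ : Om Γ α → ℝ} (h1 : ∀ z, χ z = 1 ∨ χ z = -1)
    {A V : Finset α} (hAV : Disjoint A V) {r : ℕ} {u β₀ η β : ℝ}
    (hu : 0 < u) (hβ₀ : 0 < β₀) (hη : 0 < η) (hβe : β = β₀ * η ^ (2 * r))
    (hr : 2 * (r : ℝ) ^ (2 * r) ≤ u ^ r * β) {z : Om Γ α}
    {RA RV : Finset (Om Γ α)} (hA : ∀ a ∈ RA, Off A z a) (hV : ∀ v ∈ RV, Off V z v)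
    (hA' : u ≤ (RA.card : ℝ)) (hV' : β₀ * 2 ^ V.card ≤ (RV.card : ℝ))
    (hm : ∀ v ∈ RV, η * RA.card ≤ |∑ a ∈ RA, χ (mix V a v)|) :
    β ^ 2 * u ^ (2 * r) * (2 ^ V.card) ^ 2 ≤
      4 * ∑ t ∈ (Fintype.piFinset fun _ : Fin (2 * r) => DispO A).filter
        (fun t => ∃ i₀, ∀ j, j ≠ i₀ → t j ≠ t i₀),
        (∑ e ∈ DispO V, ∏ i, χ (shift z (DispA (t i) e))) ^ 2 := by
  have hβ : 0 < β := by rw [hβe]; positivity
  have hinj : ∀ (B : Finset α) (R : Finset (Om Γ α)), (∀ a ∈ R, Off B z a) →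
      Set.InjOn (fun a : Om Γ α => DispA z.2 a.2) R ∧
        (R.image fun a => DispA z.2 a.2) ⊆ DispO B := by
    intro B R h
    refine ⟨fun a ha b hb e => ?_, fun d hd => ?_⟩
    · refine Prod.ext ((h a ha).1.symm.trans (h b hb).1) (funext fun i => ?_)
      have k1 : xor (z.2 i) (a.2 i) = xor (z.2 i) (b.2 i) := congrFun e i
      revert k1
      cases z.2 i <;> cases a.2 i <;> cases b.2 i <;> simp
    · obtain ⟨a, ha, rfl⟩ := Finset.mem_image.1 hd
      refine Disp_mem.2 fun i hi => ?_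
      simp [DispA, (h a ha).2 i hi]
  obtain ⟨iA, sA⟩ := hinj A RA hA
  obtain ⟨iV, sV⟩ := hinj V RV hV
  have cA := Finset.card_image_of_injOn iA
  have cV := Finset.card_image_of_injOn iV
  have hval : ∀ e ∈ RV.image fun a => DispA z.2 a.2,
      η * (RA.image fun a => DispA z.2 a.2).card ≤
        |∑ d ∈ RA.image fun a => DispA z.2 a.2, χ (shift z (DispA d e))| := by
    intro e he
    obtain ⟨v, hv, rfl⟩ := Finset.mem_image.1 he
    rw [cA, Finset.sum_image iA]
    refine (hm v hv).trans (le_of_eq ?_)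
    congr 1
    refine Finset.sum_congr rfl fun a ha => ?_
    have : shift z (DispA (DispA z.2 a.2) (DispA z.2 v.2)) = mix V a v := by
      refine Prod.ext (hA a ha).1 (funext fun i => ?_)
      change xor (z.2 i) (xor (xor (z.2 i) (a.2 i)) (xor (z.2 i) (v.2 i))) =
        if i ∈ V then v.2 i else a.2 i
      by_cases hi : i ∈ V
      · rw [if_pos hi, ← (hA a ha).2 i (Finset.disjoint_right.1 hAV hi)]
        cases z.2 i <;> cases v.2 i <;> rfl
      · rw [if_neg hi, ← (hV v hv).2 i hi]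
        cases z.2 i <;> cases a.2 i <;> rfl
    rw [this]
  rw [← cA] at hA'
  rw [← cV] at hV'
  generalize (RA.image fun a => DispA z.2 a.2) = R at hA' sA hval
  generalize (RV.image fun a => DispA z.2 a.2) = R' at hV' sV hval
  clear cA cV iA iV
  obtain ⟨Q, hQ⟩ : ∃ Q : (Fin (2 * r) → α → Bool) → ℝ,
      ∀ t, Q t = ∑ e ∈ DispO V, ∏ i, χ (shift z (DispA (t i) e)) := ⟨_, fun _ => rfl⟩
  simp only [← hQ]
  obtain ⟨N, hN⟩ : ∃ N : ℝ, N = 2 ^ V.card := ⟨_, rfl⟩
  have hN0 : 0 < N := by rw [hN]; exact pow_pos two_pos _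
  have hQ1 : ∀ t, Q t ≤ N := fun t => by
    rw [hQ, hN]
    refine (Finset.sum_le_card_nsmul _ _ 1 fun e _ => Disp_pm' fun i => h1 _).trans ?_
    rw [Disp_card, nsmul_eq_mul]
    push_cast
    rw [mul_one]
  rw [← hN] at hV' ⊢
  obtain ⟨ρ, hρ⟩ : ∃ ρ : ℝ, ρ = (R.card : ℝ) ^ r := ⟨_, rfl⟩
  have hρ2 : (R.card : ℝ) ^ (2 * r) = ρ ^ 2 := by rw [hρ, ← pow_mul, mul_comm]
  have hρu : u ^ r ≤ ρ := hρ ▸ pow_le_pow_left₀ hu.le hA' r
  have hur : 0 < u ^ r := pow_pos hu r
  have hρ0 : 0 < ρ := hur.trans_le hρu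
  have e1 : β * N * ρ ^ 2 ≤ ∑ t ∈ Fintype.piFinset fun _ : Fin (2 * r) => R, Q t := by
    calc β * N * ρ ^ 2 = β₀ * N * (η * R.card) ^ (2 * r) := by rw [hβe, mul_pow, hρ2]; ring
      _ ≤ R'.card * (η * R.card) ^ (2 * r) := mul_le_mul_of_nonneg_right hV' (by (clear * - hη; positivity))
      _ ≤ ∑ e ∈ R', (∑ d ∈ R, χ (shift z (DispA d e))) ^ (2 * r) := by
          rw [← nsmul_eq_mul, ← Finset.sum_const]
          refine Finset.sum_le_sum fun e he => ?_
          rw [← (even_two_mul r).pow_abs (∑ d ∈ R, χ (shift z (DispA d e)))]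
          exact pow_le_pow_left₀ (by (clear * - hη; positivity)) (hval e he) _
      _ ≤ ∑ e ∈ DispO V, (∑ d ∈ R, χ (shift z (DispA d e))) ^ (2 * r) :=
          Finset.sum_le_sum_of_subset_of_nonneg sV fun e _ _ => by
            rw [pow_mul]
            exact pow_nonneg (sq_nonneg _) _
      _ = _ := by
          simp only [Finset.sum_pow', hQ]
          exact Finset.sum_comm
  rw [← Finset.sum_filter_add_sum_filter_not _ fun t => ∃ i₀, ∀ j, j ≠ i₀ → t j ≠ t i₀] at e1
  have e2 : ∑ t ∈ (Fintype.piFinset fun _ : Fin (2 * r) => R).filter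
      (fun t => ¬ ∃ i₀, ∀ j, j ≠ i₀ → t j ≠ t i₀), Q t ≤ ρ * (r : ℝ) ^ (2 * r) * N := by
    refine (Finset.sum_le_card_nsmul _ _ N fun t _ => hQ1 t).trans ?_
    rw [nsmul_eq_mul]
    refine mul_le_mul_of_nonneg_right ?_ hN0.le
    rw [hρ]
    exact_mod_cast card_no_unique R r
  have e3 := sq_sum_le_card_mul_sum_sq (s := (Fintype.piFinset fun _ : Fin (2 * r) => R).filter
    fun t => ∃ i₀, ∀ j, j ≠ i₀ → t j ≠ t i₀) (f := Q)
  have e4 : (((Fintype.piFinset fun _ : Fin (2 * r) => R).filter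
      fun t => ∃ i₀, ∀ j, j ≠ i₀ → t j ≠ t i₀).card : ℝ) ≤ ρ ^ 2 := by
    rw [← hρ2]
    have := Finset.card_filter_le (Fintype.piFinset fun _ : Fin (2 * r) => R)
      fun t => ∃ i₀, ∀ j, j ≠ i₀ → t j ≠ t i₀
    rw [Fintype.card_piFinset_const] at this
    exact_mod_cast this
  have e5 : ∑ t ∈ (Fintype.piFinset fun _ : Fin (2 * r) => R).filter
      (fun t => ∃ i₀, ∀ j, j ≠ i₀ → t j ≠ t i₀), Q t ^ 2 ≤
      ∑ t ∈ (Fintype.piFinset fun _ : Fin (2 * r) => DispO A).filter
        (fun t => ∃ i₀, ∀ j, j ≠ i₀ → t j ≠ t i₀), Q t ^ 2 :=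
    Finset.sum_le_sum_of_subset_of_nonneg
      (Finset.filter_subset_filter _ (Fintype.piFinset_subset _ _ fun _ => sA))
      fun _ _ _ => sq_nonneg _
  have e6 : 0 ≤ ∑ t ∈ (Fintype.piFinset fun _ : Fin (2 * r) => R).filter
      (fun t => ∃ i₀, ∀ j, j ≠ i₀ → t j ≠ t i₀), Q t ^ 2 :=
    Finset.sum_nonneg fun _ _ => sq_nonneg _
  generalize ∑ t ∈ (Fintype.piFinset fun _ : Fin (2 * r) => DispO A).filter
    (fun t => ∃ i₀, ∀ j, j ≠ i₀ → t j ≠ t i₀), Q t ^ 2 = Θ at e5 ⊢
  have e7 := e3.trans ((mul_le_mul_of_nonneg_right e4 e6).trans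
    (mul_le_mul_of_nonneg_left e5 (sq_nonneg _)))
  generalize ∑ t ∈ (Fintype.piFinset fun _ : Fin (2 * r) => R).filter
    (fun t => ∃ i₀, ∀ j, j ≠ i₀ → t j ≠ t i₀), Q t = Y at e1 e7
  have e8 : 2 * (ρ * (r : ℝ) ^ (2 * r) * N) ≤ β * N * ρ ^ 2 := by
    have k1 : 2 * (r : ℝ) ^ (2 * r) ≤ ρ * β := hr.trans (mul_le_mul_of_nonneg_right hρu hβ.le)
    have k2 := mul_le_mul_of_nonneg_left k1 (mul_pos hρ0 hN0).le
    calc 2 * (ρ * (r : ℝ) ^ (2 * r) * N) = ρ * N * (2 * (r : ℝ) ^ (2 * r)) := by ring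
      _ ≤ ρ * N * (ρ * β) := k2
      _ = β * N * ρ ^ 2 := by ring
  have e9 : β * N * ρ ^ 2 ≤ 2 * Y := by linarith only [e2, e1, e8]
  have e10 : (β * N * ρ ^ 2) ^ 2 ≤ (2 * Y) ^ 2 :=
    pow_le_pow_left₀ (mul_pos (mul_pos hβ hN0) (pow_pos hρ0 2)).le e9 2
  have e11 : ρ ^ 2 * (β ^ 2 * ρ ^ 2 * N ^ 2) ≤ ρ ^ 2 * (4 * Θ) := by
    calc ρ ^ 2 * (β ^ 2 * ρ ^ 2 * N ^ 2) = (β * N * ρ ^ 2) ^ 2 := by ring
      _ ≤ (2 * Y) ^ 2 := e10
      _ = 4 * Y ^ 2 := by ring
      _ ≤ 4 * (ρ ^ 2 * Θ) := by linarith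
      _ = ρ ^ 2 * (4 * Θ) := by ring
  refine le_trans ?_ (le_of_mul_le_mul_left e11 (pow_pos hρ0 2))
  rw [mul_comm 2 r, pow_mul]
  exact mul_le_mul_of_nonneg_right
    (mul_le_mul_of_nonneg_left (pow_le_pow_left₀ hur.le hρu 2) (sq_nonneg _)) (sq_nonneg _)

theorem extr_of_bias (χ : Om Γ α → ℝ) (h1 : ∀ z, χ z = 1 ∨ χ z = -1) (hb : Bias χ) :
    Extr χ := by
  intro A V hAV r u β₀ η hu hβ₀ hη hr bad hbad
  obtain ⟨β, hβe⟩ : ∃ β, β = β₀ * η ^ (2 * r) := ⟨_, rfl⟩
  rw [← hβe] at hr ⊢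
  obtain ⟨T, hT⟩ : ∃ T, T = (Fintype.piFinset fun _ : Fin (2 * r) => DispO A).filter
    (fun t => ∃ i₀, ∀ j, j ≠ i₀ → t j ≠ t i₀) := ⟨_, rfl⟩
  have hcT : (T.card : ℝ) ≤ 2 ^ (2 * r * A.card) := by
    have := Finset.card_filter_le (Fintype.piFinset fun _ : Fin (2 * r) => DispO A)
      fun t => ∃ i₀, ∀ j, j ≠ i₀ → t j ≠ t i₀
    rw [Fintype.card_piFinset_const, Disp_card, ← pow_mul, mul_comm A.card, ← hT] at this
    exact_mod_cast this
  have e1 : (bad.card : ℝ) * (β ^ 2 * u ^ (2 * r) * (2 ^ V.card) ^ 2) ≤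
      4 * ∑ z : Om Γ α, ∑ t ∈ T, (∑ e ∈ DispO V, ∏ i, χ (shift z (DispA (t i) e))) ^ 2 := by
    rw [← nsmul_eq_mul, Finset.mul_sum]
    refine (Finset.card_nsmul_le_sum _ _ _ fun z hz => ?_).trans
      (Finset.sum_le_sum_of_subset_of_nonneg (subset_univ bad) fun z _ _ =>
        mul_nonneg (by norm_num) (Finset.sum_nonneg fun _ _ => sq_nonneg _))
    obtain ⟨RA, RV, k1, k2, k3, k4, k5⟩ := hbad z hz
    rw [hT]
    exact Extr_two h1 hAV hu hβ₀ hη hβe hr k1 k2 k3 k4 k5
  obtain ⟨M, hM⟩ : ∃ M : ℝ, M = 2 ^ V.card * Fintype.card (Om Γ α) +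
    (2 ^ V.card) ^ 2 * (8 * r * Fintype.card Γ) := ⟨_, rfl⟩
  have hM0 : 0 ≤ M := by
    rw [hM]
    exact add_nonneg (mul_nonneg (pow_nonneg zero_le_two _) (Nat.cast_nonneg _))
      (mul_nonneg (sq_nonneg _) (mul_nonneg (mul_nonneg (by norm_num) (Nat.cast_nonneg _))
        (Nat.cast_nonneg _)))
  have e2 : ∑ z : Om Γ α, ∑ t ∈ T, (∑ e ∈ DispO V, ∏ i, χ (shift z (DispA (t i) e))) ^ 2 ≤
      2 ^ (2 * r * A.card) * M := by
    rw [Finset.sum_comm]
    refine (Finset.sum_le_card_nsmul _ _ M fun t ht => ?_).trans ?_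
    · rw [hT] at ht
      obtain ⟨k1, k2⟩ := Finset.mem_filter.1 ht
      rw [hM]
      exact Disp_one h1 hb hAV (Fintype.mem_piFinset.1 k1) k2
    · rw [nsmul_eq_mul]
      exact mul_le_mul_of_nonneg_right hcT hM0
  have hΩ : (Fintype.card (Om Γ α) : ℝ) = Fintype.card Γ * 2 ^ Fintype.card α := by
    rw [Fintype.card_prod, Fintype.card_fun, Fintype.card_bool]
    push_cast
    rfl
  have e3 : M = (2 ^ V.card) ^ 2 * (((1 / 2) ^ V.card + 8 * r * (1 / 2) ^ Fintype.card α) *
      Fintype.card (Om Γ α)) := by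
    rw [hM, hΩ, one_div_pow, one_div_pow]
    field_simp
  have hpos : (0 : ℝ) < (2 ^ V.card) ^ 2 := pow_pos (pow_pos two_pos _) _
  refine le_of_mul_le_mul_left ?_ hpos
  calc (2 ^ V.card) ^ 2 * ((bad.card : ℝ) * (β ^ 2 * u ^ (2 * r)))
      = (bad.card : ℝ) * (β ^ 2 * u ^ (2 * r) * (2 ^ V.card) ^ 2) := by ring
    _ ≤ 4 * (2 ^ (2 * r * A.card) * M) := e1.trans (by linarith only [e2])
    _ = _ := by rw [e3]; ring

end Pool.Agent.Work.MP_807b32_lc.TS
end

-- merged part: Pool.Agent.Work.MP_807b32_lc.TS.RFinal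
section
/-!
The last stage for two-sided error: a set that is closed under hybrids has small correlation
with an extractor.
-/

namespace Pool.Agent.Work.MP_807b32_lc.TS

open Finset
open scoped Classical

variable {α Γ : Type} [Fintype α] [DecidableEq α] [Fintype Γ]

omit [Fintype α] [DecidableEq α] [Fintype Γ] in
theorem sum_eq_sum_fib (E : Finset (Om Γ α)) (A : Finset α) (χ : Om Γ α → ℝ) :
    ∑ z ∈ E, χ z = ∑ z ∈ E, (∑ a ∈ fib E A z, χ a) / (fib E A z).card := by
  have h1 : ∀ z ∈ E, (∑ a ∈ fib E A z, χ a) / (fib E A z).card =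
      ∑ a ∈ E, if Off A a z then χ a / (fib E A a).card else 0 := by
    intro z _
    rw [Finset.sum_div, ← Finset.sum_filter]
    refine Finset.sum_congr ?_ (fun a ha => ?_)
    · ext a
      simp only [mem_fib, mem_filter]
      exact ⟨fun h => ⟨h.1, h.2.symm⟩, fun h => ⟨h.1, h.2.symm⟩⟩
    · rw [fib_congr (mem_filter.1 ha).2]
  rw [Finset.sum_congr rfl h1, Finset.sum_comm]
  refine Finset.sum_congr rfl (fun a ha => ?_)
  rw [← Finset.sum_filter, Finset.sum_const, nsmul_eq_mul]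
  have h2 : (0 : ℝ) < (fib E A a).card := by
    exact_mod_cast Finset.card_pos.2 ⟨a, mem_fib.2 ⟨ha, Off.refl _ _⟩⟩
  change χ a = (fib E A a).card * (χ a / (fib E A a).card)
  field_simp

/-- The estimate for a fixed long foot `V`. -/
theorem rfinal_fixed (χ : Om Γ α → ℝ) (h1 : ∀ z, |χ z| ≤ 1) (hχ : Extr χ)
    (E T : Finset (Om Γ α)) (A V : Finset α) (hAV : Disjoint A V) (t : ℝ) (r : ℕ) (ht : 0 < t)
    (hA : (2 : ℝ) ^ A.card ≤ t ^ 6) (hT : ∀ z ∈ E, t ^ 6 ≤ ((fib T A z).card : ℝ))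
    (hyb : ∀ z ∈ E, ∀ x ∈ E, Off (A ∪ V) z x → mix V z x ∈ E)
    (hr1 : 1 ≤ r) (hr : 2 * (r : ℝ) ^ 2 ≤ t) :
    |∑ z ∈ E, χ z| ≤ E.card / t + T.card / t ^ 2 + Fintype.card (Om Γ α) / t ^ r +
      4 * t ^ (10 * r) * ((1 / 2) ^ V.card + 8 * r * (1 / 2) ^ Fintype.card α) *
        Fintype.card (Om Γ α) := by
  set H := E.filter (fun z => 1 / t * ((fib E A z).card : ℝ) ≤ |∑ a ∈ fib E A z, χ a|) with hH
  have hpos : ∀ z ∈ E, (0 : ℝ) < (fib E A z).card := fun z hz => by
    exact_mod_cast Finset.card_pos.2 ⟨z, mem_fib.2 ⟨hz, Off.refl _ _⟩⟩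
  have h0 : |∑ z ∈ E, χ z| ≤ E.card / t + H.card := by
    rw [sum_eq_sum_fib E A χ]
    refine (Finset.abs_sum_le_sum_abs _ _).trans ?_
    have : ∀ z ∈ E, |(∑ a ∈ fib E A z, χ a) / (fib E A z).card| ≤ 1 / t +
        if 1 / t * ((fib E A z).card : ℝ) ≤ |∑ a ∈ fib E A z, χ a| then 1 else 0 := by
      intro z hz
      rw [abs_div, abs_of_pos (hpos z hz), div_le_iff₀ (hpos z hz)]
      split_ifs with h
      · have a1 : |∑ a ∈ fib E A z, χ a| ≤ (fib E A z).card := by
          refine (Finset.abs_sum_le_sum_abs _ _).trans ?_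
          simpa using Finset.sum_le_card_nsmul _ _ 1 (fun a _ => h1 a)
        have a2 : 0 ≤ 1 / t * ((fib E A z).card : ℝ) := by (clear * - ht; positivity)
        linarith only [a1, a2]
      · rw [add_zero]
        exact (not_le.1 h).le
    refine (Finset.sum_le_sum this).trans (le_of_eq ?_)
    rw [Finset.sum_add_distrib, Finset.sum_const, nsmul_eq_mul, Finset.sum_boole]
    ring
  set B1 := E.filter (fun z => ((fib E A z).card : ℝ) < t ^ 4) with hB1
  set B2 := H.filter (fun z => ((fib H V z).card : ℝ) < 1 / t ^ r * 2 ^ V.card) with hB2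
  set B3 := H.filter (fun z => t ^ 4 ≤ ((fib E A z).card : ℝ) ∧
    1 / t ^ r * 2 ^ V.card ≤ ((fib H V z).card : ℝ)) with hB3
  have hHE : H ⊆ E := Finset.filter_subset _ _
  have hsub : H ⊆ B1 ∪ B2 ∪ B3 := by
    intro z hz
    rw [mem_union, mem_union]
    by_cases k1 : ((fib E A z).card : ℝ) < t ^ 4
    · exact Or.inl (Or.inl (mem_filter.2 ⟨hHE hz, k1⟩))
    by_cases k2 : ((fib H V z).card : ℝ) < 1 / t ^ r * 2 ^ V.card
    · exact Or.inl (Or.inr (mem_filter.2 ⟨hz, k2⟩))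
    · exact Or.inr (mem_filter.2 ⟨hz, not_lt.1 k1, not_lt.1 k2⟩)
  have hcard : (H.card : ℝ) ≤ B1.card + B2.card + B3.card := by
    have := (Finset.card_le_card hsub).trans ((Finset.card_union_le _ _).trans
      (Nat.add_le_add_right (Finset.card_union_le _ _) _))
    exact_mod_cast this
  have hfs : ∀ (B B' : Finset (Om Γ α)) (C : Finset α) (z : Om Γ α), B ⊆ B' →
      ((fib B C z).card : ℝ) ≤ (fib B' C z).card := by
    intro B B' C z hB
    exact_mod_cast Finset.card_le_card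
      (fun x hx => mem_fib.2 ⟨hB (mem_fib.1 hx).1, (mem_fib.1 hx).2⟩)
  have k1 : (B1.card : ℝ) ≤ T.card / t ^ 2 := by
    have := card_le_of_fib B1 T A (t ^ 4) (t ^ 6) (by positivity) (fun z hz =>
      ⟨(hfs B1 E A z (Finset.filter_subset _ _)).trans (mem_filter.1 hz).2.le,
        hT z (mem_filter.1 hz).1⟩)
    rw [le_div_iff₀ (by positivity)]
    have h2 : (B1.card * t ^ 2) * t ^ 4 ≤ T.card * t ^ 4 := by linarith only [this]
    exact le_of_mul_le_mul_right h2 (by positivity)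
  have k2 : (B2.card : ℝ) ≤ Fintype.card (Om Γ α) / t ^ r := by
    have := card_le_of_fib B2 univ V (1 / t ^ r * 2 ^ V.card) (2 ^ V.card) (by positivity)
      (fun z hz => ⟨(hfs B2 H V z (Finset.filter_subset _ _)).trans (mem_filter.1 hz).2.le,
        by rw [card_fib_univ]; push_cast; exact le_rfl⟩)
    rw [Finset.card_univ] at this
    have h2 : (B2.card : ℝ) * 2 ^ V.card ≤ (Fintype.card (Om Γ α) / t ^ r) * 2 ^ V.card := by
      refine this.trans (le_of_eq ?_)
      ring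
    exact le_of_mul_le_mul_right h2 (by positivity)
  have hmap : ∀ z ∈ E, ∀ v ∈ E, Off V z v → ∀ a ∈ fib E A z,
      mix V a v ∈ fib E A v ∧ mix V (mix V a v) z = a := by
    intro z _ v hv hzv a ha
    obtain ⟨haE, hza⟩ := mem_fib.1 ha
    refine ⟨mem_fib.2 ⟨hyb a haE v hv ((hza.symm.mono subset_union_left).trans
      (hzv.mono subset_union_right)), hzv.1.symm.trans hza.1, fun i hi => ?_⟩,
      Prod.ext rfl (funext fun i => ?_)⟩
    · by_cases hiV : i ∈ V
      · simp [mix, hiV]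
      · simp only [mix, hiV, if_false]
        exact (hzv.2 i hiV).symm.trans (hza.2 i hi)
    · by_cases hiV : i ∈ V
      · simp only [mix, hiV, if_true]
        exact hza.2 i (Finset.disjoint_right.1 hAV hiV)
      · simp [mix, hiV]
  have k3 : (B3.card : ℝ) ≤ 4 * t ^ (10 * r) *
      ((1 / 2) ^ V.card + 8 * r * (1 / 2) ^ Fintype.card α) * Fintype.card (Om Γ α) := by
    have hs : 0 < t ^ r := by positivity
    have e0 : 1 / t ^ r * (1 / t) ^ (2 * r) = 1 / (t ^ r) ^ 3 := by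
      rw [one_div_pow, mul_comm 2 r, pow_mul]
      field_simp
    have e4 : (t ^ 4) ^ r = (t ^ r) ^ 4 := by rw [← pow_mul, ← pow_mul, mul_comm]
    have hdeg : 2 * (r : ℝ) ^ (2 * r) ≤ (t ^ 4) ^ r * (1 / t ^ r * (1 / t) ^ (2 * r)) := by
      have e : (t ^ 4) ^ r * (1 / t ^ r * (1 / t) ^ (2 * r)) = t ^ r := by
        rw [e0, e4]; field_simp
      rw [e]
      have a1 : (2 * (r : ℝ) ^ 2) ^ r ≤ t ^ r := pow_le_pow_left₀ (by positivity) hr r
      rw [mul_pow, ← pow_mul] at a1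
      have a2 : (2 : ℝ) ≤ 2 ^ r := le_self_pow₀ (by norm_num) (by omega)
      exact (mul_le_mul_of_nonneg_right a2 (by positivity)).trans a1
    have hb := hχ A V hAV r (t ^ 4) (1 / t ^ r) (1 / t) (by positivity) (by positivity)
      (by positivity) hdeg B3 (by
      intro z hz
      have hzE := hHE (mem_filter.1 hz).1
      refine ⟨fib E A z, fib H V z, fun a ha => (mem_fib.1 ha).2, fun v hv => (mem_fib.1 hv).2,
        (mem_filter.1 hz).2.1, (mem_filter.1 hz).2.2, fun v hv => ?_⟩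
      obtain ⟨hvH, hzv⟩ := mem_fib.1 hv
      obtain ⟨hvE, hv2⟩ := mem_filter.1 hvH
      have c1 : (fib E A z).card = (fib E A v).card :=
        Finset.card_nbij' (fun a => mix V a v) (fun a => mix V a z)
          (fun a ha => (hmap z hzE v hvE hzv a ha).1)
          (fun a ha => (hmap v hvE z hzE hzv.symm a ha).1)
          (fun a ha => (hmap z hzE v hvE hzv a ha).2)
          (fun a ha => (hmap v hvE z hzE hzv.symm a ha).2)
      have c2 : ∑ a ∈ fib E A z, χ (mix V a v) = ∑ a ∈ fib E A v, χ a :=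
        Finset.sum_nbij' (fun a => mix V a v) (fun a => mix V a z)
          (fun a ha => (hmap z hzE v hvE hzv a ha).1)
          (fun a ha => (hmap v hvE z hzE hzv.symm a ha).1)
          (fun a ha => (hmap z hzE v hvE hzv a ha).2)
          (fun a ha => (hmap v hvE z hzE hzv.symm a ha).2) (fun _ _ => rfl)
      rw [c1, c2]
      exact hv2)
    have e1 : (1 / t ^ r * (1 / t) ^ (2 * r)) ^ 2 * (t ^ 4) ^ (2 * r) = (t ^ r) ^ 2 := by
      rw [e0, mul_comm 2 r, pow_mul, e4]
      field_simp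
    have e2 : (2 : ℝ) ^ (2 * r * A.card) ≤ t ^ (10 * r) * (t ^ r) ^ 2 := by
      rw [← pow_mul, ← pow_add, show 10 * r + r * 2 = 6 * (2 * r) by ring, pow_mul t 6,
        mul_comm (2 * r), pow_mul]
      exact pow_le_pow_left₀ (by positivity) hA _
    rw [e1] at hb
    set c : ℝ := ((1 / 2) ^ V.card + 8 * r * (1 / 2) ^ Fintype.card α) with hc
    have hc0 : 0 ≤ c := by positivity
    have hN : (0 : ℝ) ≤ Fintype.card (Om Γ α) := Nat.cast_nonneg _
    have h4 : (B3.card : ℝ) * (t ^ r) ^ 2 ≤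
        (4 * t ^ (10 * r) * c * Fintype.card (Om Γ α)) * (t ^ r) ^ 2 := by
      refine hb.trans ?_
      have := mul_le_mul_of_nonneg_right e2 (mul_nonneg hc0 hN)
      linarith only [this]
    exact le_of_mul_le_mul_right h4 (by positivity)
  linarith only [h0, hcard, k1, k2, k3]

theorem rfinal_num (n m d μ r : ℕ) (hm : m = 6 * μ) (hμ : 3 ≤ μ) (hr1 : 1 ≤ r)
    (hn : 192 * r * μ ≤ n) (hd : 128 * r * d ≤ n) : ∃ p : ℝ, 0 ≤ p ∧ p ≤ 1 ∧
      1 / (2 : ℝ) ^ μ ≤ (1 - p) ^ d ∧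
      4 * ((2 : ℝ) ^ μ) ^ (10 * r) * ((1 - p + p * (1 / 2)) ^ (n - m) + 8 * r * (1 / 2) ^ n) ≤
        1 / (2 ^ μ) ^ r := by
  have hL1 : (0.69 : ℝ) < Real.log 2 := by have := Real.log_two_gt_d9; linarith only [this]
  have hL2 : Real.log 2 < 0.7 := by have := Real.log_two_lt_d9; linarith only [hL1, this]
  have h2k : ∀ k : ℕ, (2 : ℝ) ^ k = Real.exp (k * Real.log 2) := by
    intro k; rw [Real.exp_nat_mul, Real.exp_log (by norm_num)]
  have hmn : m ≤ n := by nlinarith only [hm, hμ, hn, hr1]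
  set t : ℝ := (2 : ℝ) ^ μ with ht
  have ht0 : 0 < t := by positivity
  have htk : ∀ k : ℕ, t ^ k = Real.exp (k * (μ * Real.log 2)) := by
    intro k; rw [ht, h2k, ← Real.exp_nat_mul]
  have hr1' : (1 : ℝ) ≤ r := by exact_mod_cast hr1
  have hμ' : (3 : ℝ) ≤ μ := by exact_mod_cast hμ
  have hn' : 192 * (r : ℝ) * μ ≤ n := by exact_mod_cast hn
  have hd' : 128 * (r : ℝ) * d ≤ n := by exact_mod_cast hd
  have hm' : (m : ℝ) = 6 * μ := by exact_mod_cast hm
  have hμ0 : (0 : ℝ) ≤ μ := by linarith only [hL1, hL2, hμ']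
  have hrμ' : (μ : ℝ) ≤ r * μ := le_mul_of_one_le_left hμ0 hr1'
  have hn0 : (0 : ℝ) < n := by linarith only [hL1, hL2, hμ', hn', hrμ']
  have hL0 : 0 ≤ Real.log 2 := by linarith only [hL1, hL2]
  have hq1 : 0.69 * ((r : ℝ) * μ) ≤ Real.log 2 * (r * μ) :=
    mul_le_mul_of_nonneg_right hL1.le (by linarith only [hL1, hL2, hμ', hrμ'])
  have hq2 : Real.log 2 * ((r : ℝ) * μ) ≤ 0.7 * (r * μ) :=
    mul_le_mul_of_nonneg_right hL2.le (by linarith only [hL1, hL2, hμ', hrμ'])
  have hq3 : Real.log 2 * 3 ≤ Real.log 2 * ((r : ℝ) * μ) :=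
    mul_le_mul_of_nonneg_left (by linarith only [hμ', hrμ']) hL0
  have hq4 : 0.69 * (μ : ℝ) ≤ Real.log 2 * μ := mul_le_mul_of_nonneg_right hL1.le hμ0
  have hq5 : (r : ℝ) * 3 ≤ r * μ := mul_le_mul_of_nonneg_left hμ' (by linarith only [hL1, hL2, hr1'])
  obtain ⟨p, hp⟩ : ∃ p : ℝ, p = 48 * r * μ / n := ⟨_, rfl⟩
  have hpn : p * n = 48 * r * μ := by rw [hp]; field_simp
  have hp0 : 0 ≤ p := by rw [hp]; positivity
  have hp4 : p ≤ 1 / 4 := by
    rw [hp, div_le_iff₀ hn0]; linarith only [hn']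
  refine ⟨p, hp0, by linarith only [hL1, hL2, hp4], ?_, ?_⟩
  · have a1 : Real.exp (-(4 / 3 * p)) ≤ 1 - p := by
      rw [Real.exp_neg, inv_le_comm₀ (Real.exp_pos _) (by linarith only [hL1, hL2, hp4])]
      refine le_trans ?_ (Real.add_one_le_exp _)
      rw [inv_le_iff_one_le_mul₀ (by linarith only [hL1, hL2, hp4])]
      have := mul_le_mul_of_nonneg_left hp4 hp0
      linarith only [this]
    refine le_trans ?_ (pow_le_pow_left₀ (Real.exp_pos _).le a1 _)
    rw [← Real.exp_nat_mul, ht, h2k, one_div, ← Real.exp_neg]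
    apply Real.exp_le_exp.2
    have b2 : d * p * n ≤ 3 / 8 * μ * n := by
      rw [mul_assoc, hpn]
      have := mul_le_mul_of_nonneg_left hd' hμ0
      linarith only [this]
    have b3 := le_of_mul_le_mul_right b2 hn0
    linarith only [hq4, b3]
  · have h8 : (1 - p + p * (1 / 2)) ^ (n - m) ≤ 1 / t ^ (12 * r) := by
      have a1 : 1 - p + p * (1 / 2) ≤ Real.exp (-(p / 2)) := by
        have := Real.add_one_le_exp (-(p / 2)); linarith only [this]
      refine (pow_le_pow_left₀ (by linarith only [hL1, hL2, hp4]) a1 _).trans ?_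
      rw [← Real.exp_nat_mul, htk, one_div, ← Real.exp_neg]
      apply Real.exp_le_exp.2
      push_cast [Nat.cast_sub hmn]
      have a2 : (n : ℝ) / 2 ≤ n - m := by linarith only [hn', hm', hrμ']
      have a3 : (n : ℝ) / 2 * (p / 2) ≤ (n - m) * (p / 2) :=
        mul_le_mul_of_nonneg_right a2 (by positivity)
      linarith only [hL1, hL2, hμ', hrμ', hq2, hpn, a3]
    have h9 : 8 * r * (1 / 2 : ℝ) ^ n ≤ 1 / t ^ (12 * r) := by
      have a1 : (8 : ℝ) * r ≤ Real.exp (8 * r) := by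
        have := Real.add_one_le_exp (8 * (r : ℝ)); linarith only [hL1, hL2, this]
      rw [one_div, inv_pow, h2k, ← Real.exp_neg, htk, one_div, ← Real.exp_neg]
      refine (mul_le_mul_of_nonneg_right a1 (Real.exp_pos _).le).trans ?_
      rw [← Real.exp_add]
      apply Real.exp_le_exp.2
      push_cast
      have := mul_le_mul_of_nonneg_right hn' hL0
      linarith only [hL1, hL2, hq1, hq3, hq5, this]
    have h10 : (8 : ℝ) ≤ t ^ r := by
      rw [htk, show (8 : ℝ) = 2 ^ 3 by norm_num, h2k]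
      apply Real.exp_le_exp.2
      push_cast
      linarith only [hq3]
    have a1 : 4 * t ^ (10 * r) * (1 / t ^ (12 * r) + 1 / t ^ (12 * r)) =
        8 / t ^ r * (1 / t ^ r) := by
      rw [show 12 * r = 10 * r + r + r by ring, pow_add, pow_add]
      field_simp
      ring
    have a2 : 8 / t ^ r ≤ 1 := by rw [div_le_one (by positivity)]; exact h10
    refine (mul_le_mul_of_nonneg_left (add_le_add h8 h9) (by positivity)).trans ?_
    rw [a1]
    exact mul_le_of_le_one_left (by positivity) a2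

theorem rfinal (χ : Om Γ α → ℝ) (h1 : ∀ z, |χ z| ≤ 1) (hχ : Extr χ)
    (G T : Finset (Om Γ α)) (A : Finset α) (P : Om Γ α → Finset α) (d μ r : ℕ)
    (hA : A.card = 6 * μ) (hT : ∀ z ∈ G, 2 ^ (6 * μ) ≤ (fib T A z).card)
    (hP : ∀ z ∈ G, (P z).card = d ∧ Disjoint (P z) A)
    (hyb : ∀ V : Finset α, Disjoint A V → ∀ z ∈ G, ∀ x ∈ G, Off (A ∪ V) z x →
      Disjoint (P z) V → mix V z x ∈ G ∧ P (mix V z x) = P z)
    (hμ : 3 ≤ μ) (hr1 : 1 ≤ r) (hr : 2 * r ^ 2 ≤ 2 ^ μ)
    (hn : 192 * r * μ ≤ Fintype.card α) (hd : 128 * r * d ≤ Fintype.card α) :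
    |∑ z ∈ G, χ z| ≤ (G.card + T.card) / 2 ^ μ +
      2 * 2 ^ μ / (2 ^ μ) ^ r * Fintype.card (Om Γ α) := by
  obtain ⟨p, hp0, hp1, hd1, hd2⟩ := rfinal_num (Fintype.card α) A.card d μ r hA hμ hr1 hn hd
  set t : ℝ := (2 : ℝ) ^ μ with ht
  have ht0 : 0 < t := by positivity
  set N : ℝ := (Fintype.card (Om Γ α) : ℝ) with hN'
  have hN0 : 0 ≤ N := Nat.cast_nonneg _
  have hex : ∀ g : Om Γ α → ℝ, Ex p (fun W : Finset α =>
      ∑ z ∈ G.filter (fun z => Disjoint (P z) (W \ A)), g z) = (1 - p) ^ d * ∑ z ∈ G, g z := by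
    intro g
    have e : (fun W : Finset α => ∑ z ∈ G.filter (fun z => Disjoint (P z) (W \ A)), g z) =
        fun W => ∑ z ∈ G, g z * (if Disjoint (P z) W then 1 else 0) := by
      funext W
      rw [Finset.sum_filter]
      refine Finset.sum_congr rfl (fun z hz => ?_)
      rw [mul_ite, mul_one, mul_zero]
      refine if_congr ⟨fun h => Finset.disjoint_left.2 (fun i hi hW => ?_),
        fun h => h.mono_right sdiff_subset⟩ rfl rfl
      exact Finset.disjoint_left.1 h hi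
        (mem_sdiff.2 ⟨hW, Finset.disjoint_left.1 (hP z hz).2 hi⟩)
    rw [e, Ex_sum, Finset.mul_sum]
    refine Finset.sum_congr rfl (fun z hz => ?_)
    rw [Ex_mul, Ex_disjoint, (hP z hz).1, mul_comm]
  have hfix : ∀ W : Finset α, |∑ z ∈ G.filter (fun z => Disjoint (P z) (W \ A)), χ z| ≤
      (∑ z ∈ G.filter (fun z => Disjoint (P z) (W \ A)), 1 / t) +
        ((T.card / t ^ 2 + N / t ^ r + 4 * t ^ (10 * r) * (8 * r * (1 / 2) ^ Fintype.card α) * N) +
          (4 * t ^ (10 * r) * N) * (1 / 2) ^ (W \ A).card) := by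
    intro W
    refine (rfinal_fixed χ h1 hχ _ T A (W \ A) disjoint_sdiff t r ht0
      (by rw [hA, ht, ← pow_mul, mul_comm]) (fun z hz => ?_) (fun z hz x hx hzx => ?_) hr1
      (by rw [ht]; exact_mod_cast hr)).trans (le_of_eq ?_)
    · rw [ht, ← pow_mul, mul_comm]
      exact_mod_cast hT z (mem_filter.1 hz).1
    · have := hyb (W \ A) disjoint_sdiff z (mem_filter.1 hz).1 x (mem_filter.1 hx).1 hzx
        (mem_filter.1 hz).2
      exact mem_filter.2 ⟨this.1, by rw [this.2]; exact (mem_filter.1 hz).2⟩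
    · rw [Finset.sum_const, nsmul_eq_mul]
      ring
  have hR : Ex p (fun W : Finset α =>
      (∑ z ∈ G.filter (fun z => Disjoint (P z) (W \ A)), 1 / t) +
        ((T.card / t ^ 2 + N / t ^ r + 4 * t ^ (10 * r) * (8 * r * (1 / 2) ^ Fintype.card α) * N) +
          (4 * t ^ (10 * r) * N) * (1 / 2) ^ (W \ A).card)) ≤
      (1 - p) ^ d * (G.card / t) + (T.card / t ^ 2 + 2 * (N / t ^ r)) := by
    rw [Ex_add, Ex_add, Ex_const, Ex_mul, Ex_pow_card_sdiff, hex (fun _ => 1 / t),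
      Finset.sum_const, nsmul_eq_mul]
    have := mul_le_mul_of_nonneg_right hd2 hN0
    have e : 1 / t ^ r * N = N / t ^ r := by ring
    have e' : (G.card : ℝ) * (1 / t) = G.card / t := by ring
    rw [e']
    linarith only [this, e]
  have hc0 : 0 < (1 - p) ^ d := lt_of_lt_of_le (by positivity) hd1
  have hup : (1 - p) ^ d * |∑ z ∈ G, χ z| ≤
      (1 - p) ^ d * (G.card / t) + (T.card / t ^ 2 + 2 * (N / t ^ r)) := by
    rw [← abs_of_pos hc0, ← abs_mul, ← hex χ, abs_of_pos hc0, abs_le]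
    constructor
    · have := Ex_mono hp0 hp1 (F := fun W : Finset α => (-1) *
        ∑ z ∈ G.filter (fun z => Disjoint (P z) (W \ A)), χ z) (fun W => by
          refine le_trans ?_ (hfix W)
          rw [neg_one_mul]
          exact neg_le_abs _)
      rw [Ex_mul] at this
      linarith only [hR, this]
    · exact (Ex_mono hp0 hp1 (fun W => (le_abs_self _).trans (hfix W))).trans hR
  have hc1 : 1 ≤ (1 - p) ^ d * t := by rwa [div_le_iff₀ ht0] at hd1
  have hB : 0 ≤ (T.card : ℝ) / t ^ 2 + 2 * (N / t ^ r) := by (clear * - ; positivity)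
  have hfin : (1 - p) ^ d * |∑ z ∈ G, χ z| ≤
      (1 - p) ^ d * (G.card / t + t * (T.card / t ^ 2 + 2 * (N / t ^ r))) := by
    have := le_mul_of_one_le_left hB hc1
    linarith only [hup, this]
  refine (le_of_mul_le_mul_left hfin hc0).trans (le_of_eq ?_)
  field_simp
  ring

end Pool.Agent.Work.MP_807b32_lc.TS
end

-- merged part: Pool.Agent.Work.MP_807b32_lc.TS.DetCore
section
/-!
The deterministic case: an intersection of few shallow decision tree events inside the accepted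
set is small.
-/

namespace Pool.Agent.Work.MP_807b32_lc.TS

open Finset
open scoped Classical

variable {α Γ : Type} [Fintype α] [DecidableEq α] [Fintype Γ]

/-- The coordinates that are not read outside `J`. -/
noncomputable def detFr {l : ℕ} (A : Fin l → Om Γ α → Finset α) (J : Finset (Fin l))
    (z : Om Γ α) : Finset α := univ.filter (fun i => ∀ j, j ∉ J → i ∉ A j z)

omit [Fintype Γ] in
theorem mem_detFr {l : ℕ} {A : Fin l → Om Γ α → Finset α} {J : Finset (Fin l)} {z : Om Γ α}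
    {i : α} : i ∈ detFr A J z ↔ ∀ j, j ∉ J → i ∉ A j z := by
  simp [detFr]

omit [Fintype Γ] in
theorem det_Ex_Fr {l w K : ℕ} (A : Fin l → Om Γ α → Finset α) (z : Om Γ α)
    (hw : ∀ j, (A j z).card ≤ w) (hK : 1 ≤ K) (hlw : l * w ≤ K * Fintype.card α) {q : ℝ}
    (hq0 : 0 ≤ q) (hq1 : q ≤ 1) :
    q ^ (2 * K) * (Fintype.card α / 2) ≤ Ex q (fun J => ((detFr A J z).card : ℝ)) := by
  set rd : α → Finset (Fin l) := fun i => univ.filter (fun j => i ∈ A j z) with hrd
  have h1 : (fun J => ((detFr A J z).card : ℝ)) =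
      fun J => ∑ i, if rd i ⊆ J then (1 : ℝ) else 0 := by
    funext J
    rw [detFr, Finset.card_filter]
    push_cast
    refine Finset.sum_congr rfl (fun i _ => if_congr ?_ rfl rfl)
    simp only [hrd, Finset.subset_iff, mem_filter, mem_univ, true_and]
    exact ⟨fun h j hj => by_contra (fun hJ => h j hJ hj), fun h j hJ hj => hJ (h hj)⟩
  have h2 : ∑ i, (rd i).card ≤ K * Fintype.card α := by
    have : ∑ i, (rd i).card = ∑ j, (A j z).card := by
      simp only [hrd, Finset.card_filter]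
      rw [Finset.sum_comm]
      refine Finset.sum_congr rfl (fun j _ => ?_)
      rw [← Finset.card_filter]
      congr 1
      ext i
      simp
    rw [this]
    calc ∑ j, (A j z).card ≤ ∑ _j : Fin l, w := Finset.sum_le_sum (fun j _ => hw j)
      _ = l * w := by simp
      _ ≤ _ := hlw
  have h2' : ∑ i, ((rd i).card : ℝ) ≤ K * Fintype.card α := by exact_mod_cast h2
  have hK' : (0 : ℝ) < K := by exact_mod_cast hK
  rw [h1, Ex_sum]
  simp only [Ex_subset]
  have h3 : ∀ i, q ^ (2 * K) * (1 - ((rd i).card : ℝ) / (2 * K)) ≤ q ^ (rd i).card := by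
    intro i
    by_cases hc : (rd i).card ≤ 2 * K
    · refine le_trans (mul_le_of_le_one_right (by positivity) ?_)
        (pow_le_pow_of_le_one hq0 hq1 hc)
      have : (0 : ℝ) ≤ ((rd i).card : ℝ) / (2 * K) := by (clear * - hK; positivity)
      linarith only [this]
    · refine le_trans (mul_nonpos_of_nonneg_of_nonpos (by positivity) ?_) (by positivity)
      have : (2 * K : ℝ) ≤ (rd i).card := by exact_mod_cast (not_le.1 hc).le
      rw [sub_nonpos, le_div_iff₀ (by positivity)]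
      linarith only [this]
  refine le_trans ?_ (Finset.sum_le_sum (fun i _ => h3 i))
  rw [← Finset.mul_sum, Finset.sum_sub_distrib, ← Finset.sum_div]
  refine mul_le_mul_of_nonneg_left ?_ (by positivity)
  have : (∑ i, ((rd i).card : ℝ)) / (2 * K) ≤ Fintype.card α / 2 := by
    rw [div_le_iff₀ (by positivity)]
    linarith only [h2']
  simp only [Finset.sum_const, Finset.card_univ, nsmul_eq_mul, mul_one]
  linarith only [this]

omit [Fintype Γ] in
/-- A small set `J` of segments such that many points have many coordinates read only in `J`. -/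
theorem det_exists_J {l w K a : ℕ} (A : Fin l → Om Γ α → Finset α)
    (hw : ∀ j z, (A j z).card ≤ w) (X : Finset (Om Γ α)) (hX : X.Nonempty) (hK : 1 ≤ K)
    (hl : l = 2 ^ a * (2 * a * K + 2)) (hlw : l * w ≤ K * Fintype.card α)
    (hn : 0 < Fintype.card α) :
    ∃ J : Finset (Fin l), J.card ≤ 4 * (2 * a * K + 2) ∧
      (1 / 2 : ℝ) ^ (2 * a * K + 2) / 2 * X.card ≤
        ((X.filter (fun z => ⌈(1 / 2 : ℝ) ^ (2 * a * K + 2) * Fintype.card α / 2⌉₊ ≤
          (detFr A J z).card)).card : ℝ) := by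
  set γ : ℝ := (1 / 2 : ℝ) ^ (2 * a * K + 2) with hγ
  set n : ℝ := (Fintype.card α : ℝ) with hn'
  have hn0 : 0 < n := by rw [hn']; exact_mod_cast hn
  have hX0 : (0 : ℝ) < X.card := by exact_mod_cast hX.card_pos
  have hγ0 : 0 < γ := by positivity
  set q : ℝ := (1 / 2 : ℝ) ^ a with hq
  have hq0 : 0 ≤ q := by positivity
  have hq1 : q ≤ 1 := pow_le_one₀ (by norm_num) (by norm_num)
  have hql : q * Fintype.card (Fin l) = ((2 * a * K + 2 : ℕ) : ℝ) := by
    rw [Fintype.card_fin, hl, hq]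
    push_cast
    rw [← mul_assoc, ← mul_pow]
    norm_num
  have hq2 : q ^ (2 * K) = 4 * γ := by
    rw [hq, hγ, ← pow_mul, pow_add, show a * (2 * K) = 2 * a * K by ring]
    ring
  have htail : Real.exp (-(q * Fintype.card (Fin l))) ≤ γ := by
    rw [hql, ← mul_neg_one, Real.exp_nat_mul]
    refine pow_le_pow_left₀ (Real.exp_pos _).le ?_ _
    rw [Real.exp_neg, one_div]
    refine inv_anti₀ (by norm_num) ?_
    have := Real.add_one_le_exp 1
    linarith only [this]
  obtain ⟨J, hJ⟩ := exists_Ex_le hq0 hq1 (fun J : Finset (Fin l) =>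
    ∑ z ∈ X, ((detFr A J z).card : ℝ) -
      n * X.card * (if 4 * q * Fintype.card (Fin l) < (J.card : ℝ) then 1 else 0))
  rw [Ex_sub, Ex_mul, Ex_sum] at hJ
  have h1 : X.card * (4 * γ * (n / 2)) ≤ ∑ z ∈ X, Ex q (fun J => ((detFr A J z).card : ℝ)) := by
    have := Finset.card_nsmul_le_sum X _ _
      (fun z _ => det_Ex_Fr A z (fun j => hw j z) hK hlw hq0 hq1)
    rwa [nsmul_eq_mul, hq2] at this
  have h2 := mul_le_mul_of_nonneg_left ((Ex_tail hq0 hq1).trans htail)
    (mul_nonneg hn0.le hX0.le)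
  have hle : ∀ z, ((detFr A J z).card : ℝ) ≤ n := fun z => by
    rw [hn']; exact_mod_cast Finset.card_le_univ _
  have hpos : 0 < n * X.card * γ := by positivity
  by_cases hc : 4 * q * Fintype.card (Fin l) < (J.card : ℝ)
  · exfalso
    rw [if_pos hc] at hJ
    have := Finset.sum_le_card_nsmul X _ _ (fun z _ => hle z)
    rw [nsmul_eq_mul] at this
    linarith only [hJ, h1, h2, hpos, this]
  rw [if_neg hc] at hJ
  refine ⟨J, ?_, ?_⟩
  · rw [not_lt, mul_assoc, hql] at hc
    exact_mod_cast hc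
  · have h3 : ∑ z ∈ X, ((detFr A J z).card : ℝ) ≤
        ∑ z ∈ X, (γ * n / 2 + n * if ⌈γ * n / 2⌉₊ ≤ (detFr A J z).card then 1 else 0) := by
      refine Finset.sum_le_sum (fun z _ => ?_)
      split_ifs with h
      · have := hle z
        have : 0 ≤ γ * n / 2 := by positivity
        linarith
      · have := Nat.lt_ceil.1 (not_le.1 h)
        linarith only [this]
    rw [Finset.sum_add_distrib, ← Finset.mul_sum, Finset.sum_const, nsmul_eq_mul,
      Finset.sum_boole] at h3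
    refine le_of_mul_le_mul_left ?_ hn0
    linarith only [hJ, h1, h2, h3]

omit [Fintype Γ] in
theorem det_sum_card (Y : Finset (Om Γ α)) (F : Om Γ α → Finset α) (u m : ℕ)
    (hF : ∀ z ∈ Y, (F z).card = u) :
    ∑ B ∈ powersetCard m (univ : Finset α), (Y.filter (fun z => B ⊆ F z)).card =
      u.choose m * Y.card := by
  simp only [Finset.card_filter]
  rw [Finset.sum_comm, mul_comm, ← smul_eq_mul, ← Finset.sum_const]
  refine Finset.sum_congr rfl (fun z hz => ?_)
  rw [← Finset.card_filter, ← hF z hz, ← Finset.card_powersetCard]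
  congr 1
  ext B
  simp [mem_powersetCard, and_comm]

theorem det_choose (n u m : ℕ) (θ : ℝ) (hθ : 0 ≤ θ) (h : θ * n + m ≤ u) :
    θ ^ m * n.choose m ≤ u.choose m := by
  have h1 : (n.choose m : ℝ) ≤ (n : ℝ) ^ m / m.factorial := Nat.choose_le_pow_div m n
  have h2 : (((u + 1 - m : ℕ) : ℝ) ^ m) / m.factorial ≤ u.choose m := Nat.pow_le_choose m u
  have h0 : 0 ≤ θ * n := by positivity
  have hm : m ≤ u + 1 := by
    have : (m : ℝ) ≤ u := by linarith
    have : m ≤ u := by exact_mod_cast this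
    omega
  have h3 : θ * n ≤ ((u + 1 - m : ℕ) : ℝ) := by
    push_cast [Nat.cast_sub hm]
    linarith only [h]
  refine le_trans ?_ h2
  refine (mul_le_mul_of_nonneg_left h1 (by positivity)).trans ?_
  rw [← mul_div_assoc, ← mul_pow]
  exact div_le_div_of_nonneg_right (pow_le_pow_left₀ h0 h3 m) (by positivity)

theorem det_core (f : Om Γ α → Prop) (hf : Disp f) (l w : ℕ)
    (A : Fin l → Om Γ α → Finset α) (Q : Fin l → Om Γ α → Prop)
    (stem : ∀ j z x, On (A j z) z x → A j x = A j z ∧ (Q j z → Q j x))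
    (hw : ∀ j z, (A j z).card ≤ w)
    (X : Finset (Om Γ α)) (hX : ∀ z, z ∈ X ↔ ∀ j, Q j z) (hXf : ∀ z ∈ X, f z)
    (K a μ : ℕ) (hK : 1 ≤ K) (ha : 512 * (8 * a * K + 19) * K ≤ 2 ^ a)
    (hl : l = 2 ^ a * (2 * a * K + 2)) (hlw : l * w ≤ K * Fintype.card α)
    (hμ : 2 ^ (2 * a * K + 6) * μ ≤ Fintype.card α) :
    X.card * 2 ^ μ ≤ 2 ^ (2 * a * K + 4) * Fintype.card (Om Γ α) := by
  by_contra hcon
  rw [not_le] at hcon
  have hXN : X.card ≤ Fintype.card (Om Γ α) := Finset.card_le_univ X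
  have hXne : X.Nonempty := by
    rw [← Finset.card_pos]
    by_contra h0
    have : X.card = 0 := by omega
    simp [this] at hcon
  have hμ1 : 2 * a * K + 4 < μ := by
    have h1 : 2 ^ (2 * a * K + 4) * X.card < 2 ^ μ * X.card :=
      lt_of_le_of_lt (Nat.mul_le_mul_left _ hXN) (by rwa [mul_comm (2 ^ μ)])
    exact (Nat.pow_lt_pow_iff_right (by norm_num)).1 (Nat.lt_of_mul_lt_mul_right h1)
  have hn0 : 0 < Fintype.card α := lt_of_lt_of_le (Nat.mul_pos (by positivity) (by omega)) hμ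
  obtain ⟨J, hJ, hX'⟩ := det_exists_J A hw X hXne hK hl hlw hn0
  set γ : ℝ := (1 / 2 : ℝ) ^ (2 * a * K + 2) with hγ
  set n : ℝ := (Fintype.card α : ℝ) with hn'
  set N : ℝ := (Fintype.card (Om Γ α) : ℝ) with hN'
  set u : ℕ := ⌈γ * n / 2⌉₊ with hu
  have hγ0 : 0 < γ := by positivity
  have hN0 : 0 < N := by
    rw [hN']; exact_mod_cast lt_of_lt_of_le hXne.card_pos hXN
  have hpick : ∀ F : Finset α, ∃ E : Finset α, E ⊆ F ∧ (u ≤ F.card → E.card = u) := by
    intro F
    by_cases h : u ≤ F.card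
    · obtain ⟨E, h1, h2⟩ := Finset.exists_subset_card_eq h
      exact ⟨E, h1, fun _ => h2⟩
    · exact ⟨∅, empty_subset _, fun h' => absurd h' h⟩
  choose pick hp1 hp2 using hpick
  set X' := X.filter (fun z => u ≤ (detFr A J z).card) with hX'd
  set Y := (univ : Finset (Om Γ α)).filter (fun z => u ≤ (detFr A J z).card) with hY
  set S : Finset α → Finset (Om Γ α) := fun B => X'.filter (fun z => B ⊆ pick (detFr A J z))
    with hS
  set T : Finset α → Finset (Om Γ α) := fun B => Y.filter (fun z => B ⊆ pick (detFr A J z))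
    with hT
  set G : Finset α → Finset (Om Γ α) := fun B =>
    (S B).filter (fun z => (2 : ℝ) ^ (3 * μ) ≤ ((fib (S B) B z).card : ℝ)) with hG
  have hdis : ∀ (B : Finset α) (z : Om Γ α), B ⊆ pick (detFr A J z) → ∀ j, j ∉ J →
      Disjoint B (A j z) := fun B z hB j hj =>
    Finset.disjoint_left.2 (fun i hi => mem_detFr.1 (hp1 _ (hB hi)) j hj)
  have hclos : ∀ (B : Finset α) (z x : Om Γ α), B ⊆ pick (detFr A J z) → Off B z x →
      detFr A J x = detFr A J z := by
    intro B z x hB hzx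
    ext i
    simp only [mem_detFr]
    refine forall_congr' (fun j => forall_congr' (fun hj => ?_))
    rw [(stem j z x (hzx.on (hdis B z hB j hj))).1]
  have hbad : ∀ B ∈ powersetCard (4 * μ) (univ : Finset α),
      ((S B).card : ℝ) ≤ (G B).card + (T B).card / 2 ^ μ := by
    intro B hB
    have hBc := (mem_powersetCard.1 hB).2
    have h1 := Finset.card_filter_add_card_filter_not (s := S B)
      (fun z => (2 : ℝ) ^ (3 * μ) ≤ ((fib (S B) B z).card : ℝ))
    have h2 := card_le_of_fib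
      ((S B).filter (fun z => ¬ (2 : ℝ) ^ (3 * μ) ≤ ((fib (S B) B z).card : ℝ))) (T B) B
      (2 ^ (3 * μ)) (2 ^ (4 * μ)) (by positivity) (by
        intro z hz
        obtain ⟨hzS, hz2⟩ := mem_filter.1 hz
        obtain ⟨hzX, hzB⟩ := mem_filter.1 hzS
        constructor
        · refine le_trans ?_ (not_le.1 hz2).le
          exact_mod_cast Finset.card_le_card
            (fun x hx => mem_fib.2 ⟨(mem_filter.1 (mem_fib.1 hx).1).1, (mem_fib.1 hx).2⟩)
        · have h3 := card_fib_univ B z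
          rw [hBc] at h3
          have h4 : fib univ B z ⊆ fib (T B) B z := by
            intro x hx
            have hx' := (mem_fib.1 hx).2
            have e := hclos B z x hzB hx'
            refine mem_fib.2 ⟨mem_filter.2 ⟨mem_filter.2 ⟨mem_univ _, ?_⟩, ?_⟩, hx'⟩
            · rw [e]; exact (mem_filter.1 hzX).2
            · rw [e]; exact hzB
          have h5 := Finset.card_le_card h4
          rw [h3] at h5
          exact_mod_cast h5)
    have h1' : ((G B).card : ℝ) + (((S B).filter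
        (fun z => ¬ (2 : ℝ) ^ (3 * μ) ≤ ((fib (S B) B z).card : ℝ))).card : ℝ) = (S B).card := by
      rw [← Nat.cast_add]
      exact congrArg Nat.cast h1
    have h6 : (((S B).filter
        (fun z => ¬ (2 : ℝ) ^ (3 * μ) ≤ ((fib (S B) B z).card : ℝ))).card : ℝ) ≤
        (T B).card / 2 ^ μ := by
      rw [le_div_iff₀ (by positivity)]
      rw [show 4 * μ = μ + 3 * μ by ring, pow_add, ← mul_assoc, mul_comm ((2 : ℝ) ^ (3 * μ))] at h2
      exact le_of_mul_le_mul_right h2 (by positivity)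
    linarith only [h1', h6]
  set r : ℕ := 8 * a * K + 19 with hr
  have hra : 512 * r ≤ 2 ^ a := le_trans (Nat.le_mul_of_pos_right _ hK) ha
  have haK : a ≤ a * K := Nat.le_mul_of_pos_right _ hK
  have hfin : ∀ B ∈ powersetCard (4 * μ) (univ : Finset α),
      ((G B).card : ℝ) ≤ (γ / 4) ^ (4 * μ) * (N / 2 ^ μ) := by
    intro B hB
    have hBc := (mem_powersetCard.1 hB).2
    have h := final f hf (G B) B (fun z => J.biUnion (fun j => A j z))
      ((4 * (2 * a * K + 2) * w : ℕ) : ℝ) μ r (by rw [hBc]; push_cast; exact le_rfl)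
      (by
        intro z _
        have : (J.biUnion (fun j => A j z)).card ≤ 4 * (2 * a * K + 2) * w :=
          (Finset.card_biUnion_le_card_mul J _ w (fun j _ => hw j z)).trans
            (Nat.mul_le_mul_right _ hJ)
        exact_mod_cast this)
      (by
        intro z hz
        have h1 := (mem_filter.1 hz).2
        have h2 : fib (S B) B z ⊆ fib (G B) B z := by
          intro x hx
          refine mem_fib.2 ⟨mem_filter.2 ⟨(mem_fib.1 hx).1, ?_⟩, (mem_fib.1 hx).2⟩
          rw [← fib_congr (mem_fib.1 hx).2]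
          exact h1
        have h3 : ((fib (S B) B z).card : ℝ) ≤ (fib (G B) B z).card := by
          exact_mod_cast Finset.card_le_card h2
        rw [show (3 : ℝ) * (μ : ℝ) = ((3 * μ : ℕ) : ℝ) by push_cast; ring, Real.rpow_natCast]
        exact h1.trans h3)
      (by
        intro V hV z hz x hx hzx hP
        have hz' := mem_filter.1 (mem_filter.1 hz).1
        have hx' := mem_filter.1 (mem_filter.1 hx).1
        refine hXf _ ((hX _).2 (fun j => ?_))
        by_cases hj : j ∈ J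
        · refine (stem j z _ ((off_mix V z x).on ?_)).2 ((hX z).1 (mem_filter.1 hz'.1).1 j)
          exact (hP.mono_left (Finset.subset_biUnion_of_mem (fun j => A j z) hj)).symm
        · refine (stem j x (mix V z x) (Off.on (B := B) ⟨hzx.1.symm, fun i hi => ?_⟩
            (hdis B x hx'.2 j hj))).2 ((hX x).1 (mem_filter.1 hx'.1).1 j)
          by_cases hiV : i ∈ V
          · simp [mix, hiV]
          · simp only [mix, hiV, if_false]
            exact (hzx.2 i (by simp [hi, hiV])).symm)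
      (by exact_mod_cast (by omega : 3 ≤ μ)) (by omega)
      (by
        rw [Real.rpow_natCast]
        have h1 : 2 * r ^ 2 ≤ 2 ^ μ := by
          calc 2 * r ^ 2 ≤ (512 * r) ^ 2 := by
                rw [mul_pow]; exact Nat.mul_le_mul_right _ (by norm_num)
            _ ≤ (2 ^ a) ^ 2 := Nat.pow_le_pow_left hra 2
            _ = 2 ^ (a * 2) := by rw [← pow_mul]
            _ ≤ 2 ^ μ := Nat.pow_le_pow_right (by norm_num) (by linarith only [hμ1, haK])
        exact_mod_cast h1)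
      (by
        have h1 : 128 * r * μ ≤ Fintype.card α := by
          refine le_trans (Nat.mul_le_mul_right _ ?_) hμ
          calc 128 * r ≤ 2 ^ a := by omega
            _ ≤ _ := Nat.pow_le_pow_right (by norm_num) (by linarith only [haK])
        exact_mod_cast h1)
      (by
        have h1 : 128 * r * (4 * (2 * a * K + 2) * w) ≤ Fintype.card α := by
          refine Nat.le_of_mul_le_mul_left ?_ (show 0 < K from hK)
          refine le_trans ?_ hlw
          rw [hl]
          calc K * (128 * r * (4 * (2 * a * K + 2) * w))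
              = (512 * r * K) * ((2 * a * K + 2) * w) := by ring
            _ ≤ 2 ^ a * ((2 * a * K + 2) * w) := Nat.mul_le_mul_right _ ha
            _ = _ := by ring
        exact_mod_cast h1)
    refine h.trans (le_of_eq ?_)
    have e1 : (2 - (r : ℝ)) * μ = -(((2 * a * K + 4) * (4 * μ) + μ : ℕ) : ℝ) := by
      rw [hr]; push_cast; ring
    have e2 : γ / 4 = ((2 : ℝ) ^ (2 * a * K + 4))⁻¹ := by
      rw [hγ, one_div, inv_pow, show 2 * a * K + 4 = (2 * a * K + 2) + 2 by ring,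
        pow_add (2 : ℝ) (2 * a * K + 2) 2]
      field_simp
      norm_num
    rw [e1, Real.rpow_neg (by norm_num), Real.rpow_natCast, e2, inv_pow, ← pow_mul, pow_add]
    field_simp
    rfl
  have hS1 := det_sum_card X' (fun z => pick (detFr A J z)) u (4 * μ)
    (fun z hz => hp2 _ (mem_filter.1 hz).2)
  have hT1 := det_sum_card Y (fun z => pick (detFr A J z)) u (4 * μ)
    (fun z hz => hp2 _ (mem_filter.1 hz).2)
  have hS2 : ∑ B ∈ powersetCard (4 * μ) (univ : Finset α), ((S B).card : ℝ) =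
      u.choose (4 * μ) * X'.card := by exact_mod_cast hS1
  have hT2 : ∑ B ∈ powersetCard (4 * μ) (univ : Finset α), ((T B).card : ℝ) =
      u.choose (4 * μ) * Y.card := by exact_mod_cast hT1
  have hYN : (Y.card : ℝ) ≤ N := by rw [hN']; exact_mod_cast Finset.card_le_univ Y
  have hsum := Finset.sum_le_sum hbad
  rw [Finset.sum_add_distrib, ← Finset.sum_div, hS2, hT2] at hsum
  have hsum2 := Finset.sum_le_card_nsmul _ _ _ hfin
  rw [Finset.card_powersetCard, Finset.card_univ, nsmul_eq_mul] at hsum2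
  have hγ2 : γ * 2 ^ (2 * a * K + 2) = 1 := by
    rw [hγ, ← mul_pow]; norm_num
  have hμn : 16 * (μ : ℝ) ≤ γ * n := by
    have h1 : (2 : ℝ) ^ (2 * a * K + 6) * μ ≤ n := by rw [hn']; exact_mod_cast hμ
    have h2 := mul_le_mul_of_nonneg_left h1 hγ0.le
    rw [show 2 * a * K + 6 = (2 * a * K + 2) + 4 by ring, pow_add, ← mul_assoc, ← mul_assoc,
      hγ2] at h2
    linarith only [h2]
  have hu1 : γ * n / 2 ≤ u := Nat.le_ceil _
  have hch := det_choose (Fintype.card α) u (4 * μ) (γ / 4) (by positivity)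
    (by push_cast; linarith only [hμn, hu1])
  have hC0 : (0 : ℝ) < u.choose (4 * μ) := by
    have : ((4 * μ : ℕ) : ℝ) ≤ u := by
      push_cast
      have : (0 : ℝ) ≤ μ := Nat.cast_nonneg _
      linarith only [hμn, hu1]
    exact_mod_cast Nat.choose_pos (by exact_mod_cast this)
  have hbig : 2 * (N / 2 ^ μ) < X'.card := by
    refine lt_of_lt_of_le ?_ hX'
    have h1 : (2 : ℝ) ^ (2 * a * K + 4) * N < X.card * 2 ^ μ := by rw [hN']; exact_mod_cast hcon
    have h2 := mul_lt_mul_of_pos_left h1 hγ0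
    rw [show 2 * a * K + 4 = (2 * a * K + 2) + 2 by ring, pow_add, ← mul_assoc, ← mul_assoc,
      hγ2] at h2
    rw [← mul_div_assoc, div_lt_iff₀ (by positivity)]
    linarith only [h2]
  have h7 : (u.choose (4 * μ) : ℝ) * Y.card / 2 ^ μ ≤ u.choose (4 * μ) * (N / 2 ^ μ) := by
    rw [mul_div_assoc]
    gcongr
  have h8 := mul_le_mul_of_nonneg_right hch (show 0 ≤ N / 2 ^ μ by (clear * - hN0; positivity))
  have h9 := mul_lt_mul_of_pos_left hbig hC0
  linarith only [hsum, hsum2, h7, h8, h9]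

end Pool.Agent.Work.MP_807b32_lc.TS
end

-- merged part: Pool.Agent.Work.MP_807b32_lc.TS.RCore
section
/-!
Two-sided error: an intersection of many shallow decision tree events has small correlation with
an extractor.
-/

namespace Pool.Agent.Work.MP_807b32_lc.TS

open Finset
open scoped Classical

variable {α Γ : Type} [Fintype α] [DecidableEq α] [Fintype Γ]

omit [Fintype Γ] in
/-- Second moment bound for the number of coordinates read only inside `J`. -/
theorem rand_cheb {l w K : ℕ} (A : Fin l → Om Γ α → Finset α) (z : Om Γ α)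
    (hw : ∀ j, (A j z).card ≤ w) (hK : 1 ≤ K) (hlw : l * w ≤ K * Fintype.card α)
    (hn : 0 < Fintype.card α) {q : ℝ} (hq0 : 0 < q) (hq1 : q ≤ 1) :
    Ex q (fun J => if ((detFr A J z).card : ℝ) < q ^ (2 * K) * Fintype.card α / 4 then 1 else 0) ≤
      16 * K * w / (q ^ (2 * K) * Fintype.card α) := by
  set n : ℝ := (Fintype.card α : ℝ) with hn'
  have hn0 : 0 < n := by rw [hn']; exact_mod_cast hn
  have hK' : (0 : ℝ) < K := by exact_mod_cast hK
  set rd : α → Finset (Fin l) := fun i => univ.filter (fun j => i ∈ A j z) with hrd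
  set L : Finset α := univ.filter (fun i => (rd i).card ≤ 2 * K) with hL
  have h2 : ∑ i, (rd i).card ≤ K * Fintype.card α := by
    have : ∑ i, (rd i).card = ∑ j, (A j z).card := by
      simp only [hrd, Finset.card_filter]
      rw [Finset.sum_comm]
      refine Finset.sum_congr rfl (fun j _ => ?_)
      rw [← Finset.card_filter]
      congr 1
      ext i
      simp
    rw [this]
    calc ∑ j, (A j z).card ≤ ∑ _j : Fin l, w := Finset.sum_le_sum (fun j _ => hw j)
      _ = l * w := by simp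
      _ ≤ _ := hlw
  have h2' : ∑ i, ((rd i).card : ℝ) ≤ K * n := by rw [hn']; exact_mod_cast h2
  have hLn : n / 2 ≤ L.card := by
    have a1 : ∑ i, (2 * K - 2 * K * if (rd i).card ≤ 2 * K then (1 : ℝ) else 0) ≤
        ∑ i, ((rd i).card : ℝ) := by
      refine Finset.sum_le_sum (fun i _ => ?_)
      split_ifs with h
      · simp
      · have : (2 * K : ℝ) ≤ (rd i).card := by exact_mod_cast (not_le.1 h).le
        linarith only [this]
    rw [Finset.sum_sub_distrib, Finset.sum_const, ← Finset.mul_sum, Finset.sum_boole,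
      Finset.card_univ, nsmul_eq_mul] at a1
    refine le_of_mul_le_mul_left ?_ hK'
    linarith only [h2', a1]
  set M : ℝ := ∑ i ∈ L, q ^ (rd i).card with hM
  have hM1 : q ^ (2 * K) * n / 2 ≤ M := by
    have := Finset.card_nsmul_le_sum L (fun i => q ^ (rd i).card) (q ^ (2 * K))
      (fun i hi => pow_le_pow_of_le_one hq0.le hq1 (mem_filter.1 hi).2)
    rw [nsmul_eq_mul] at this
    have a2 := mul_le_mul_of_nonneg_right hLn (pow_pos hq0 (2 * K)).le
    linarith only [this, a2]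
  have hqn : 0 < q ^ (2 * K) * n := by positivity
  have hM0 : 0 < M := by linarith only [hM1, hqn]
  set Y : Finset (Fin l) → ℝ := fun J => ∑ i ∈ L, if rd i ⊆ J then (1 : ℝ) else 0 with hY
  have hYF : ∀ J, Y J ≤ ((detFr A J z).card : ℝ) := by
    intro J
    simp only [hY]
    rw [Finset.sum_boole]
    refine Nat.cast_le.2 (Finset.card_le_card (fun i hi => mem_detFr.2 (fun j hj hij => hj ?_)))
    exact (mem_filter.1 hi).2 (mem_filter.2 ⟨mem_univ _, hij⟩)
  have hEY : Ex q Y = M := by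
    simp only [hY]
    rw [Ex_sum]
    simp only [Ex_subset, hM]
  have hEY2 : Ex q (fun J => Y J ^ 2) ≤ M ^ 2 + 2 * K * w * M := by
    have e : (fun J => Y J ^ 2) = fun J => ∑ i ∈ L, ∑ i' ∈ L,
        if rd i ∪ rd i' ⊆ J then (1 : ℝ) else 0 := by
      funext J
      simp only [hY, sq, Finset.sum_mul_sum]
      refine Finset.sum_congr rfl (fun i _ => Finset.sum_congr rfl (fun i' _ => ?_))
      by_cases a1 : rd i ⊆ J <;> by_cases a2 : rd i' ⊆ J <;> simp [a1, a2, Finset.union_subset_iff]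
    rw [e, Ex_sum]
    simp only [Ex_sum, Ex_subset]
    have a3 : ∀ i ∈ L, ∑ i' ∈ L, q ^ (rd i ∪ rd i').card ≤
        q ^ (rd i).card * M + 2 * K * w * q ^ (rd i).card := by
      intro i hi
      have b1 : ∀ i' ∈ L, q ^ (rd i ∪ rd i').card ≤ q ^ (rd i).card * q ^ (rd i').card +
          q ^ (rd i).card * if i' ∈ (rd i).biUnion (fun j => A j z) then 1 else 0 := by
        intro i' _
        split_ifs with h
        · have c1 : q ^ (rd i ∪ rd i').card ≤ q ^ (rd i).card :=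
            pow_le_pow_of_le_one hq0.le hq1 (Finset.card_le_card subset_union_left)
          have c2 : 0 ≤ q ^ (rd i).card * q ^ (rd i').card := by positivity
          linarith only [c1, c2]
        · rw [Finset.card_union_of_disjoint, pow_add, mul_zero, add_zero]
          refine Finset.disjoint_left.2 (fun j hj hj' => h (mem_biUnion.2 ⟨j, hj, ?_⟩))
          exact (mem_filter.1 hj').2
      refine (Finset.sum_le_sum b1).trans ?_
      rw [Finset.sum_add_distrib, ← Finset.mul_sum, ← Finset.mul_sum, Finset.sum_boole]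
      have b2 : (L.filter (fun i' => i' ∈ (rd i).biUnion (fun j => A j z))).card ≤ 2 * K * w :=
        (Finset.card_le_card (fun i' hi' => (mem_filter.1 hi').2)).trans
          ((Finset.card_biUnion_le_card_mul _ _ w (fun j _ => hw j)).trans
            (Nat.mul_le_mul_right _ (mem_filter.1 hi).2))
      have b3 : ((L.filter (fun i' => i' ∈ (rd i).biUnion (fun j => A j z))).card : ℝ) ≤
          2 * K * w := by exact_mod_cast b2
      have b4 := mul_le_mul_of_nonneg_left b3 (pow_pos hq0 (rd i).card).le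
      linarith only [b4]
    refine (Finset.sum_le_sum a3).trans (le_of_eq ?_)
    rw [Finset.sum_add_distrib, ← Finset.sum_mul, ← Finset.mul_sum]
    ring
  have hpt : ∀ J, (if ((detFr A J z).card : ℝ) < q ^ (2 * K) * n / 4 then (1 : ℝ) else 0) ≤
      4 / M ^ 2 * (Y J ^ 2 - 2 * M * Y J + M ^ 2) := by
    intro J
    have e : Y J ^ 2 - 2 * M * Y J + M ^ 2 = (M - Y J) ^ 2 := by ring
    rw [e]
    split_ifs with h
    · have a1 : M / 2 ≤ M - Y J := by have := hYF J; linarith only [hM1, h, this]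
      have a2 : (M / 2) ^ 2 ≤ (M - Y J) ^ 2 := pow_le_pow_left₀ (by (clear * - hM0; positivity)) a1 2
      rw [div_mul_eq_mul_div, le_div_iff₀ (by (clear * - hM0; positivity))]
      linarith only [a2]
    · (clear * - hM0; positivity)
  refine (Ex_mono hq0.le hq1 hpt).trans ?_
  rw [Ex_mul, Ex_add, Ex_sub, Ex_mul, Ex_const, hEY]
  have a1 : 4 / M ^ 2 * (Ex q (fun J => Y J ^ 2) - 2 * M * M + M ^ 2) ≤
      4 / M ^ 2 * (2 * K * w * M) :=
    mul_le_mul_of_nonneg_left (by linarith only [hEY2]) (by (clear * - hM0; positivity))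
  refine a1.trans ?_
  have a2 : 4 / M ^ 2 * (2 * K * w * M) = 16 * K * w / (2 * M) := by
    field_simp
    ring
  rw [a2]
  exact div_le_div_of_nonneg_left (by positivity) hqn (by linarith only [hM1])

omit [Fintype Γ] in
/-- A small set `J` of segments such that almost all points have many coordinates read only in
`J`. -/
theorem rand_exists_J {l w K a D : ℕ} (A : Fin l → Om Γ α → Finset α)
    (hw : ∀ j z, (A j z).card ≤ w) (X : Finset (Om Γ α)) (hX : X.Nonempty) (hK : 1 ≤ K)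
    (hD : 2 ≤ D) (hl : l = 32 * K ^ 2 * D * 2 ^ (2 * a * K))
    (hlw : l * w ≤ K * Fintype.card α) (hn : 0 < Fintype.card α) :
    ∃ J : Finset (Fin l), 2 ^ a * J.card ≤ 4 * l ∧
      ((X.filter (fun z => ¬ ⌈(1 / 2 : ℝ) ^ (2 * a * K) * Fintype.card α / 4⌉₊ ≤
          (detFr A J z).card)).card : ℝ) ≤ X.card / D := by
  set n : ℝ := (Fintype.card α : ℝ) with hn'
  have hn0 : 0 < n := by rw [hn']; exact_mod_cast hn
  have hX0 : (0 : ℝ) < X.card := by exact_mod_cast hX.card_pos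
  have hK' : (1 : ℝ) ≤ K := by exact_mod_cast hK
  have hD' : (2 : ℝ) ≤ D := by exact_mod_cast hD
  set q : ℝ := (1 / 2 : ℝ) ^ a with hq
  have hq0 : 0 < q := by positivity
  have hq1 : q ≤ 1 := pow_le_one₀ (by norm_num) (by norm_num)
  have hq2 : q ^ (2 * K) = (1 / 2 : ℝ) ^ (2 * a * K) := by
    rw [hq, ← pow_mul, show a * (2 * K) = 2 * a * K by ring]
  have hqa : q * 2 ^ a = 1 := by rw [hq, ← mul_pow]; norm_num
  have hg : (1 / 2 : ℝ) ^ (2 * a * K) * 2 ^ (2 * a * K) = 1 := by rw [← mul_pow]; norm_num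
  have hl' : (l : ℝ) = 32 * K ^ 2 * D * 2 ^ (2 * a * K) := by rw [hl]; push_cast; ring
  have htail : Real.exp (-(q * Fintype.card (Fin l))) ≤ 1 / (2 * D) := by
    rw [Fintype.card_fin, Real.exp_neg, one_div]
    refine inv_anti₀ (by positivity) (le_trans ?_ (Real.add_one_le_exp _))
    have a1 : (2 : ℝ) ^ a ≤ 2 ^ (2 * a * K) :=
      pow_le_pow_right₀ (by norm_num) (by nlinarith only [hK])
    have a2 : 1 ≤ q * 2 ^ (2 * a * K) := by
      rw [← hqa]; exact mul_le_mul_of_nonneg_left a1 hq0.le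
    have a3 : (1 : ℝ) ≤ K ^ 2 := one_le_pow₀ hK'
    have a4 : (D : ℝ) * 1 ≤ D * (K ^ 2 * (q * 2 ^ (2 * a * K))) :=
      mul_le_mul_of_nonneg_left (one_le_mul_of_one_le_of_one_le a3 a2) (by linarith only [hD'])
    rw [hl']
    linarith only [hD', a4]
  have hch : 16 * K * w / (q ^ (2 * K) * n) ≤ 1 / (2 * D) := by
    have a1 : (l : ℝ) * w ≤ K * n := by rw [hn']; exact_mod_cast hlw
    rw [div_le_div_iff₀ (by positivity) (by positivity), hq2]
    refine le_of_mul_le_mul_left ?_ (show (0 : ℝ) < K * 2 ^ (2 * a * K) by positivity)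
    rw [hl'] at a1
    have e : (K : ℝ) * 2 ^ (2 * a * K) * (1 * ((1 / 2) ^ (2 * a * K) * n)) =
        K * n * ((1 / 2 : ℝ) ^ (2 * a * K) * 2 ^ (2 * a * K)) := by ring
    rw [e, hg]
    linarith only [a1]
  obtain ⟨J, hJ⟩ := exists_Ex_le hq0.le hq1 (fun J : Finset (Fin l) => (-1) *
    (∑ z ∈ X, (if ((detFr A J z).card : ℝ) < q ^ (2 * K) * n / 4 then (1 : ℝ) else 0) +
      X.card * (if 4 * q * Fintype.card (Fin l) < (J.card : ℝ) then 1 else 0)))
  rw [Ex_mul, Ex_add, Ex_mul, Ex_sum] at hJ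
  have h1 := Finset.sum_le_card_nsmul X _ _
    (fun z _ => (rand_cheb A z (fun j => hw j z) hK hlw hn hq0 hq1).trans hch)
  rw [nsmul_eq_mul] at h1
  have h2 := mul_le_mul_of_nonneg_left ((Ex_tail hq0.le hq1).trans htail) hX0.le
  have h3 : (X.card : ℝ) * (1 / (2 * D)) + X.card * (1 / (2 * D)) = X.card / D := by
    field_simp
    ring
  have h4 : (X.card : ℝ) / D < X.card := div_lt_self hX0 (by linarith only [hD'])
  have h5 : 0 ≤ ∑ z ∈ X, (if ((detFr A J z).card : ℝ) < q ^ (2 * K) * n / 4 then (1 : ℝ) else 0) :=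
    Finset.sum_nonneg (fun z _ => by positivity)
  by_cases hc : 4 * q * Fintype.card (Fin l) < (J.card : ℝ)
  · exfalso
    rw [if_pos hc] at hJ
    linarith only [hJ, h1, h2, h3, h4, h5]
  rw [if_neg hc] at hJ
  refine ⟨J, ?_, ?_⟩
  · rw [not_lt, Fintype.card_fin] at hc
    have a1 := mul_le_mul_of_nonneg_left hc (show (0 : ℝ) ≤ 2 ^ a by positivity)
    have e : (2 : ℝ) ^ a * (4 * q * l) = 4 * l * (q * 2 ^ a) := by ring
    rw [e, hqa, mul_one] at a1
    exact_mod_cast a1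
  · rw [Finset.sum_boole] at hJ
    have e : X.filter (fun z => ¬ ⌈(1 / 2 : ℝ) ^ (2 * a * K) * n / 4⌉₊ ≤ (detFr A J z).card) =
        X.filter (fun z => ((detFr A J z).card : ℝ) < q ^ (2 * K) * n / 4) := by
      refine Finset.filter_congr (fun z _ => ?_)
      rw [not_le, Nat.lt_ceil, hq2]
    rw [e]
    linarith only [hJ, h1, h2, h3]

omit [Fintype Γ] in
theorem rand_sum (Y : Finset (Om Γ α)) (F : Om Γ α → Finset α) (u m : ℕ) (g : Om Γ α → ℝ)
    (hF : ∀ z ∈ Y, (F z).card = u) :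
    ∑ B ∈ powersetCard m (univ : Finset α), ∑ z ∈ Y.filter (fun z => B ⊆ F z), g z =
      u.choose m * ∑ z ∈ Y, g z := by
  simp only [Finset.sum_filter]
  rw [Finset.sum_comm, Finset.mul_sum]
  refine Finset.sum_congr rfl (fun z hz => ?_)
  rw [← Finset.sum_filter, Finset.sum_const, nsmul_eq_mul, ← hF z hz,
    ← Finset.card_powersetCard]
  congr 3
  ext B
  simp [mem_powersetCard, and_comm]

theorem rand_core (χ : Om Γ α → ℝ) (h1 : ∀ z, |χ z| ≤ 1) (hχ : Extr χ) (l w : ℕ)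
    (A : Fin l → Om Γ α → Finset α) (Q : Fin l → Om Γ α → Prop)
    (stem : ∀ j z x, On (A j z) z x → A j x = A j z ∧ (Q j z → Q j x))
    (hw : ∀ j z, (A j z).card ≤ w)
    (X : Finset (Om Γ α)) (hX : ∀ z, z ∈ X ↔ ∀ j, Q j z)
    (K a D μ : ℕ) (hK : 1 ≤ K) (hD : 2 ≤ D) (ha : 512 * (12 * a * K + 21) * K ≤ 2 ^ a)
    (hl : l = 32 * K ^ 2 * D * 2 ^ (2 * a * K)) (hlw : l * w ≤ K * Fintype.card α)
    (hμ : 2 ^ (2 * a * K + 6) * μ ≤ Fintype.card α) (hμa : 2 * a + 3 ≤ μ) :
    |∑ z ∈ X, χ z| ≤ X.card / D + 3 * Fintype.card (Om Γ α) / 2 ^ μ := by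
  rcases X.eq_empty_or_nonempty with rfl | hXne
  · simp only [Finset.sum_empty, abs_zero]
    (clear * - hD; positivity)
  have hn0 : 0 < Fintype.card α := lt_of_lt_of_le (Nat.mul_pos (by positivity) (by omega)) hμ
  obtain ⟨J, hJ, hX'⟩ := rand_exists_J A hw X hXne hK hD hl hlw hn0
  set γ : ℝ := (1 / 2 : ℝ) ^ (2 * a * K) with hγ
  set n : ℝ := (Fintype.card α : ℝ) with hn'
  set N : ℝ := (Fintype.card (Om Γ α) : ℝ) with hN'
  set u : ℕ := ⌈γ * n / 4⌉₊ with hu
  have hγ0 : 0 < γ := by positivity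
  have hN0 : 0 ≤ N := Nat.cast_nonneg _
  set r : ℕ := 12 * a * K + 21 with hr
  have hra : 512 * r ≤ 2 ^ a := le_trans (Nat.le_mul_of_pos_right _ hK) ha
  have haK : a ≤ a * K := Nat.le_mul_of_pos_right _ hK
  have hpow : 2 ^ a ≤ 2 ^ (2 * a * K + 6) := Nat.pow_le_pow_right (by norm_num) (by linarith only [haK])
  have hrn : 512 * r * μ ≤ Fintype.card α :=
    le_trans (Nat.mul_le_mul_right _ (hra.trans hpow)) hμ
  set d : ℕ := Fintype.card α / (128 * r) with hd
  have hr0 : 0 < 128 * r := by omega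
  have hd1 : 128 * r * d ≤ Fintype.card α := Nat.mul_div_le _ _
  have hd2 : J.card * w ≤ d := by
    rw [hd, Nat.le_div_iff_mul_le hr0]
    refine Nat.le_of_mul_le_mul_left ?_ (show 0 < 4 * K by omega)
    calc 4 * K * (J.card * w * (128 * r)) = (512 * r * K) * J.card * w := by ring
      _ ≤ 2 ^ a * J.card * w := by gcongr
      _ ≤ 4 * l * w := Nat.mul_le_mul_right _ hJ
      _ = 4 * (l * w) := by ring
      _ ≤ 4 * (K * Fintype.card α) := Nat.mul_le_mul_left _ hlw
      _ = _ := by ring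
  have hd3 : d + 6 * μ ≤ Fintype.card α := by
    have a1 : 128 * d ≤ 128 * r * d := Nat.mul_le_mul_right _ (by omega)
    have a2 : 512 * μ ≤ 512 * r * μ := Nat.mul_le_mul_right _ (by omega)
    omega
  have hpick : ∀ F : Finset α, ∃ E : Finset α, E ⊆ F ∧ (u ≤ F.card → E.card = u) := by
    intro F
    by_cases h : u ≤ F.card
    · obtain ⟨E, h1, h2⟩ := Finset.exists_subset_card_eq h
      exact ⟨E, h1, fun _ => h2⟩
    · exact ⟨∅, empty_subset _, fun h' => absurd h' h⟩
  choose pick hp1 hp2 using hpick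
  set X' := X.filter (fun z => u ≤ (detFr A J z).card) with hX'd
  set Y := (univ : Finset (Om Γ α)).filter (fun z => u ≤ (detFr A J z).card) with hY
  have hdis : ∀ (B : Finset α) (z : Om Γ α), B ⊆ pick (detFr A J z) → ∀ j, j ∉ J →
      Disjoint B (A j z) := fun B z hB j hj =>
    Finset.disjoint_left.2 (fun i hi => mem_detFr.1 (hp1 _ (hB hi)) j hj)
  have hclos : ∀ (B : Finset α) (z x : Om Γ α), B ⊆ pick (detFr A J z) → Off B z x →
      detFr A J x = detFr A J z := by
    intro B z x hB hzx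
    ext i
    simp only [mem_detFr]
    refine forall_congr' (fun j => forall_congr' (fun hj => ?_))
    rw [(stem j z x (hzx.on (hdis B z hB j hj))).1]
  have hfin : ∀ B ∈ powersetCard (6 * μ) (univ : Finset α),
      |∑ z ∈ X'.filter (fun z => B ⊆ pick (detFr A J z)), χ z| ≤
        (∑ z ∈ X'.filter (fun z => B ⊆ pick (detFr A J z)), (1 : ℝ) +
          ∑ z ∈ Y.filter (fun z => B ⊆ pick (detFr A J z)), (1 : ℝ)) / 2 ^ μ +
          (γ / 8) ^ (6 * μ) * (N / 2 ^ μ) := by
    intro B hB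
    have hBc := (mem_powersetCard.1 hB).2
    have hpad : ∀ F : Finset α, ∃ E : Finset α, F.card ≤ d →
        F \ B ⊆ E ∧ E ⊆ Bᶜ ∧ E.card = d := by
      intro F
      by_cases h : F.card ≤ d
      · obtain ⟨E, h1, h2, h3⟩ := Finset.exists_subsuperset_card_eq (s := F \ B) (t := Bᶜ) (n := d)
          (fun i hi => mem_compl.2 (mem_sdiff.1 hi).2)
          ((Finset.card_le_card sdiff_subset).trans h) (by rw [Finset.card_compl, hBc]; omega)
        exact ⟨E, fun _ => ⟨h1, h2, h3⟩⟩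
      · exact ⟨∅, fun h' => absurd h' h⟩
    choose pad hpad using hpad
    have hPc : ∀ z : Om Γ α, (J.biUnion (fun j => A j z)).card ≤ d := fun z =>
      (Finset.card_biUnion_le_card_mul J _ w (fun j _ => hw j z)).trans hd2
    have h := rfinal χ h1 hχ (X'.filter (fun z => B ⊆ pick (detFr A J z)))
      (Y.filter (fun z => B ⊆ pick (detFr A J z))) B
      (fun z => pad (J.biUnion (fun j => A j z))) d μ r hBc
      (by
        intro z hz
        obtain ⟨hzX, hzB⟩ := mem_filter.1 hz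
        rw [← hBc, ← card_fib_univ B z]
        refine Finset.card_le_card (fun x hx => ?_)
        have hx' := (mem_fib.1 hx).2
        have e := hclos B z x hzB hx'
        refine mem_fib.2 ⟨mem_filter.2 ⟨mem_filter.2 ⟨mem_univ _, ?_⟩, ?_⟩, hx'⟩
        · rw [e]; exact (mem_filter.1 hzX).2
        · rw [e]; exact hzB)
      (fun z _ => ⟨(hpad _ (hPc z)).2.2, Finset.disjoint_left.2
        (fun i hi => mem_compl.1 ((hpad _ (hPc z)).2.1 hi))⟩)
      (by
        intro V hV z hz x hx hzx hP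
        have hz' := mem_filter.1 hz
        have hx' := mem_filter.1 hx
        have k1 : ∀ j ∈ J, On (A j z) z (mix V z x) := by
          intro j hj
          refine (off_mix V z x).on (Finset.disjoint_left.2 (fun i hiV hi => ?_))
          refine Finset.disjoint_left.1 hP ((hpad _ (hPc z)).1 (mem_sdiff.2
            ⟨mem_biUnion.2 ⟨j, hj, hi⟩, Finset.disjoint_right.1 hV hiV⟩)) hiV
        have k2 : Off B x (mix V z x) := by
          refine ⟨hzx.1.symm, fun i hi => ?_⟩
          by_cases hiV : i ∈ V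
          · simp [mix, hiV]
          · simp only [mix, hiV, if_false]
            exact (hzx.2 i (by simp [hi, hiV])).symm
        have k3 := hclos B x _ hx'.2 k2
        refine ⟨mem_filter.2 ⟨mem_filter.2 ⟨(hX _).2 (fun j => ?_), ?_⟩, ?_⟩, ?_⟩
        · by_cases hj : j ∈ J
          · exact (stem j z _ (k1 j hj)).2 ((hX z).1 (mem_filter.1 hz'.1).1 j)
          · exact (stem j x _ (k2.on (hdis B x hx'.2 j hj))).2
              ((hX x).1 (mem_filter.1 hx'.1).1 j)
        · rw [k3]; exact (mem_filter.1 hx'.1).2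
        · rw [k3]; exact hx'.2
        · exact congrArg pad (Finset.biUnion_congr rfl (fun j hj => (stem j z _ (k1 j hj)).1)))
      (by omega) (by omega)
      (by
        calc 2 * r ^ 2 ≤ (512 * r) ^ 2 := by
              rw [mul_pow]; exact Nat.mul_le_mul_right _ (by norm_num)
          _ ≤ (2 ^ a) ^ 2 := Nat.pow_le_pow_left hra 2
          _ = 2 ^ (a * 2) := by rw [← pow_mul]
          _ ≤ 2 ^ μ := Nat.pow_le_pow_right (by norm_num) (by omega))
      (le_trans (Nat.mul_le_mul_right _ (by omega)) hrn) hd1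
    simp only [Finset.sum_const, nsmul_eq_mul, mul_one]
    refine h.trans (add_le_add le_rfl ?_)
    have e2 : γ / 8 = ((2 : ℝ) ^ (2 * a * K + 3))⁻¹ := by
      rw [hγ, one_div, inv_pow, pow_add (2 : ℝ) (2 * a * K) 3]
      field_simp
      norm_num
    have e3 : ((2 : ℝ) ^ μ) ^ r = ((2 : ℝ) ^ (2 * a * K + 3)) ^ (6 * μ) * (2 ^ μ) ^ 3 := by
      rw [← pow_mul, ← pow_mul, ← pow_mul, ← pow_add, hr]
      congr 1
      ring
    have e4 : (2 : ℝ) ≤ 2 ^ μ := le_self_pow₀ (by norm_num) (by omega)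
    rw [e2, e3, inv_pow]
    have e5 : 2 * 2 ^ μ / (((2 : ℝ) ^ (2 * a * K + 3)) ^ (6 * μ) * (2 ^ μ) ^ 3) * N =
        (((2 : ℝ) ^ (2 * a * K + 3)) ^ (6 * μ))⁻¹ * (N / 2 ^ μ) * (2 / 2 ^ μ) := by
      field_simp
    rw [e5]
    exact mul_le_of_le_one_right (by (clear * - ; positivity)) (by rw [div_le_one (by positivity)]; exact e4)
  have hS := fun g => rand_sum X' (fun z => pick (detFr A J z)) u (6 * μ) g
    (fun z hz => hp2 _ (mem_filter.1 hz).2)
  have hT := rand_sum Y (fun z => pick (detFr A J z)) u (6 * μ) (fun _ => 1)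
    (fun z hz => hp2 _ (mem_filter.1 hz).2)
  have hsum := (Finset.abs_sum_le_sum_abs _ _).trans (Finset.sum_le_sum hfin)
  rw [Finset.sum_add_distrib, ← Finset.sum_div, Finset.sum_add_distrib, hS, hS, hT] at hsum
  simp only [Finset.sum_const, nsmul_eq_mul, mul_one, Finset.card_powersetCard,
    Finset.card_univ] at hsum
  have hYN : (Y.card : ℝ) ≤ N := by rw [hN']; exact_mod_cast Finset.card_le_univ Y
  have hXN : (X'.card : ℝ) ≤ N := by rw [hN']; exact_mod_cast Finset.card_le_univ X'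
  have hγ2 : γ * 2 ^ (2 * a * K) = 1 := by
    rw [hγ, ← mul_pow]; norm_num
  have hμ0 : (0 : ℝ) ≤ μ := Nat.cast_nonneg _
  have hμn : 64 * (μ : ℝ) ≤ γ * n := by
    have a1 : (2 : ℝ) ^ (2 * a * K + 6) * μ ≤ n := by rw [hn']; exact_mod_cast hμ
    have a2 := mul_le_mul_of_nonneg_left a1 hγ0.le
    rw [pow_add, ← mul_assoc, ← mul_assoc, hγ2] at a2
    linarith only [a2]
  have hu1 : γ * n / 4 ≤ u := Nat.le_ceil _
  have hch := det_choose (Fintype.card α) u (6 * μ) (γ / 8) (by positivity)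
    (by push_cast; linarith only [hμn, hu1])
  have hC0 : (0 : ℝ) < u.choose (6 * μ) := by
    have : ((6 * μ : ℕ) : ℝ) ≤ u := by
      push_cast
      linarith only [hμn, hu1]
    exact_mod_cast Nat.choose_pos (by exact_mod_cast this)
  have h8 := mul_le_mul_of_nonneg_right hch (show 0 ≤ N / 2 ^ μ by positivity)
  have h7 : ((u.choose (6 * μ) : ℝ) * X'.card + u.choose (6 * μ) * Y.card) / 2 ^ μ ≤
      u.choose (6 * μ) * (2 * (N / 2 ^ μ)) := by
    rw [← mul_add, mul_div_assoc, ← mul_div_assoc 2]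
    gcongr
    linarith only [hYN, hXN]
  rw [abs_mul, abs_of_pos hC0] at hsum
  have h9 : |∑ z ∈ X', χ z| ≤ 3 * N / 2 ^ μ := by
    refine le_of_mul_le_mul_left ?_ hC0
    rw [mul_div_assoc]
    linarith only [hsum, h8, h7]
  rw [← Finset.sum_filter_add_sum_filter_not X (fun z => u ≤ (detFr A J z).card)]
  refine (abs_add_le _ _).trans ?_
  have h10 : |∑ z ∈ X.filter (fun z => ¬ u ≤ (detFr A J z).card), χ z| ≤
      (X.filter (fun z => ¬ u ≤ (detFr A J z).card)).card := by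
    refine (Finset.abs_sum_le_sum_abs _ _).trans ?_
    simpa using Finset.sum_le_card_nsmul _ _ 1 (fun z _ => h1 z)
  linarith only [hX', h9, h10]

end Pool.Agent.Work.MP_807b32_lc.TS
end

-- merged part: Pool.Agent.Work.MP_807b32_lc.TS.DetMain
section
/-!
The time-space tradeoff for deterministic programs.

Proof plan of `det_trace`. Let `w = T / l + 1`, `τ j = min (j w) T` (so `τ l = T`). Map an accepted
`z` to the tuple of nodes reached on `inp c z` after `τ (j + 1)` steps, `j : Fin l`; some fibre has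
at least a fraction `1 / |S| ^ l` of the accepted points; take `z₀` in it and let `v j` be the node
reached on `inp c z₀` after `τ j` steps. `A j z` is the set of `i` such that `(0, i)` is queried in
the first `τ (j + 1) - τ j` steps from `v j` on `inp c z`, and `Q j z` says that these steps end in
`v (j + 1)`. Use `inp_congr` for the stem property.
-/

namespace Pool.Agent.Work.MP_807b32_lc.TS

open Finset
open scoped Classical

theorem DetMain_run {n : ℕ} (c : Fin n → Bool) {S : Type} (B : DBP (Fin 3 × Fin n) S) (s : S)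
    (d : ℕ) {z x : Om (Fin n → Bool) (Fin n)}
    (h : On ((range d).image fun m => (B.var ((B.step (inp c z))^[m] s)).2) z x) :
    ∀ m ≤ d, (B.step (inp c x))^[m] s = (B.step (inp c z))^[m] s := by
  intro m
  induction m with
  | zero => exact fun _ => rfl
  | succ m ih =>
    intro hm
    rw [Function.iterate_succ_apply', Function.iterate_succ_apply', ih (by omega), DBP.step,
      DBP.step, inp_congr c h.1 _ fun _ => h.2 _ (mem_image.2 ⟨m, mem_range.2 hm, rfl⟩)]

theorem det_trace {n : ℕ} (c : Fin n → Bool) {S : Type} [Fintype S]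
    (B : DBP (Fin 3 × Fin n) S) (g : (Fin 3 × Fin n → Bool) → Prop) (T l : ℕ) (hl : 1 ≤ l)
    (hB : B.ComputesIn g T) :
    ∃ (A : Fin l → Om (Fin n → Bool) (Fin n) → Finset (Fin n))
      (Q : Fin l → Om (Fin n → Bool) (Fin n) → Prop) (X : Finset (Om (Fin n → Bool) (Fin n))),
      (∀ j z x, On (A j z) z x → A j x = A j z ∧ (Q j z → Q j x)) ∧
      (∀ j z, (A j z).card ≤ T / l + 1) ∧ (∀ z, z ∈ X ↔ ∀ j, Q j z) ∧
      (∀ z ∈ X, g (inp c z)) ∧
      (univ.filter (fun z : Om (Fin n → Bool) (Fin n) => g (inp c z))).card ≤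
        Fintype.card S ^ l * X.card := by
  obtain ⟨τ, hτ⟩ : ∃ τ : ℕ → ℕ, ∀ j, τ j = min (j * (T / l + 1)) T := ⟨_, fun _ => rfl⟩
  have t0 : τ 0 = 0 := by simp [hτ]
  have t1 : τ l = T := by rw [hτ]; exact min_eq_right (Nat.lt_mul_div_succ T hl).le
  have t2 : ∀ j, τ j ≤ τ (j + 1) ∧ τ (j + 1) - τ j ≤ T / l + 1 := fun j => by
    rw [hτ, hτ, add_one_mul]
    generalize T / l + 1 = w
    omega
  let R : Om (Fin n → Bool) (Fin n) → ℕ → S := fun z j => (B.step (inp c z))^[τ j] B.start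
  have r0 : ∀ z x, R z 0 = R x 0 := fun z x => by simp only [R, t0, Function.iterate_zero_apply]
  have r1 : ∀ z, g (inp c z) ↔ R z l ∈ B.accept := fun z => by
    simp only [R, t1]
    exact hB _
  have r2 : ∀ z j, (B.step (inp c z))^[τ (j + 1) - τ j] (R z j) = R z (j + 1) := fun z j => by
    simp only [R]
    rw [← Function.iterate_add_apply, Nat.sub_add_cancel (t2 j).1]
  let φ : Om (Fin n → Bool) (Fin n) → Fin l → S := fun z j => R z (j + 1)
  obtain ⟨z₀, h₀⟩ := Finite.exists_max fun z₀ : Om (Fin n → Bool) (Fin n) =>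
    ((univ.filter fun z : Om (Fin n → Bool) (Fin n) => g (inp c z)).filter
      fun z => φ z = φ z₀).card
  let Q : Fin l → Om (Fin n → Bool) (Fin n) → Prop := fun j z =>
    (B.step (inp c z))^[τ (j + 1) - τ j] (R z₀ j) = R z₀ (j + 1) ∧ R z₀ l ∈ B.accept
  refine ⟨fun j z => (range (τ (j + 1) - τ j)).image
      fun m => (B.var ((B.step (inp c z))^[m] (R z₀ j))).2, Q, univ.filter fun z => ∀ j, Q j z,
    fun j z x h => ⟨image_congr fun m hm => ?_, fun hq => ⟨?_, hq.2⟩⟩, fun j z => ?_,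
    fun z => by simp, fun z hz => ?_, ?_⟩
  · rw [DetMain_run c B _ _ h m (mem_range.1 hm).le]
  · rw [DetMain_run c B _ _ h _ le_rfl, hq.1]
  · exact card_image_le.trans ((card_range _).trans_le (t2 j).2)
  · have hz' := (mem_filter.1 hz).2
    have key : ∀ j ≤ l, R z j = R z₀ j := by
      intro j
      induction j with
      | zero => exact fun _ => r0 _ _
      | succ j ih => exact fun hj => by rw [← r2, ih (by omega), (hz' ⟨j, hj⟩).1]
    rw [r1, key l le_rfl]
    exact (hz' ⟨0, hl⟩).2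
  · refine (card_le_mul_card_image (f := φ) _ _ fun t ht => by
      obtain ⟨z₁, -, rfl⟩ := mem_image.1 ht
      exact h₀ z₁).trans ?_
    rw [mul_comm]
    refine Nat.mul_le_mul ((card_le_univ _).trans_eq (by simp)) (card_le_card fun z hz => ?_)
    obtain ⟨h1, h2⟩ := mem_filter.1 hz
    have key : ∀ j ≤ l, R z₀ j = R z j := by
      rintro (_ | j) hj
      · exact r0 _ _
      · exact (congrFun h2 ⟨j, hj⟩).symm
    refine mem_filter.2 ⟨mem_univ _, fun j => ⟨?_, ?_⟩⟩
    · rw [key j j.2.le, key (j + 1) j.2, r2]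
    · rw [key l le_rfl, ← r1]
      exact (mem_filter.1 h1).2

theorem DetMain_num (k : ℕ) (hk : 2 ≤ k) : ∃ a : ℕ,
    512 * (8 * a * (k + 1) + 19) * (k + 1) ≤ 2 ^ a ∧
      2 ^ (2 * a * (k + 1) + 6) * (2 * 2 ^ (a + (2 * a * (k + 1) + 6))) ≤ k ^ (211 * k) := by
  have h1 : 1 ≤ Nat.log 2 k := Nat.log_pos one_lt_two hk
  have h2 : k + 1 ≤ 2 ^ (Nat.log 2 k + 1) := Nat.lt_pow_succ_log_self one_lt_two k
  have h3 : 2 ^ Nat.log 2 k ≤ k := Nat.pow_log_le_self 2 (by omega)
  generalize Nat.log 2 k = L at h1 h2 h3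
  refine ⟨22 * L, ?_, ?_⟩
  · have h4 : L * (k + 1) ≤ 2 ^ L * 2 ^ (L + 1) := Nat.mul_le_mul Nat.lt_two_pow_self.le h2
    have h5 : 1 ≤ L * (k + 1) := Nat.mul_pos h1 (by omega)
    have h6 : 8 * (22 * L) * (k + 1) + 19 ≤ 256 * (2 ^ L * 2 ^ (L + 1)) := by nlinarith only [h4, h5]
    calc 512 * (8 * (22 * L) * (k + 1) + 19) * (k + 1)
        ≤ 512 * (256 * (2 ^ L * 2 ^ (L + 1))) * 2 ^ (L + 1) := by gcongr
      _ = 2 ^ (3 * L + 19) := by ring
      _ ≤ 2 ^ (22 * L) := Nat.pow_le_pow_right two_pos (by omega)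
  · rw [← pow_succ', ← pow_add]
    refine le_trans (Nat.pow_le_pow_right two_pos (j := L * (211 * k)) ?_)
      (by rw [pow_mul]; exact Nat.pow_le_pow_left h3 _)
    have h4 : L * 2 ≤ L * k := Nat.mul_le_mul_left L hk
    nlinarith only [h1, h4]

/-- Parameters: `K = k + 1`, `a = 22 * Nat.log 2 k`, `l = 2 ^ a (2 a K + 2)`,
`μ = n / 2 ^ (2 a K + 6)`. If `n < l` the bound is trivial. Otherwise `det_core`, `det_trace` and
`exists_restriction` give `2 ^ μ ≤ 2 ^ (2 a K + 6) |S| ^ l`. -/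
theorem det_main : ∃ C : ℕ, ∀ (n k : ℕ), 2 ≤ k → ∀ (S : Type) [Fintype S]
    (B : DBP (Fin 3 × Fin n) S) (T : ℕ), T ≤ k * n → B.ComputesIn (Hard n) T →
    n ≤ k ^ (C * k) * (Nat.clog 2 (Fintype.card S) + 1) := by
  refine ⟨211, fun n k hk S _ B T hT hB => ?_⟩
  obtain ⟨a, ha, hF⟩ := DetMain_num k hk
  obtain ⟨M, hM⟩ : ∃ M, M = 2 * a * (k + 1) := ⟨_, rfl⟩
  obtain ⟨l, hl⟩ : ∃ l, l = 2 ^ a * (M + 2) := ⟨_, rfl⟩
  rw [← hM] at hF
  have h1 : M + 6 < 2 ^ (M + 6) := Nat.lt_two_pow_self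
  have h2 : l ≤ 2 ^ (a + (M + 6)) := by
    rw [hl, pow_add]
    exact Nat.mul_le_mul_left _ (by omega)
  have h3 : 2 ^ (M + 6) ≤ 2 ^ (a + (M + 6)) := Nat.pow_le_pow_right two_pos (by omega)
  have h4 : 1 ≤ l := by rw [hl]; exact Nat.mul_pos (pow_pos two_pos a) (by omega)
  refine le_trans ?_ (Nat.mul_le_mul_right _ hF)
  rcases lt_or_ge n l with hn | hn
  · rw [mul_assoc]
    refine le_trans ?_ (Nat.le_mul_of_pos_left _ (pow_pos two_pos _))
    refine le_trans ?_ (Nat.le_mul_of_pos_right _ (Nat.succ_pos _))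
    omega
  obtain ⟨c, hc, hd⟩ := exists_restriction n (h4.trans hn)
  obtain ⟨A, Q, X, k1, k2, k3, k4, k5⟩ := det_trace c B (Hard n) T l h4 hB
  have k6 := det_core _ hc l (T / l + 1) A Q k1 k2 X k3 k4 (k + 1) a (n / 2 ^ (M + 6))
    (Nat.succ_pos k) ha (by rw [hl, hM]) (by
      have := Nat.mul_div_le T l
      rw [Fintype.card_fin, mul_add_one, add_one_mul]
      omega) (by
      rw [Fintype.card_fin, ← hM]
      exact Nat.mul_div_le _ _)
  rw [← hM] at k6
  have k7 := hd.trans (Nat.mul_le_mul_left 4 k5)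
  have k8 : 0 < X.card := by
    refine Nat.pos_of_ne_zero fun h => ?_
    rw [h, mul_zero, mul_zero] at k7
    exact absurd k7 Fintype.card_pos.not_ge
  have k9 : Fintype.card S ^ l ≤ 2 ^ (Nat.clog 2 (Fintype.card S) * l) := by
    rw [pow_mul]
    exact Nat.pow_le_pow_left (Nat.le_pow_clog one_lt_two _) l
  generalize Nat.clog 2 (Fintype.card S) = s at k9 ⊢
  have k10 : X.card * 2 ^ (n / 2 ^ (M + 6)) ≤ X.card * 2 ^ (M + 6 + s * l) :=
    calc X.card * 2 ^ (n / 2 ^ (M + 6))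
        ≤ 2 ^ (M + 4) * (4 * (2 ^ (s * l) * X.card)) :=
          k6.trans (Nat.mul_le_mul_left _ (k7.trans (by gcongr)))
      _ = X.card * 2 ^ (M + 6 + s * l) := by ring
  have k11 := (Nat.pow_le_pow_iff_right one_lt_two).1 (Nat.le_of_mul_le_mul_left k10 k8)
  refine (Nat.lt_mul_div_succ n (pow_pos two_pos (M + 6))).le.trans ?_
  rw [mul_assoc]
  refine Nat.mul_le_mul_left _ ?_
  have k12 := Nat.mul_le_mul_left s h2
  nlinarith only [h1, h3, k11, k12]

end Pool.Agent.Work.MP_807b32_lc.TS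
end

-- merged part: Pool.Agent.Work.MP_807b32_lc.TS.RMain
section
/-!
The time-space tradeoff for randomized programs with two-sided error.
-/

namespace Pool.Agent.Work.MP_807b32_lc.TS

open Finset
open scoped Classical

theorem exists_restriction_extr (n : ℕ) (hn : 1 ≤ n) : ∃ c : Fin n → Bool,
    Extr (fun z : Om (Fin n → Bool) (Fin n) => if Hard n (inp c z) then (-1 : ℝ) else 1) := by
  have : Fact (Nat.Prime 2) := ⟨Nat.prime_two⟩
  let pb : PowerBasis (ZMod 2) (GaloisField 2 n) :=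
    Field.powerBasisOfFiniteOfSeparable (ZMod 2) (GaloisField 2 n)
  have hdim : pb.dim = n := by
    rw [← pb.finrank, GaloisField.finrank 2 (by omega)]
  let e : Module.Basis (Fin n) (ZMod 2) (GaloisField 2 n) := pb.basis.reindex (finCongr hdim)
  have he : ∀ i, e i = pb.gen ^ (i : ℕ) := by
    intro i
    simp [e]
  have hc := inv_monic_eq (minpoly (ZMod 2) pb.gen) (minpoly.monic pb.isIntegral_gen)
    (pb.natDegree_minpoly.trans hdim)
  refine ⟨fun i : Fin n => decide ((minpoly (ZMod 2) pb.gen).coeff i = 1), ?_⟩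
  have hf : (fun z : Om (Fin n → Bool) (Fin n) => if Hard n (inp
      (fun i : Fin n => decide ((minpoly (ZMod 2) pb.gen).coeff i = 1)) z) then (-1 : ℝ) else 1) =
      fun z => if invF e z then (-1 : ℝ) else 1 :=
    funext (fun z => if_congr (inv_hard_iff e pb.gen he _ hc z) rfl rfl)
  rw [hf]
  exact extr_of_bias _ (fun z => by by_cases h : invF e z <;> simp [h]) (bias_invF e)

theorem rand_trace {n : ℕ} (c : Fin n → Bool) {S : Type} [Fintype S]
    (B : DBP (Fin 3 × Fin n) S) (T l : ℕ) (hl : 1 ≤ l) (χ : Om (Fin n → Bool) (Fin n) → ℝ)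
    (b₁ b₂ : ℝ)
    (hcore : ∀ (A : Fin l → Om (Fin n → Bool) (Fin n) → Finset (Fin n))
      (Q : Fin l → Om (Fin n → Bool) (Fin n) → Prop) (X : Finset (Om (Fin n → Bool) (Fin n))),
      (∀ j z x, On (A j z) z x → A j x = A j z ∧ (Q j z → Q j x)) →
      (∀ j z, (A j z).card ≤ T / l + 1) → (∀ z, z ∈ X ↔ ∀ j, Q j z) →
      |∑ z ∈ X, χ z| ≤ X.card / b₁ + b₂) :
    ∑ z, (if B.Accepts T (inp c z) then (-1 : ℝ) else 1) * χ z ≤
      Fintype.card (Om (Fin n → Bool) (Fin n)) / b₁ + Fintype.card S ^ (l + 1) * b₂ := by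
  obtain ⟨τ, hτ⟩ : ∃ τ : ℕ → ℕ, ∀ j, τ j = min (j * (T / l + 1)) T := ⟨_, fun _ => rfl⟩
  have t0 : τ 0 = 0 := by simp [hτ]
  have t1 : τ l = T := by rw [hτ]; exact min_eq_right (Nat.lt_mul_div_succ T hl).le
  have t2 : ∀ j, τ j ≤ τ (j + 1) ∧ τ (j + 1) - τ j ≤ T / l + 1 := fun j => by
    rw [hτ, hτ, add_one_mul]
    generalize T / l + 1 = w
    omega
  let R : Om (Fin n → Bool) (Fin n) → ℕ → S := fun z j => (B.step (inp c z))^[τ j] B.start
  have r0 : ∀ z, R z 0 = B.start := fun z => by simp only [R, t0, Function.iterate_zero_apply]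
  have r1 : ∀ z, B.Accepts T (inp c z) ↔ R z l ∈ B.accept := fun z => by
    simp only [R, t1, DBP.Accepts]
  have r2 : ∀ z j, (B.step (inp c z))^[τ (j + 1) - τ j] (R z j) = R z (j + 1) := fun z j => by
    simp only [R]
    rw [← Function.iterate_add_apply, Nat.sub_add_cancel (t2 j).1]
  let φ : Om (Fin n → Bool) (Fin n) → Fin (l + 1) → S := fun z j => R z j
  have hv : ∀ v : Fin (l + 1) → S,
      ∑ z ∈ univ.filter (fun z => φ z = v), (if B.Accepts T (inp c z) then (-1 : ℝ) else 1) * χ z ≤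
        (univ.filter (fun z => φ z = v)).card / b₁ + b₂ := by
    intro v
    refine le_trans ?_ (hcore
      (fun j z => (range (τ (j + 1) - τ j)).image
        fun m => (B.var ((B.step (inp c z))^[m] (v j.castSucc))).2)
      (fun j z => (B.step (inp c z))^[τ (j + 1) - τ j] (v j.castSucc) = v j.succ ∧ v 0 = B.start)
      (univ.filter (fun z => φ z = v))
      (fun j z x h => ⟨image_congr fun m hm => ?_, fun hq => ⟨?_, hq.2⟩⟩) (fun j z => ?_)
      (fun z => ?_))
    · have e : ∀ z ∈ univ.filter (fun z => φ z = v),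
          (if B.Accepts T (inp c z) then (-1 : ℝ) else 1) * χ z =
            (if v (Fin.last l) ∈ B.accept then (-1 : ℝ) else 1) * χ z := by
        intro z hz
        rw [← (mem_filter.1 hz).2]
        congr 1
        exact if_congr (r1 z) rfl rfl
      rw [Finset.sum_congr rfl e, ← Finset.mul_sum]
      split_ifs
      · rw [neg_one_mul]; exact neg_le_abs _
      · rw [one_mul]; exact le_abs_self _
    · rw [DetMain_run c B _ _ h m (mem_range.1 hm).le]
    · rw [DetMain_run c B _ _ h _ le_rfl, hq.1]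
    · exact card_image_le.trans ((card_range _).trans_le (t2 j).2)
    · rw [mem_filter]
      constructor
      · rintro ⟨-, rfl⟩ j
        exact ⟨r2 z j, r0 z⟩
      · intro h
        refine ⟨mem_univ _, funext fun j => ?_⟩
        induction j using Fin.induction with
        | zero => exact (r0 z).trans (h ⟨0, hl⟩).2.symm
        | succ j ih =>
          rw [← (h j).1, ← ih]
          exact (r2 z j).symm
  rw [← Finset.sum_fiberwise univ φ]
  refine (Finset.sum_le_sum (fun v _ => hv v)).trans (le_of_eq ?_)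
  rw [Finset.sum_add_distrib, ← Finset.sum_div, Finset.sum_const, Finset.card_univ,
    Fintype.card_fun, Fintype.card_fin, nsmul_eq_mul]
  congr 2
  · rw [← Nat.cast_sum, ← Finset.card_eq_sum_card_fiberwise (fun _ _ => mem_univ _),
      Finset.card_univ]
  · push_cast
    rfl

theorem rand_num (k : ℕ) (hk : 2 ≤ k) : ∃ a : ℕ,
    512 * (12 * a * (k + 1) + 21) * (k + 1) ≤ 2 ^ a ∧
      2 ^ (2 * a * (k + 1) + 6) * (64 * (k + 1) ^ 2 * 2 ^ (2 * a * (k + 1))) ≤ k ^ (150 * k) := by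
  have h1 : 1 ≤ Nat.log 2 k := Nat.log_pos one_lt_two hk
  have h2 : k + 1 ≤ 2 ^ (Nat.log 2 k + 1) := Nat.lt_pow_succ_log_self one_lt_two k
  have h3 : 2 ^ Nat.log 2 k ≤ k := Nat.pow_log_le_self 2 (by omega)
  generalize Nat.log 2 k = L at h1 h2 h3
  refine ⟨23 * L, ?_, ?_⟩
  · have h4 : L * (k + 1) ≤ 2 ^ L * 2 ^ (L + 1) := Nat.mul_le_mul Nat.lt_two_pow_self.le h2
    have h5 : 1 ≤ L * (k + 1) := Nat.mul_pos h1 (by omega)
    have h6 : 12 * (23 * L) * (k + 1) + 21 ≤ 512 * (2 ^ L * 2 ^ (L + 1)) := by nlinarith only [h4, h5]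
    calc 512 * (12 * (23 * L) * (k + 1) + 21) * (k + 1)
        ≤ 512 * (512 * (2 ^ L * 2 ^ (L + 1))) * 2 ^ (L + 1) := by gcongr
      _ = 2 ^ (3 * L + 20) := by ring
      _ ≤ 2 ^ (23 * L) := Nat.pow_le_pow_right two_pos (by omega)
  · calc 2 ^ (2 * (23 * L) * (k + 1) + 6) * (64 * (k + 1) ^ 2 * 2 ^ (2 * (23 * L) * (k + 1)))
        ≤ 2 ^ (2 * (23 * L) * (k + 1) + 6) *
          (64 * (2 ^ (L + 1)) ^ 2 * 2 ^ (2 * (23 * L) * (k + 1))) := by gcongr
      _ = 2 ^ (92 * L * (k + 1) + 2 * L + 14) := by ring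
      _ ≤ 2 ^ (L * (150 * k)) := by
          refine Nat.pow_le_pow_right two_pos ?_
          have h4 : L * 2 ≤ L * k := Nat.mul_le_mul_left L hk
          nlinarith only [h1, h4]
      _ ≤ _ := by rw [pow_mul]; exact Nat.pow_le_pow_left h3 _

theorem rand_main : ∃ C : ℕ, ∀ (n k D : ℕ), 2 ≤ k → 2 ≤ D → ∀ (S ι : Type) [Fintype S] [Fintype ι]
    (wt : ι → ℝ) (B : ι → DBP (Fin 3 × Fin n) S) (T : ℕ), T ≤ k * n →
    RandComputes wt B (Hard n) T (1 / 2 + 1 / D) →
    n ≤ k ^ (C * k) * D * (Nat.clog 2 (Fintype.card S) + 1) := by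
  refine ⟨150, fun n k D hk hD S ι _ _ wt B T hT hB => ?_⟩
  obtain ⟨a, ha, hF⟩ := rand_num k hk
  obtain ⟨M, hM⟩ : ∃ M, M = 2 * a * (k + 1) := ⟨_, rfl⟩
  obtain ⟨l, hl⟩ : ∃ l, l = 32 * (k + 1) ^ 2 * D * 2 ^ M := ⟨_, rfl⟩
  obtain ⟨μ, hμ⟩ : ∃ μ, μ = n / 2 ^ (M + 6) := ⟨_, rfl⟩
  rw [← hM] at hF
  have h0 : M < 2 ^ M := Nat.lt_two_pow_self
  have h1 : 32 * D * 2 ^ M ≤ l := by
    rw [hl, mul_assoc 32, mul_assoc 32, mul_assoc 32, mul_assoc]
    exact Nat.mul_le_mul_left _ (Nat.le_mul_of_pos_left _ (by positivity))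
  have h2 : 32 * D ≤ l := le_trans (Nat.le_mul_of_pos_right _ (by positivity)) h1
  have h3 : 2 * a + 3 ≤ l := by
    have a1 : 2 * a ≤ M := by rw [hM]; exact Nat.le_mul_of_pos_right _ (by omega)
    have a2 : 64 * 2 ^ M ≤ 32 * D * 2 ^ M := Nat.mul_le_mul_right _ (by omega)
    omega
  have hs : ∃ s, s = Nat.clog 2 (Fintype.card S) := ⟨_, rfl⟩
  obtain ⟨s, hs⟩ := hs
  rw [← hs]
  have hfin : μ + 1 ≤ 2 * l * (s + 1) → n ≤ k ^ (150 * k) * D * (s + 1) := by
    intro h
    calc n ≤ 2 ^ (M + 6) * (μ + 1) := by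
          rw [hμ]; exact (Nat.lt_mul_div_succ n (pow_pos two_pos (M + 6))).le
      _ ≤ 2 ^ (M + 6) * (2 * l * (s + 1)) := Nat.mul_le_mul_left _ h
      _ = 2 ^ (M + 6) * (64 * (k + 1) ^ 2 * 2 ^ M) * D * (s + 1) := by rw [hl]; ring
      _ ≤ _ := by gcongr
  have hls : 2 * l ≤ 2 * l * (s + 1) := Nat.le_mul_of_pos_right _ (by omega)
  refine hfin ?_
  have hμn : μ ≤ n := hμ ▸ Nat.div_le_self _ _
  rcases lt_or_ge n l with hn | hn
  · omega
  rcases lt_or_ge μ (2 * a + 3) with hμa | hμa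
  · omega
  obtain ⟨c, hc⟩ := exists_restriction_extr n (by omega)
  obtain ⟨hw0, hw1, hw2⟩ := hB
  set N : ℝ := (Fintype.card (Om (Fin n → Bool) (Fin n)) : ℝ) with hN
  have hN0 : 0 < N := by rw [hN]; exact_mod_cast Fintype.card_pos
  have hD' : (2 : ℝ) ≤ D := by exact_mod_cast hD
  have k1 : ∀ i, ∑ z, (if (B i).Accepts T (inp c z) then (-1 : ℝ) else 1) *
      (if Hard n (inp c z) then (-1 : ℝ) else 1) ≤
        N / D + Fintype.card S ^ (l + 1) * (3 * N / 2 ^ μ) := fun i =>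
    rand_trace c (B i) T l (by omega) _ D (3 * N / 2 ^ μ) (fun A Q X e1 e2 e3 =>
      rand_core _ (fun z => by split_ifs <;> simp) hc l (T / l + 1) A Q e1 e2 X e3 (k + 1) a D μ
        (Nat.succ_pos k) hD ha (by rw [hl, hM]) (by
          have := Nat.mul_div_le T l
          rw [Fintype.card_fin, mul_add_one, add_one_mul]
          omega) (by
          rw [Fintype.card_fin, ← hM, hμ]
          exact Nat.mul_div_le _ _) hμa)
  have k2 : ∀ z : Om (Fin n → Bool) (Fin n), 2 / (D : ℝ) ≤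
      ∑ i, wt i * ((if (B i).Accepts T (inp c z) then (-1 : ℝ) else 1) *
        (if Hard n (inp c z) then (-1 : ℝ) else 1)) := by
    intro z
    have e : ∀ i, wt i * ((if (B i).Accepts T (inp c z) then (-1 : ℝ) else 1) *
        (if Hard n (inp c z) then (-1 : ℝ) else 1)) =
        2 * (if ((B i).Accepts T (inp c z) ↔ Hard n (inp c z)) then wt i else 0) - wt i := by
      intro i
      by_cases a1 : (B i).Accepts T (inp c z) <;> by_cases a2 : Hard n (inp c z) <;>
        simp [a1, a2] <;> ring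
    rw [Finset.sum_congr rfl (fun i _ => e i), Finset.sum_sub_distrib, ← Finset.mul_sum, hw1]
    have := hw2 (inp c z)
    have e2 : 2 / (D : ℝ) = 2 * (1 / D) := by ring
    rw [e2]
    linarith only [this]
  have k3 := Finset.card_nsmul_le_sum univ _ _ (fun z _ => k2 z)
  rw [Finset.sum_comm, Finset.card_univ, nsmul_eq_mul] at k3
  simp only [← Finset.mul_sum] at k3
  have k4 := Finset.sum_le_sum (s := univ)
    (fun i _ => mul_le_mul_of_nonneg_left (k1 i) (hw0 i))
  rw [← Finset.sum_mul, hw1, one_mul] at k4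
  have k5 : (2 : ℝ) ^ μ ≤ 3 * D * Fintype.card S ^ (l + 1) := by
    have a1 : N * (1 / D) ≤ N * (Fintype.card S ^ (l + 1) * 3 / 2 ^ μ) := by
      have e1 : N * (2 / (D : ℝ)) = N / D + N * (1 / D) := by ring
      have e2 : (Fintype.card S : ℝ) ^ (l + 1) * (3 * N / 2 ^ μ) =
          N * (Fintype.card S ^ (l + 1) * 3 / 2 ^ μ) := by ring
      linarith only [k3, k4, e1, e2]
    have a2 := le_of_mul_le_mul_left a1 hN0
    rw [div_le_div_iff₀ (by linarith only [hD']) (by positivity)] at a2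
    linarith only [a2]
  have k6 : 2 ^ μ ≤ 3 * D * Fintype.card S ^ (l + 1) := by exact_mod_cast k5
  have k7 : Fintype.card S ^ (l + 1) ≤ 2 ^ (s * (l + 1)) := by
    rw [pow_mul, hs]
    exact Nat.pow_le_pow_left (Nat.le_pow_clog one_lt_two _) _
  have k8 : 3 * D ≤ 2 ^ (D + 2) := by
    have : D < 2 ^ D := Nat.lt_two_pow_self
    rw [pow_add]
    omega
  have k9 : 2 ^ μ ≤ 2 ^ (D + 2 + s * (l + 1)) := by
    rw [pow_add]
    exact k6.trans (Nat.mul_le_mul k8 k7)
  have k10 := (Nat.pow_le_pow_iff_right one_lt_two).1 k9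
  have k11 : s * (l + 1) ≤ s * (2 * l) := Nat.mul_le_mul_left _ (by omega)
  nlinarith only [hD, h2, k10, k11]

end Pool.Agent.Work.MP_807b32_lc.TS
end
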